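import Pool.Agent.Lib.Helper82.Ell.Metric

/-!
# Chain rules for the Wirtinger operators
-/

set_option autoImplicit false

open MeasureTheory Complex Set Topology Filter
open scoped ContDiff Real ComplexConjugate
open Pool.Agent.Lib.Helper82.Mob

namespace Pool.Agent.Lib.Helper82.Ell

lemma clm_eq (L : ℂ →L[ℝ] ℂ) (a : ℂ) :
    L a = (1 / 2) * (L 1 - I * L I) * a + (1 / 2) * (L 1 + I * L I) * conj a := by
  have h1 : a = a.re • (1 : ℂ) + a.im • I := by
    apply Complex.ext <;> simp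
  have h2 : L a = (a.re : ℂ) * L 1 + (a.im : ℂ) * L I := by
    conv_lhs => rw [h1]
    rw [map_add, map_smul, map_smul, Complex.real_smul, Complex.real_smul]
  have h3 : a = (a.re : ℂ) + (a.im : ℂ) * I := (Complex.re_add_im a).symm
  have h4 : conj a = (a.re : ℂ) - (a.im : ℂ) * I := by
    conv_lhs => rw [h3]
    rw [map_add, map_mul, Complex.conj_ofReal, Complex.conj_ofReal, Complex.conj_I]; ring
  rw [h2, h4]
  conv_rhs => rw [show (a : ℂ) = (a.re : ℂ) + (a.im : ℂ) * I from h3]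
  simp only [Complex.add_re, Complex.ofReal_re, Complex.mul_re, Complex.I_re, mul_zero,
    Complex.ofReal_im, Complex.I_im, mul_one, sub_self, add_zero, Complex.add_im, Complex.mul_im,
    zero_add]
  linear_combination ((a.im : ℂ) * L I) * I_mul_I

lemma fderiv_eq_dz (f : ℂ → ℂ) (z a : ℂ) :
    fderiv ℝ f z a = dz f z * a + dzb f z * conj a := clm_eq _ a

lemma dz_comp {v P : ℂ → ℂ} {s p' : ℂ} (hv : DifferentiableAt ℝ v (P s)) (hP : HasDerivAt P p' s) :
    dz (fun w => v (P w)) s = dz v (P s) * p' := by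
  have h1 : HasFDerivAt P ((ContinuousLinearMap.toSpanSingleton ℂ p').restrictScalars ℝ) s :=
    hP.hasFDerivAt.restrictScalars ℝ
  have h2 := hv.hasFDerivAt.comp s h1
  have h3 : fderiv ℝ (fun w => v (P w)) s = _ := h2.fderiv
  rw [dz, h3]
  simp only [ContinuousLinearMap.comp_apply, ContinuousLinearMap.coe_restrictScalars',
    ContinuousLinearMap.toSpanSingleton_apply, smul_eq_mul]
  rw [fderiv_eq_dz, fderiv_eq_dz]
  simp only [map_mul, Complex.conj_I, one_mul]
  linear_combination ((-1 / 2) * dz v (P s) * p' + (1 / 2) * dzb v (P s) * conj p') * I_mul_I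

lemma dzb_comp {v P : ℂ → ℂ} {s p' : ℂ} (hv : DifferentiableAt ℝ v (P s)) (hP : HasDerivAt P p' s) :
    dzb (fun w => v (P w)) s = dzb v (P s) * conj p' := by
  have h1 : HasFDerivAt P ((ContinuousLinearMap.toSpanSingleton ℂ p').restrictScalars ℝ) s :=
    hP.hasFDerivAt.restrictScalars ℝ
  have h2 := hv.hasFDerivAt.comp s h1
  have h3 : fderiv ℝ (fun w => v (P w)) s = _ := h2.fderiv
  rw [dzb, h3]
  simp only [ContinuousLinearMap.comp_apply, ContinuousLinearMap.coe_restrictScalars',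
    ContinuousLinearMap.toSpanSingleton_apply, smul_eq_mul]
  rw [fderiv_eq_dz, fderiv_eq_dz]
  simp only [map_mul, Complex.conj_I, one_mul]
  linear_combination ((1 / 2) * dz v (P s) * p' - (1 / 2) * dzb v (P s) * conj p') * I_mul_I

/-- `∂ log ‖f‖² = f'/f` for holomorphic `f`. -/
lemma dz_log_normSq {f : ℂ → ℂ} {f' s : ℂ} (hf : HasDerivAt f f' s) (h0 : f s ≠ 0) :
    DifferentiableAt ℝ (fun w => ((Real.log (‖f w‖ ^ 2) : ℝ) : ℂ)) s ∧
    dz (fun w => ((Real.log (‖f w‖ ^ 2) : ℝ) : ℂ)) s = f' / f s := by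
  have h1 : HasFDerivAt (fun w : ℂ => Real.log ‖w‖) (reM (f s)⁻¹) (f s) := hasFDerivAt_log_norm h0
  have h2 : HasFDerivAt (fun w : ℂ => ((Real.log ‖w‖ : ℝ) : ℂ)) (Complex.ofRealCLM.comp (reM (f s)⁻¹))
      (f s) := Complex.ofRealCLM.hasFDerivAt.comp _ h1
  have h3 : (fun w => ((Real.log (‖f w‖ ^ 2) : ℝ) : ℂ))
      = fun w => (2 : ℂ) * (fun t : ℂ => ((Real.log ‖t‖ : ℝ) : ℂ)) (f w) := by
    funext w
    simp only [Real.log_pow]
    push_cast; ring
  have h4 : DifferentiableAt ℝ (fun w => (fun t : ℂ => ((Real.log ‖t‖ : ℝ) : ℂ)) (f w)) s :=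
    h2.differentiableAt.comp s (hf.differentiableAt.restrictScalars ℝ)
  rw [h3]
  refine ⟨(differentiableAt_const _).mul h4, ?_⟩
  rw [dz_mul (differentiableAt_const _) h4, dz_comp h2.differentiableAt hf, dz_of_reM h1]
  have h5 : dz (fun _ : ℂ => (2 : ℂ)) s = 0 := by simp [dz]
  rw [h5]
  ring

end Pool.Agent.Lib.Helper82.Ell
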