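import Pool.Agent.Lib.Helper82.Ell.Int

/-!
# The currents
-/

set_option autoImplicit false

open MeasureTheory Complex Set Topology Filter
open scoped ContDiff ComplexConjugate

namespace Pool.Agent.Lib.Helper82.Ell

/-- A lattice periodic function on `ℂ` as a function on `E`. -/
noncomputable def onE (R : ℂ → ℝ) (e : EE) : ℝ := R (Quotient.out e)

lemma onE_prE {R : ℂ → ℝ} (hR : ∀ l ∈ Gau, ∀ s, R (s + l) = R s) (s : ℂ) : onE R (prE s) = R s := by
  have h1 : prE (Quotient.out (prE s)) = prE s := Quotient.out_eq _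
  have h2 := prE_eq_iff.mp h1.symm
  have h3 := hR _ h2 s
  rw [onE, ← h3]
  congr 1; ring

/-- The coefficients of `ω_c = i/2 (dz + c ds) ∧ conj (dz + c ds) + i R ds ∧ ds̄`. -/
noncomputable def gc (R : ℂ → ℝ) (c : ℝ) : Coef :=
  ![![fun _ => 1 / 2, fun _ => (c : ℂ) / 2],
    ![fun _ => (c : ℂ) / 2, fun p => (c : ℂ) ^ 2 / 2 + (onE R (Phi p) : ℂ)]]

variable {R : ℂ → ℝ} {c : ℝ}

lemma gc00 (p : XX) : gc R c 0 0 p = 1 / 2 := rfl
lemma gc01 (p : XX) : gc R c 0 1 p = (c : ℂ) / 2 := rfl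
lemma gc10 (p : XX) : gc R c 1 0 p = (c : ℂ) / 2 := rfl
lemma gc11 (p : XX) : gc R c 1 1 p = (c : ℂ) ^ 2 / 2 + (onE R (Phi p) : ℂ) := rfl

lemma gc11' (hR : ∀ l ∈ Gau, ∀ s, R (s + l) = R s) (x : C2) :
    gc R c 1 1 (pr x) = (c : ℂ) ^ 2 / 2 + (R (x 1) : ℂ) := by
  rw [gc11, Phi_pr, onE_prE hR]

/-- the integrand -/
noncomputable def integ (R : ℂ → ℝ) (c : ℝ) (ψ : Coef) (x : C2) : ℂ :=
  2 * ψ 1 1 (pr x) + (2 * (c : ℂ) ^ 2) * ψ 0 0 (pr x) + 4 * (R (x 1) : ℂ) * ψ 0 0 (pr x)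
    - (2 * c) * ψ 1 0 (pr x) - (2 * c) * ψ 0 1 (pr x)

lemma wedge_eq (hR : ∀ l ∈ Gau, ∀ s, R (s + l) = R s) (ψ : Coef) :
    wedge (gc R c) ψ = ∫ x in Q2, integ R c ψ x := by
  unfold wedge
  congr 1
  funext x
  rw [gc00, gc01, gc10, gc11' hR, integ]
  ring

lemma cont_coef (ψ : Form11) (j k : Fin 2) : Continuous fun x : C2 => ψ.1 j k (pr x) :=
  (ψ.2 j k).continuous

lemma integrable_integ (hRi : IntegrableOn R Q1) (ψ : Form11) :
    IntegrableOn (integ R c ψ.1) Q2 := by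
  have h1 : IntegrableOn (fun s => (4 * (R s : ℂ))) Q1 := (hRi.ofReal (𝕜 := ℂ)).const_mul 4
  have i1 : IntegrableOn (fun x : C2 => 2 * ψ.1 1 1 (pr x)) Q2 :=
    (integrableOn_cont (cont_coef ψ 1 1)).const_mul _
  have i2 : IntegrableOn (fun x : C2 => (2 * (c : ℂ) ^ 2) * ψ.1 0 0 (pr x)) Q2 :=
    (integrableOn_cont (cont_coef ψ 0 0)).const_mul _
  have i3 : IntegrableOn (fun x : C2 => 4 * (R (x 1) : ℂ) * ψ.1 0 0 (pr x)) Q2 :=
    integrableOn_mul_base h1 (cont_coef ψ 0 0)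
  have i4 : IntegrableOn (fun x : C2 => (2 * (c : ℂ)) * ψ.1 1 0 (pr x)) Q2 :=
    (integrableOn_cont (cont_coef ψ 1 0)).const_mul _
  have i5 : IntegrableOn (fun x : C2 => (2 * (c : ℂ)) * ψ.1 0 1 (pr x)) Q2 :=
    (integrableOn_cont (cont_coef ψ 0 1)).const_mul _
  exact (((i1.add i2).add i3).sub i4).sub i5

/-- The current `ω_c`. -/
noncomputable def TT (R : ℂ → ℝ) (c : ℝ) (ψ : Form11) : ℂ := ∫ x in Q2, integ R c ψ.1 x

lemma TT_apply (ψ : Form11) : TT R c ψ = ∫ x in Q2, integ R c ψ.1 x := rfl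

lemma TT_linear (hRi : IntegrableOn R Q1) (a b : ℂ) (ψ φ χ : Form11)
    (h : ∀ j k x, χ.coef j k x = a * ψ.coef j k x + b * φ.coef j k x) :
    TT R c χ = a * TT R c ψ + b * TT R c φ := by
  rw [TT_apply, TT_apply, TT_apply, ← integral_const_mul, ← integral_const_mul,
    ← integral_add ((integrable_integ hRi ψ).const_mul a) ((integrable_integ hRi φ).const_mul b)]
  congr 1
  funext x
  simp only [integ, h]
  ring

lemma TT_eq_wedge (hR : ∀ l ∈ Gau, ∀ s, R (s + l) = R s) (ψ : Form11) :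
    TT R c ψ = wedge (gc R c) ψ.1 := by
  rw [TT_apply, wedge_eq hR]

lemma periodic_X (u : XX → ℂ) : ∀ l ∈ Gau2, ∀ x, u (pr (x + l)) = u (pr x) := by
  intro l hl x
  congr 1
  rw [pr_eq_iff]
  have : x - (x + l) = -l := by abel
  rw [this]
  exact Gau2.neg_mem hl

lemma smooth_one {u : XX → ℂ} (hu : SmoothX u) : ContDiff ℝ 1 (fun x => u (pr x)) :=
  ContDiff.of_le hu (by exact_mod_cast le_top)

lemma int_k_ddb0 {k : ℂ → ℂ} (hk : IntegrableOn k Q1) {u : XX → ℂ} (hu : SmoothX u) :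
    ∫ x in Q2, k (x 1) * ddb 0 (fun y => u (pr y)) x = 0 := by
  have hu1 := smooth_one hu
  have e1 : ∀ x : C2, k (x 1) * ddb 0 (fun y => u (pr y)) x
      = (1 / 2) * (k (x 1) * fderiv ℝ (fun y => u (pr y)) x (Pi.single 0 1))
        + (I / 2) * (k (x 1) * fderiv ℝ (fun y => u (pr y)) x (Pi.single 0 I)) := by
    intro x; simp only [ddb, dirD]; ring
  simp only [e1]
  rw [integral_add ((integrableOn_mul_base hk (cont_fderiv_single hu1 _)).const_mul _)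
    ((integrableOn_mul_base hk (cont_fderiv_single hu1 _)).const_mul _), integral_const_mul,
    integral_const_mul, int_base_fderiv0 hk hu1 (periodic_X u) (Or.inl rfl),
    int_base_fderiv0 hk hu1 (periodic_X u) (Or.inr rfl)]
  simp

lemma int_k_dd0 {k : ℂ → ℂ} (hk : IntegrableOn k Q1) {u : XX → ℂ} (hu : SmoothX u) :
    ∫ x in Q2, k (x 1) * dd 0 (fun y => u (pr y)) x = 0 := by
  have hu1 := smooth_one hu
  have e1 : ∀ x : C2, k (x 1) * dd 0 (fun y => u (pr y)) x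
      = (1 / 2) * (k (x 1) * fderiv ℝ (fun y => u (pr y)) x (Pi.single 0 1))
        + (-I / 2) * (k (x 1) * fderiv ℝ (fun y => u (pr y)) x (Pi.single 0 I)) := by
    intro x; simp only [dd, dirD]; ring
  simp only [e1]
  rw [integral_add ((integrableOn_mul_base hk (cont_fderiv_single hu1 _)).const_mul _)
    ((integrableOn_mul_base hk (cont_fderiv_single hu1 _)).const_mul _), integral_const_mul,
    integral_const_mul, int_base_fderiv0 hk hu1 (periodic_X u) (Or.inl rfl),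
    int_base_fderiv0 hk hu1 (periodic_X u) (Or.inr rfl)]
  simp

lemma int_ddb1 {u : XX → ℂ} (hu : SmoothX u) :
    ∫ x in Q2, ddb 1 (fun y => u (pr y)) x = 0 := by
  have hu1 := smooth_one hu
  have e1 : ∀ x : C2, ddb 1 (fun y => u (pr y)) x
      = (1 / 2) * (fderiv ℝ (fun y => u (pr y)) x (Pi.single 1 1))
        + (I / 2) * (fderiv ℝ (fun y => u (pr y)) x (Pi.single 1 I)) := by
    intro x; simp only [ddb, dirD]; ring
  simp only [e1]
  rw [integral_add ((integrableOn_cont (cont_fderiv_single hu1 _)).const_mul _)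
    ((integrableOn_cont (cont_fderiv_single hu1 _)).const_mul _), integral_const_mul,
    integral_const_mul, int_fderiv1 hu1 (periodic_X u) (Or.inl rfl),
    int_fderiv1 hu1 (periodic_X u) (Or.inr rfl)]
  simp

lemma int_dd1 {u : XX → ℂ} (hu : SmoothX u) :
    ∫ x in Q2, dd 1 (fun y => u (pr y)) x = 0 := by
  have hu1 := smooth_one hu
  have e1 : ∀ x : C2, dd 1 (fun y => u (pr y)) x
      = (1 / 2) * (fderiv ℝ (fun y => u (pr y)) x (Pi.single 1 1))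
        + (-I / 2) * (fderiv ℝ (fun y => u (pr y)) x (Pi.single 1 I)) := by
    intro x; simp only [dd, dirD]; ring
  simp only [e1]
  rw [integral_add ((integrableOn_cont (cont_fderiv_single hu1 _)).const_mul _)
    ((integrableOn_cont (cont_fderiv_single hu1 _)).const_mul _), integral_const_mul,
    integral_const_mul, int_fderiv1 hu1 (periodic_X u) (Or.inl rfl),
    int_fderiv1 hu1 (periodic_X u) (Or.inr rfl)]
  simp

lemma cont_dd {u : XX → ℂ} (hu : SmoothX u) (j : Fin 2) : Continuous (dd j (fun y => u (pr y))) := by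
  have hu1 := smooth_one hu
  unfold dd dirD
  exact continuous_const.mul ((cont_fderiv_single hu1 _).sub
    (continuous_const.mul (cont_fderiv_single hu1 _)))

lemma cont_ddb {u : XX → ℂ} (hu : SmoothX u) (j : Fin 2) : Continuous (ddb j (fun y => u (pr y))) := by
  have hu1 := smooth_one hu
  unfold ddb dirD
  exact continuous_const.mul ((cont_fderiv_single hu1 _).add
    (continuous_const.mul (cont_fderiv_single hu1 _)))

lemma int4 {f₁ f₂ f₃ f₄ : C2 → ℂ} (h₁ : IntegrableOn f₁ Q2) (h₂ : IntegrableOn f₂ Q2)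
    (h₃ : IntegrableOn f₃ Q2) (h₄ : IntegrableOn f₄ Q2) (z₁ : ∫ x in Q2, f₁ x = 0)
    (z₂ : ∫ x in Q2, f₂ x = 0) (z₃ : ∫ x in Q2, f₃ x = 0) (z₄ : ∫ x in Q2, f₄ x = 0) :
    ∫ x in Q2, (f₁ x + f₂ x - f₃ x - f₄ x) = 0 := by
  have e : ∫ x in Q2, (f₁ x + f₂ x - f₃ x - f₄ x) = ∫ x in Q2, (((f₁ + f₂) - f₃) - f₄) x := rfl
  rw [e, integral_sub' ((h₁.add h₂).sub h₃) h₄, integral_sub' (h₁.add h₂) h₃,
    integral_add' h₁ h₂, z₁, z₂, z₃, z₄]
  simp

lemma TT_closed_dbar (hRi : IntegrableOn R Q1) (b : Fin 2 → XX → ℂ) (hb : ∀ j, SmoothX (b j))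
    (ψ : Form11) (h : ∀ j k x, ψ.1 j k (pr x) = ddb k (fun y => b j (pr y)) x) :
    TT R c ψ = 0 := by
  rw [TT_apply]
  have hk : IntegrableOn (fun s => (2 * (c : ℂ) ^ 2 + 4 * (R s : ℂ))) Q1 :=
    (integrableOn_Q1 (E := ℂ) continuous_const).add ((hRi.ofReal (𝕜 := ℂ)).const_mul 4)
  have hk2 : IntegrableOn (fun _ : ℂ => (2 * (c : ℂ))) Q1 := integrableOn_Q1 continuous_const
  have e1 : ∀ x, integ R c ψ.1 x = 2 * ddb 1 (fun y => b 1 (pr y)) x
      + (2 * (c : ℂ) ^ 2 + 4 * (R (x 1) : ℂ)) * ddb 0 (fun y => b 0 (pr y)) x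
      - (2 * (c : ℂ)) * ddb 0 (fun y => b 1 (pr y)) x
      - (2 * (c : ℂ)) * ddb 1 (fun y => b 0 (pr y)) x := by
    intro x
    simp only [integ, h]
    ring
  simp only [e1]
  have i1 : IntegrableOn (fun x => 2 * ddb 1 (fun y => b 1 (pr y)) x) Q2 :=
    (integrableOn_cont (cont_ddb (hb 1) 1)).const_mul _
  have i2 : IntegrableOn (fun x => (2 * (c : ℂ) ^ 2 + 4 * (R (x 1) : ℂ)) * ddb 0 (fun y => b 0 (pr y)) x) Q2 :=
    integrableOn_mul_base hk (cont_ddb (hb 0) 0)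
  have i3 : IntegrableOn (fun x => (2 * (c : ℂ)) * ddb 0 (fun y => b 1 (pr y)) x) Q2 :=
    (integrableOn_cont (cont_ddb (hb 1) 0)).const_mul _
  have i4 : IntegrableOn (fun x => (2 * (c : ℂ)) * ddb 1 (fun y => b 0 (pr y)) x) Q2 :=
    (integrableOn_cont (cont_ddb (hb 0) 1)).const_mul _
  exact int4 i1 i2 i3 i4 (by rw [integral_const_mul, int_ddb1 (hb 1), mul_zero])
    (int_k_ddb0 hk (hb 0)) (int_k_ddb0 hk2 (hb 1))
    (by rw [integral_const_mul, int_ddb1 (hb 0), mul_zero])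

lemma TT_closed_d (hRi : IntegrableOn R Q1) (b : Fin 2 → XX → ℂ) (hb : ∀ j, SmoothX (b j))
    (ψ : Form11) (h : ∀ j k x, ψ.1 j k (pr x) = dd j (fun y => b k (pr y)) x) :
    TT R c ψ = 0 := by
  rw [TT_apply]
  have hk : IntegrableOn (fun s => (2 * (c : ℂ) ^ 2 + 4 * (R s : ℂ))) Q1 :=
    (integrableOn_Q1 (E := ℂ) continuous_const).add ((hRi.ofReal (𝕜 := ℂ)).const_mul 4)
  have hk2 : IntegrableOn (fun _ : ℂ => (2 * (c : ℂ))) Q1 := integrableOn_Q1 continuous_const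
  have e1 : ∀ x, integ R c ψ.1 x = 2 * dd 1 (fun y => b 1 (pr y)) x
      + (2 * (c : ℂ) ^ 2 + 4 * (R (x 1) : ℂ)) * dd 0 (fun y => b 0 (pr y)) x
      - (2 * (c : ℂ)) * dd 1 (fun y => b 0 (pr y)) x
      - (2 * (c : ℂ)) * dd 0 (fun y => b 1 (pr y)) x := by
    intro x
    simp only [integ, h]
    ring
  simp only [e1]
  have i1 : IntegrableOn (fun x => 2 * dd 1 (fun y => b 1 (pr y)) x) Q2 :=
    (integrableOn_cont (cont_dd (hb 1) 1)).const_mul _
  have i2 : IntegrableOn (fun x => (2 * (c : ℂ) ^ 2 + 4 * (R (x 1) : ℂ)) * dd 0 (fun y => b 0 (pr y)) x) Q2 :=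
    integrableOn_mul_base hk (cont_dd (hb 0) 0)
  have i3 : IntegrableOn (fun x => (2 * (c : ℂ)) * dd 1 (fun y => b 0 (pr y)) x) Q2 :=
    (integrableOn_cont (cont_dd (hb 0) 1)).const_mul _
  have i4 : IntegrableOn (fun x => (2 * (c : ℂ)) * dd 0 (fun y => b 1 (pr y)) x) Q2 :=
    (integrableOn_cont (cont_dd (hb 1) 0)).const_mul _
  exact int4 i1 i2 i3 i4 (by rw [integral_const_mul, int_dd1 (hb 1), mul_zero])
    (int_k_dd0 hk (hb 0)) (by rw [integral_const_mul, int_dd1 (hb 0), mul_zero])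
    (int_k_dd0 hk2 (hb 1))

lemma TT_bound (hRi : IntegrableOn R Q1) (hR0 : ∀ s, 0 ≤ R s) :
    ∃ C : ℝ, ∀ (ψ : Form11) (M : ℝ), (∀ j k x, ‖ψ.1 j k x‖ ≤ M) → ‖TT R c ψ‖ ≤ C * M := by
  refine ⟨∫ x in Q2, (2 + 2 * c ^ 2 + 4 * |c| + 4 * R (x 1)), fun ψ M hM => ?_⟩
  rw [TT_apply, ← integral_mul_const]
  have hi : IntegrableOn (fun x : C2 => (2 + 2 * c ^ 2 + 4 * |c| + 4 * R (x 1))) Q2 :=
    integrableOn_base (k := fun s => (2 + 2 * c ^ 2 + 4 * |c| + 4 * R s))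
      ((integrableOn_Q1 continuous_const).add (hRi.const_mul 4))
  apply norm_integral_le_of_norm_le (hi.mul_const M)
  refine Eventually.of_forall fun x => ?_
  have h0 := hR0 (x 1)
  have m11 : ‖2 * ψ.1 1 1 (pr x)‖ ≤ 2 * M := by
    rw [norm_mul, Complex.norm_ofNat]; gcongr; exact hM _ _ _
  have m00 : ‖(2 * (c : ℂ) ^ 2) * ψ.1 0 0 (pr x)‖ ≤ (2 * c ^ 2) * M := by
    rw [norm_mul]
    have : ‖(2 * (c : ℂ) ^ 2)‖ = 2 * c ^ 2 := by
      rw [norm_mul, norm_pow, Complex.norm_ofNat, Complex.norm_real, Real.norm_eq_abs, sq_abs]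
    rw [this]; gcongr; exact hM _ _ _
  have m00' : ‖4 * (R (x 1) : ℂ) * ψ.1 0 0 (pr x)‖ ≤ (4 * R (x 1)) * M := by
    rw [norm_mul]
    have : ‖4 * (R (x 1) : ℂ)‖ = 4 * R (x 1) := by
      rw [norm_mul, Complex.norm_ofNat, Complex.norm_real, Real.norm_of_nonneg h0]
    rw [this]; gcongr; exact hM _ _ _
  have hc2 : ‖(2 * (c : ℂ))‖ = 2 * |c| := by
    rw [norm_mul, Complex.norm_ofNat, Complex.norm_real, Real.norm_eq_abs]
  have m10 : ‖(2 * (c : ℂ)) * ψ.1 1 0 (pr x)‖ ≤ (2 * |c|) * M := by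
    rw [norm_mul, hc2]; gcongr; exact hM _ _ _
  have m01 : ‖(2 * (c : ℂ)) * ψ.1 0 1 (pr x)‖ ≤ (2 * |c|) * M := by
    rw [norm_mul, hc2]; gcongr; exact hM _ _ _
  unfold integ
  refine (norm_sub_le _ _).trans ?_
  refine (add_le_add_left (norm_sub_le _ _) _).trans ?_
  refine (add_le_add_left (add_le_add_left (norm_add_le _ _) _) _).trans ?_
  refine (add_le_add_left (add_le_add_left (add_le_add_left (norm_add_le _ _) _) _) _).trans ?_
  linarith

lemma herm_eq (m : Fin 2 → Fin 2 → ℂ) (v : Fin 2 → ℂ) :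
    herm m v = m 0 0 * v 0 * conj (v 0) + m 0 1 * v 0 * conj (v 1)
      + m 1 0 * v 1 * conj (v 0) + m 1 1 * v 1 * conj (v 1) := by
  simp only [herm, Fin.sum_univ_two]; ring

lemma TT_pos (hR0 : ∀ s, 0 ≤ R s) (ψ : Form11) (hψ : NonnegForm ψ.1) :
    ∃ r : ℝ, 0 ≤ r ∧ TT R c ψ = r := by
  have h1 : ∀ x, ∃ r : ℝ, 0 ≤ r ∧ integ R c ψ.1 x = r := by
    intro x
    obtain ⟨r₁, hr₁, e₁⟩ := hψ (pr x) ![-(c : ℂ), 1]
    obtain ⟨r₂, hr₂, e₂⟩ := hψ (pr x) ![1, 0]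
    have h0 := hR0 (x 1)
    refine ⟨2 * r₁ + 4 * R (x 1) * r₂, by positivity, ?_⟩
    rw [herm_eq] at e₁ e₂
    simp only [Matrix.cons_val_zero, Matrix.cons_val_one, Matrix.cons_val_fin_one, map_neg,
      map_one, map_zero, Complex.conj_ofReal, mul_one, mul_zero, add_zero] at e₁ e₂
    push_cast
    rw [← e₁, ← e₂, integ]
    ring
  choose r hr0 hr using h1
  refine ⟨∫ x in Q2, r x, integral_nonneg hr0, ?_⟩
  rw [TT_apply]
  simp only [hr]
  exact integral_ofReal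

theorem TT_closedPositive (hRi : IntegrableOn R Q1) (hR0 : ∀ s, 0 ≤ R s) :
    IsClosedPositiveCurrent (TT R c) where
  linear := TT_linear hRi
  bound := TT_bound hRi hR0
  closed_dbar := TT_closed_dbar hRi
  closed_d := TT_closed_d hRi
  pos := TT_pos hR0

end Pool.Agent.Lib.Helper82.Ell
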