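import Mathlib

/-!
# Semi-flat cscK currents on the elliptic surface `E × E → E`, `E = ℂ/ℤ[i]`

The compact complex surface is the honest quotient `X = ℂ²/ℤ[i]²`, the base is the honest quotient
`E = ℂ/ℤ[i]`, and `Φ : X → E` is induced by `(z, s) ↦ s`.  Every fibre of `Φ` is a smooth elliptic
curve, so `Φ` is a minimal elliptic surface.
-/

set_option autoImplicit false

open MeasureTheory Complex Set Topology Filter
open scoped ContDiff ComplexConjugate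

namespace Pool.Agent.Lib.Helper82.Ell

/-- `ℂ²`, with coordinates `x 0 = z` (along the fibres) and `x 1 = s` (on the base). -/
abbrev C2 : Type := Fin 2 → ℂ

/-- The lattice `ℤ[i]` in `ℂ`. -/
def Gau : AddSubgroup ℂ where
  carrier := {z | ∃ m n : ℤ, z = m + n * I}
  zero_mem' := ⟨0, 0, by simp⟩
  add_mem' := by
    rintro _ _ ⟨m, n, rfl⟩ ⟨m', n', rfl⟩
    exact ⟨m + m', n + n', by push_cast; ring⟩
  neg_mem' := by
    rintro _ ⟨m, n, rfl⟩
    exact ⟨-m, -n, by push_cast; ring⟩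

/-- The lattice `ℤ[i]²` in `ℂ²`. -/
def Gau2 : AddSubgroup C2 where
  carrier := {x | ∀ j, x j ∈ Gau}
  zero_mem' := fun _ => Gau.zero_mem
  add_mem' := fun ha hb j => Gau.add_mem (ha j) (hb j)
  neg_mem' := fun ha j => Gau.neg_mem (ha j)

/-- The elliptic curve `E = ℂ/ℤ[i]`, the base of the fibration. -/
abbrev EE : Type := ℂ ⧸ Gau

/-- The compact complex surface `X = ℂ²/ℤ[i]²`. -/
abbrev XX : Type := C2 ⧸ Gau2

/-- The universal covering `ℂ → E`. -/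
def prE (s : ℂ) : EE := QuotientAddGroup.mk s

/-- The universal covering `ℂ² → X`. -/
def pr (x : C2) : XX := QuotientAddGroup.mk x

/-- The elliptic fibration `Φ : X → E`, `Φ [z, s] = [s]`. -/
def Phi : XX → EE :=
  QuotientAddGroup.map Gau2 Gau (Pi.evalAddMonoidHom (fun _ => ℂ) 1) (fun _ hx => hx 1)

lemma Phi_pr (x : C2) : Phi (pr x) = prE (x 1) := rfl

/-- The derivative of `f` at `x` in the (real) direction `v`. -/
noncomputable def dirD (f : C2 → ℂ) (x v : C2) : ℂ := fderiv ℝ f x v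

/-- The operator `∂/∂z_j = (∂/∂x_j - i ∂/∂y_j)/2` on `ℂ²`. -/
noncomputable def dd (j : Fin 2) (f : C2 → ℂ) (x : C2) : ℂ :=
  (1 / 2) * (dirD f x (Pi.single j 1) - I * dirD f x (Pi.single j I))

/-- The operator `∂/∂z̄_j = (∂/∂x_j + i ∂/∂y_j)/2` on `ℂ²`. -/
noncomputable def ddb (j : Fin 2) (f : C2 → ℂ) (x : C2) : ℂ :=
  (1 / 2) * (dirD f x (Pi.single j 1) + I * dirD f x (Pi.single j I))

/-- The unit cell of `ℤ[i]` in `ℂ`. -/
def Q1 : Set ℂ := {z | z.re ∈ Ioc (0 : ℝ) 1 ∧ z.im ∈ Ioc (0 : ℝ) 1}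

/-- The unit cell of `ℤ[i]²` in `ℂ²`. -/
def Q2 : Set C2 := {x | ∀ j, x j ∈ Q1}

/-- Smooth complex valued functions on `X`. -/
def SmoothX (u : XX → ℂ) : Prop := ContDiff ℝ ∞ (fun x : C2 => u (pr x))

/-- Coefficients of a form `i ∑ ψ_{jk} dz_j ∧ dz̄_k` on `X`. -/
abbrev Coef : Type := Fin 2 → Fin 2 → XX → ℂ

/-- Smooth `(1,1)`-forms `ψ = i ∑ ψ_{jk} dz_j ∧ dz̄_k` on `X`. -/
structure Form11 where
  /-- the coefficients `ψ_{jk}` -/
  coef : Coef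
  /-- smoothness -/
  smooth : ∀ j k, SmoothX (coef j k)

/-- The Hermitian form of a matrix `m`, `∑ m_{jk} v_j v̄_k`. -/
noncomputable def herm (m : Fin 2 → Fin 2 → ℂ) (v : Fin 2 → ℂ) : ℂ :=
  ∑ j, ∑ k, m j k * v j * conj (v k)

/-- `ψ` is a nonnegative `(1,1)`-form. -/
def NonnegForm (ψ : Coef) : Prop :=
  ∀ x v, ∃ r : ℝ, 0 ≤ r ∧ herm (fun j k => ψ j k x) v = r

/-- Closed positive `(1,1)`-currents on the compact surface `X`: continuous linear functionals on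
the space of smooth `(1,1)`-forms which vanish on the `(1,1)`-parts of the differentials of smooth
`1`-forms (that is, on `∂̄ (∑ b_j dz_j)` and on `∂ (∑ b_k dz̄_k)`) and which are nonnegative on
nonnegative forms. -/
structure IsClosedPositiveCurrent (T : Form11 → ℂ) : Prop where
  /-- linearity -/
  linear : ∀ (a b : ℂ) (ψ φ χ : Form11),
    (∀ j k x, χ.coef j k x = a * ψ.coef j k x + b * φ.coef j k x) → T χ = a * T ψ + b * T φ
  /-- continuity, even for the supremum norm of the coefficients -/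
  bound : ∃ C : ℝ, ∀ (ψ : Form11) (M : ℝ), (∀ j k x, ‖ψ.coef j k x‖ ≤ M) → ‖T ψ‖ ≤ C * M
  /-- `T (∂̄ (∑ b_j dz_j)) = 0` -/
  closed_dbar : ∀ b : Fin 2 → XX → ℂ, (∀ j, SmoothX (b j)) → ∀ ψ : Form11,
    (∀ j k x, ψ.coef j k (pr x) = ddb k (fun y => b j (pr y)) x) → T ψ = 0
  /-- `T (∂ (∑ b_k dz̄_k)) = 0` -/
  closed_d : ∀ b : Fin 2 → XX → ℂ, (∀ j, SmoothX (b j)) → ∀ ψ : Form11,
    (∀ j k x, ψ.coef j k (pr x) = dd j (fun y => b k (pr y)) x) → T ψ = 0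
  /-- positivity -/
  pos : ∀ ψ : Form11, NonnegForm ψ.coef → ∃ r : ℝ, 0 ≤ r ∧ T ψ = r

/-- The integral `∫_X ω ∧ ψ` of `ω = i ∑ g_{jk} dz_j ∧ dz̄_k` and `ψ = i ∑ ψ_{jk} dz_j ∧ dz̄_k`. -/
noncomputable def wedge (g ψ : Coef) : ℂ :=
  ∫ x in Q2, 4 * (g 0 0 (pr x) * ψ 1 1 (pr x) + g 1 1 (pr x) * ψ 0 0 (pr x)
    - g 0 1 (pr x) * ψ 1 0 (pr x) - g 1 0 (pr x) * ψ 0 1 (pr x))

/-- The coefficient matrix of `ω = i ∑ g_{jk} dz_j ∧ dz̄_k` at a point. -/
def mat (g : Coef) (p : XX) : Matrix (Fin 2) (Fin 2) ℂ := Matrix.of fun j k => g j k p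

/-- The preimage of `X ∖ Φ⁻¹(P)` in `ℂ²`. -/
def Off (P : Set EE) : Set C2 := {x | Phi (pr x) ∉ P}

/-- The Ricci form `-i ∂∂̄ log det g = i ∑ R_{jk} dz_j ∧ dz̄_k` of a Kähler metric. -/
noncomputable def ric (g : Coef) (j k : Fin 2) (x : C2) : ℂ :=
  - ddb k (dd j (fun y => ((Real.log (mat g (pr y)).det.re : ℝ) : ℂ))) x

/-- The scalar curvature `2 g^{k̄j} R_{jk̄}` of a Kähler metric. -/
noncomputable def scal (g : Coef) (x : C2) : ℂ :=
  2 * ∑ j, ∑ k, (mat g (pr x))⁻¹ k j * ric g j k x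

/-- `ω = i ∑ g_{jk} dz_j ∧ dz̄_k` is a semi-flat cscK metric on `X ∖ Φ⁻¹(P)` with scalar curvature
`σ` and fibre volume `V`. -/
structure IsSemiflatCscKMetric (P : Set EE) (σ V : ℝ) (g : Coef) : Prop where
  /-- the coefficients are smooth on `X ∖ Φ⁻¹(P)` -/
  smooth : ∀ j k, ContDiffOn ℝ ∞ (fun x => g j k (pr x)) (Off P)
  /-- positive definiteness -/
  posdef : ∀ x ∈ Off P, ∀ v : Fin 2 → ℂ, v ≠ 0 →
    ∃ r : ℝ, 0 < r ∧ herm (fun j k => g j k (pr x)) v = r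
  /-- `∂ω = 0` (and hence `dω = 0`) -/
  kahler : ∀ x ∈ Off P, ∀ j k l,
    dd l (fun y => g j k (pr y)) x = dd j (fun y => g l k (pr y)) x
  /-- constant scalar curvature -/
  cscK : ∀ x ∈ Off P, scal g x = σ
  /-- the restriction to every fibre is Ricci-flat -/
  semiflat : ∀ x ∈ Off P, ddb 0 (dd 0 (fun y => ((Real.log (g 0 0 (pr y)).re : ℝ) : ℂ))) x = 0
  /-- the volume of the fibre through `x` -/
  fibre : ∀ x ∈ Off P, ∫ z in Q1, 2 * g 0 0 (pr ![z, x 1]) = V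

/-- `T` is a semi-flat cscK current on `Φ : X → E`, smooth away from the fibres over the finite set
`P`, with scalar curvature `σ` and fibre volume `V`. -/
structure IsSemiflatCscKCurrent (P : Set EE) (σ V : ℝ) (T : Form11 → ℂ) : Prop where
  finite : P.Finite
  current : IsClosedPositiveCurrent T
  /-- the restriction of `T` to `X ∖ Φ⁻¹(P)` is a semi-flat cscK metric -/
  restrict : ∃ g : Coef, IsSemiflatCscKMetric P σ V g ∧
    ∀ ψ : Form11, (∀ j k, Disjoint (tsupport (ψ.coef j k)) (Phi ⁻¹' P)) → T ψ = wedge g ψ.coef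

/-- `F` is a holomorphic lift of the map `f : X → X` near `p`. -/
def LiftAt (f : XX → XX) (F : C2 → C2) (p : C2) : Prop :=
  ∀ᶠ x in 𝓝 p, DifferentiableAt ℂ F x ∧ pr (F x) = f (pr x)

/-- Holomorphic maps `X → X`. -/
def HoloX (f : XX → XX) : Prop := ∀ p : C2, ∃ F : C2 → C2, LiftAt f F p

/-- Holomorphic maps `E → E`. -/
def HoloE (h : EE → EE) : Prop :=
  ∀ p : ℂ, ∃ F : ℂ → ℂ, ∀ᶠ s in 𝓝 p, DifferentiableAt ℂ F s ∧ prE (F s) = h (prE s)

/-- The group `H(X, Φ)`: pairs of automorphisms `f` of `X` and `h` of `E` with `Φ ∘ f = h ∘ Φ`. -/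
structure IsAutPair (f : XX ≃ XX) (h : EE ≃ EE) : Prop where
  holo : HoloX f
  holo_symm : HoloX f.symm
  holoE : HoloE h
  holoE_symm : HoloE h.symm
  comm : ∀ x, Phi (f x) = h (Phi x)

/-- The complex Jacobian `∂F_a/∂z_j` at `p`. -/
noncomputable def jac (F : C2 → C2) (p : C2) (a j : Fin 2) : ℂ := fderiv ℂ F p (Pi.single j 1) a

/-- `φ = f^* ψ`, in terms of the holomorphic lifts `F` of `f`:
`φ_{jk} = ∑ (ψ_{ab} ∘ f) ∂_j F_a conj (∂_k F_b)`. -/
def IsPullback (f : XX → XX) (ψ φ : Form11) : Prop :=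
  ∀ (p : C2) (F : C2 → C2), LiftAt f F p → ∀ j k, φ.coef j k (pr p) =
    ∑ a, ∑ b, ψ.coef a b (f (pr p)) * jac F p a j * conj (jac F p b k)

/-- `f_* T₁ = T₂`, that is `T₁ (f^* ψ) = T₂ ψ` for all `ψ`. -/
def PushEq (f : XX → XX) (T₁ T₂ : Form11 → ℂ) : Prop :=
  ∀ ψ φ : Form11, IsPullback f ψ φ → T₁ φ = T₂ ψ

end Pool.Agent.Lib.Helper82.Ell
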