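import Pool.Agent.Lib.Helper82.Ell.Kern

/-!
# The logarithmic potential and the fixed point
-/

set_option autoImplicit false

open MeasureTheory Complex Set Topology Filter
open scoped BoundedContinuousFunction NNReal

namespace Pool.Agent.Lib.Helper82.Ell

lemma log_one_add_le {y : ℝ} (hy : 0 ≤ y) : Real.log (1 + y) ≤ 5 * y ^ (1 / 5 : ℝ) := by
  by_cases h : y ≤ 1
  · have h1 : Real.log (1 + y) ≤ y := by
      have := Real.log_le_sub_one_of_pos (x := 1 + y) (by linarith); linarith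
    have h2 : y ≤ y ^ (1 / 5 : ℝ) := by
      have := Real.rpow_le_rpow_of_exponent_ge' hy h (by norm_num : (0:ℝ) ≤ 1 / 5) (by norm_num : (1/5:ℝ) ≤ 1)
      rwa [Real.rpow_one] at this
    have h3 : 0 ≤ y ^ (1 / 5 : ℝ) := by positivity
    linarith
  · rw [not_le] at h
    have hy0 : 0 < y := by linarith
    have h1 : Real.log (1 + y) ≤ Real.log (2 * y) := Real.log_le_log (by linarith) (by linarith)
    rw [Real.log_mul (by norm_num) hy0.ne'] at h1
    have h2 : Real.log y ≤ 5 * (y ^ (1 / 5 : ℝ) - 1) := by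
      have h3 := Real.log_le_sub_one_of_pos (x := y ^ (1 / 5 : ℝ)) (by positivity)
      rw [Real.log_rpow hy0] at h3
      linarith
    have h4 : Real.log 2 ≤ 1 := by
      have := Real.log_le_sub_one_of_pos (x := 2) (by norm_num); linarith
    linarith

lemma log_holder_aux {a b : ℝ} (ha : 0 < a) (hab : a ≤ b) :
    |Real.log a - Real.log b| ≤ 5 * |a - b| ^ (1 / 5 : ℝ) * (a ^ (-(1 / 5) : ℝ) + b ^ (-(1 / 5) : ℝ)) := by
  have hb : 0 < b := ha.trans_le hab
  rw [abs_sub_comm, abs_of_nonneg (sub_nonneg.mpr (Real.log_le_log ha hab)), abs_sub_comm,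
    abs_of_nonneg (sub_nonneg.mpr hab), ← Real.log_div hb.ne' ha.ne']
  have e : b / a = 1 + (b - a) / a := by field_simp; ring
  rw [e]
  refine (log_one_add_le (div_nonneg (by linarith) ha.le)).trans ?_
  rw [Real.div_rpow (by linarith) ha.le, Real.rpow_neg ha.le, Real.rpow_neg hb.le, div_eq_mul_inv]
  have h1 : 0 ≤ (b - a) ^ (1 / 5 : ℝ) := Real.rpow_nonneg (by linarith) _
  have h2 : 0 ≤ (b ^ (1 / 5 : ℝ))⁻¹ := by positivity
  nlinarith [mul_nonneg h1 h2]

lemma log_holder {a b : ℝ} (ha : 0 < a) (hb : 0 < b) :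
    |Real.log a - Real.log b| ≤ 5 * |a - b| ^ (1 / 5 : ℝ) * (a ^ (-(1 / 5) : ℝ) + b ^ (-(1 / 5) : ℝ)) := by
  rcases le_total a b with h | h
  · exact log_holder_aux ha h
  · have := log_holder_aux hb h
    rwa [abs_sub_comm, abs_sub_comm b a, add_comm (b ^ (-(1 / 5) : ℝ))] at this

lemma log_kernel_le (z x : ℂ) :
    |Real.log ‖z - x‖| ≤ qq z * qq x + 5 * ‖z - x‖ ^ (-(1 / 5) : ℝ) := by
  have hz := one_le_qq z
  have hx := one_le_qq x
  have hp : 0 ≤ ‖z - x‖ ^ (-(1 / 5) : ℝ) := by positivity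
  by_cases h : z = x
  · subst h; simp only [sub_self, norm_zero, Real.log_zero, abs_zero]
    positivity
  have h0 : 0 < ‖z - x‖ := norm_pos_iff.mpr (sub_ne_zero.mpr h)
  rw [abs_le]
  constructor
  · have h1 : Real.log (‖z - x‖⁻¹) ≤ (‖z - x‖⁻¹) ^ (1 / 5 : ℝ) / (1 / 5 : ℝ) :=
      Real.log_le_rpow_div (by positivity) (by norm_num)
    rw [Real.log_inv, Real.inv_rpow h0.le, ← Real.rpow_neg h0.le] at h1
    have h2 : 0 ≤ qq z * qq x := by positivity
    linarith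
  · have h1 : ‖z - x‖ ^ 2 ≤ (1 + ‖z‖ ^ 2) * (1 + ‖x‖ ^ 2) := by
      have : ‖z - x‖ ≤ ‖z‖ + ‖x‖ := norm_sub_le _ _
      calc ‖z - x‖ ^ 2 ≤ (‖z‖ + ‖x‖) ^ 2 := by gcongr
        _ ≤ _ := by nlinarith [sq_nonneg (‖z‖ * ‖x‖ - 1)]
    have h2 := Real.log_le_log (by positivity) h1
    rw [Real.log_pow, Real.log_mul (by positivity) (by positivity)] at h2
    have h3 : (qq z - 1) + (qq x - 1) ≤ qq z * qq x := by nlinarith
    have h4 : Real.log ‖z - x‖ ≤ (qq z - 1) + (qq x - 1) := by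
      unfold qq; push_cast at h2; linarith
    linarith

variable {c₁ c₂ : ℂ}

/-- Admissible densities. -/
structure Dens (c₁ c₂ : ℂ) (K : ℝ) (f : ℂ → ℝ) : Prop where
  meas : AEStronglyMeasurable f
  bound : ∀ x, |f x| ≤ K * M1 c₁ c₂ x

/-- The logarithmic potential. -/
noncomputable def pot (f : ℂ → ℝ) (z : ℂ) : ℝ := ∫ x, Real.log ‖z - x‖ * f x

lemma measurable_log (z : ℂ) : Measurable (fun x : ℂ => Real.log ‖z - x‖) := by
  fun_prop

lemma Dens.integrable {K : ℝ} {f : ℂ → ℝ} (hne : c₁ ≠ c₂) (hf : Dens c₁ c₂ K f) : Integrable f :=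
  ((integrable_M1 hne).const_mul K).mono' hf.meas (Eventually.of_forall hf.bound)

lemma pot_pt {K : ℝ} (hK : 0 ≤ K) {f : ℂ → ℝ} (hf : Dens c₁ c₂ K f) (z x : ℂ) :
    ‖Real.log ‖z - x‖ * f x‖ ≤ qq z * (K * M2 c₁ c₂ x)
      + 5 * K * (‖z - x‖ ^ (-(1 / 5) : ℝ) * M2 c₁ c₂ x) := by
  have hM := M1_nonneg c₁ c₂ x
  have hp : 0 ≤ ‖z - x‖ ^ (-(1 / 5) : ℝ) := by positivity
  have hz := qq_pos z
  rw [norm_mul, Real.norm_eq_abs, Real.norm_eq_abs]
  calc |Real.log ‖z - x‖| * |f x|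
      ≤ (qq z * qq x + 5 * ‖z - x‖ ^ (-(1 / 5) : ℝ)) * (K * M1 c₁ c₂ x) := by
        have := qq_pos x
        exact mul_le_mul (log_kernel_le z x) (hf.bound x) (abs_nonneg _) (by positivity)
    _ = qq z * (K * M2 c₁ c₂ x) + 5 * K * (‖z - x‖ ^ (-(1 / 5) : ℝ) * M1 c₁ c₂ x) := by
        rw [M2_eq]; ring
    _ ≤ _ := by
        have := M1_le_M2 c₁ c₂ x
        gcongr

lemma pot_integrable {K : ℝ} (hK : 0 ≤ K) {f : ℂ → ℝ} (hne : c₁ ≠ c₂) (hf : Dens c₁ c₂ K f) (z : ℂ) :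
    Integrable (fun x => Real.log ‖z - x‖ * f x) := by
  obtain ⟨C, -, hC⟩ := exists_bound hne
  have h : Integrable (fun x => qq z * (K * M2 c₁ c₂ x)
      + 5 * K * (‖z - x‖ ^ (-(1 / 5) : ℝ) * M2 c₁ c₂ x)) :=
    (((integrable_M2 hne).const_mul K).const_mul _).add ((hC z).1.const_mul _)
  exact h.mono' ((measurable_log z).aestronglyMeasurable.mul hf.meas)
    (Eventually.of_forall fun x => pot_pt hK hf z x)

/-- Bound for the potential. -/
theorem pot_bound (hne : c₁ ≠ c₂) : ∃ B : ℝ, 0 < B ∧ ∀ K : ℝ, 0 ≤ K → ∀ f : ℂ → ℝ, Dens c₁ c₂ K f →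
    ∀ z, |pot f z| ≤ K * B * qq z := by
  obtain ⟨C, hC0, hC⟩ := exists_bound hne
  have hM0 : 0 ≤ ∫ x, M2 c₁ c₂ x := integral_nonneg fun x => M2_nonneg _ _ _
  refine ⟨(∫ x, M2 c₁ c₂ x) + 5 * C + 1, by positivity, fun K hK f hf z => ?_⟩
  have hz := one_le_qq z
  have h1 : Integrable (fun x => qq z * (K * M2 c₁ c₂ x)) := ((integrable_M2 hne).const_mul K).const_mul _
  have h2 : Integrable (fun x => 5 * K * (‖z - x‖ ^ (-(1 / 5) : ℝ) * M2 c₁ c₂ x)) :=
    (hC z).1.const_mul _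
  have h3 : ‖∫ x, Real.log ‖z - x‖ * f x‖ ≤ ∫ x, (qq z * (K * M2 c₁ c₂ x)
      + 5 * K * (‖z - x‖ ^ (-(1 / 5) : ℝ) * M2 c₁ c₂ x)) :=
    norm_integral_le_of_norm_le (h1.add h2) (Eventually.of_forall fun x => pot_pt hK hf z x)
  rw [integral_add h1 h2, integral_const_mul, integral_const_mul, integral_const_mul,
    Real.norm_eq_abs] at h3
  have h4 := (hC z).2
  rw [pot]
  refine h3.trans ?_
  have h5 : 5 * K * (∫ x, ‖z - x‖ ^ (-(1 / 5) : ℝ) * M2 c₁ c₂ x) ≤ 5 * K * C := by gcongr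
  have h6 : 5 * K * C ≤ 5 * K * C * qq z := le_mul_of_one_le_right (by positivity) hz
  have h7 : 0 ≤ K * qq z := by positivity
  nlinarith

/-- The potential is Hölder continuous. -/
theorem pot_holder (hne : c₁ ≠ c₂) : ∃ B : ℝ, 0 ≤ B ∧ ∀ K : ℝ, 0 ≤ K → ∀ f : ℂ → ℝ, Dens c₁ c₂ K f →
    ∀ z z', |pot f z - pot f z'| ≤ K * B * ‖z - z'‖ ^ (1 / 5 : ℝ) := by
  obtain ⟨C, hC0, hC⟩ := exists_bound hne
  refine ⟨10 * C, by positivity, fun K hK f hf z z' => ?_⟩
  rw [pot, pot, ← integral_sub (pot_integrable hK hne hf z) (pot_integrable hK hne hf z')]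
  have h1 : Integrable (fun x => 5 * ‖z - z'‖ ^ (1 / 5 : ℝ) * K *
      (‖z - x‖ ^ (-(1 / 5) : ℝ) * M2 c₁ c₂ x + ‖z' - x‖ ^ (-(1 / 5) : ℝ) * M2 c₁ c₂ x)) :=
    ((hC z).1.add (hC z').1).const_mul _
  have hae : ∀ᵐ x : ℂ, x ≠ z ∧ x ≠ z' := by
    have a1 : ∀ᵐ x : ℂ, x ≠ z := (measure_singleton z : volume ({z} : Set ℂ) = 0) |> compl_mem_ae_iff.mpr
    have a2 : ∀ᵐ x : ℂ, x ≠ z' := (measure_singleton z' : volume ({z'} : Set ℂ) = 0) |> compl_mem_ae_iff.mpr
    exact a1.and a2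
  have h2 : ‖∫ x, (Real.log ‖z - x‖ * f x - Real.log ‖z' - x‖ * f x)‖
      ≤ ∫ x, 5 * ‖z - z'‖ ^ (1 / 5 : ℝ) * K *
      (‖z - x‖ ^ (-(1 / 5) : ℝ) * M2 c₁ c₂ x + ‖z' - x‖ ^ (-(1 / 5) : ℝ) * M2 c₁ c₂ x) := by
    apply norm_integral_le_of_norm_le h1
    filter_upwards [hae] with x hx
    have hx1 : 0 < ‖z - x‖ := norm_pos_iff.mpr (sub_ne_zero.mpr hx.1.symm)
    have hx2 : 0 < ‖z' - x‖ := norm_pos_iff.mpr (sub_ne_zero.mpr hx.2.symm)
    rw [← sub_mul, norm_mul, Real.norm_eq_abs, Real.norm_eq_abs]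
    have h3 := log_holder hx1 hx2
    have h4 : |‖z - x‖ - ‖z' - x‖| ≤ ‖z - z'‖ := by
      have := abs_norm_sub_norm_le (z - x) (z' - x)
      rwa [sub_sub_sub_cancel_right] at this
    have h5 : |‖z - x‖ - ‖z' - x‖| ^ (1 / 5 : ℝ) ≤ ‖z - z'‖ ^ (1 / 5 : ℝ) :=
      Real.rpow_le_rpow (abs_nonneg _) h4 (by norm_num)
    have hM := M1_nonneg c₁ c₂ x
    have hb : |f x| ≤ K * M2 c₁ c₂ x := (hf.bound x).trans (by
      have := M1_le_M2 c₁ c₂ x
      gcongr)
    calc |Real.log ‖z - x‖ - Real.log ‖z' - x‖| * |f x|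
        ≤ (5 * ‖z - z'‖ ^ (1 / 5 : ℝ) * (‖z - x‖ ^ (-(1 / 5) : ℝ) + ‖z' - x‖ ^ (-(1 / 5) : ℝ)))
          * (K * M2 c₁ c₂ x) := by
          apply mul_le_mul (h3.trans _) hb (abs_nonneg _) (by positivity)
          gcongr
      _ = _ := by ring
  rw [integral_const_mul, integral_add (hC z).1 (hC z').1, Real.norm_eq_abs] at h2
  refine h2.trans ?_
  have h6 := (hC z).2
  have h7 := (hC z').2
  have h8 : 0 ≤ 5 * ‖z - z'‖ ^ (1 / 5 : ℝ) * K := by positivity
  nlinarith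

theorem continuous_pot {K : ℝ} (hK : 0 ≤ K) {f : ℂ → ℝ} (hne : c₁ ≠ c₂) (hf : Dens c₁ c₂ K f) :
    Continuous (pot f) := by
  obtain ⟨B, hB0, hB⟩ := pot_holder hne
  rw [continuous_iff_continuousAt]
  intro z₀
  rw [ContinuousAt, tendsto_iff_norm_sub_tendsto_zero]
  have h1 : Tendsto (fun z => K * B * ‖z - z₀‖ ^ (1 / 5 : ℝ)) (𝓝 z₀) (𝓝 0) := by
    have : Continuous (fun z : ℂ => K * B * ‖z - z₀‖ ^ (1 / 5 : ℝ)) :=
      continuous_const.mul ((by fun_prop : Continuous fun z : ℂ => ‖z - z₀‖).rpow_const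
        fun x => Or.inr (by norm_num))
    have h2 := this.tendsto z₀
    simpa using h2
  exact squeeze_zero (fun z => norm_nonneg _) (fun z => hB K hK f hf z z₀) h1

/-- Truncation. -/
noncomputable def clamp (t : ℝ) : ℝ := max (-(1 / 5)) (min (1 / 5) t)

lemma clamp_abs (t : ℝ) : |clamp t| ≤ 1 / 5 := by
  unfold clamp
  rw [abs_le]
  exact ⟨le_max_left _ _, max_le (by norm_num) (min_le_left _ _)⟩

lemma clamp_eq {t : ℝ} (h : |t| ≤ 1 / 5) : clamp t = t := by
  rw [abs_le] at h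
  unfold clamp
  rw [min_eq_right h.2, max_eq_right h.1]

lemma clamp_sub (s t : ℝ) : |clamp s - clamp t| ≤ |s - t| := by
  unfold clamp
  have h1 : |max (-(1 / 5)) (min (1 / 5) s) - max (-(1 / 5)) (min (1 / 5) t)|
      ≤ |min (1 / 5) s - min (1 / 5) t| := by
    have := abs_max_sub_max_le_max (-(1 / 5):ℝ) (min (1 / 5) s) (-(1 / 5)) (min (1 / 5) t)
    simpa using this
  have h2 : |min (1 / 5) s - min (1 / 5) t| ≤ |s - t| := by
    have := abs_min_sub_min_le_max (1 / 5:ℝ) s (1 / 5) t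
    simpa using this
  exact h1.trans h2

lemma continuous_clamp : Continuous clamp := by
  unfold clamp; fun_prop

/-- The density attached to a bounded function. -/
noncomputable def dens (c₁ c₂ : ℂ) (u : ℂ → ℝ) (x : ℂ) : ℝ :=
  hh c₁ c₂ x * Real.exp (qq x * clamp (u x))

lemma exp_clamp_le (u : ℂ → ℝ) (x : ℂ) : Real.exp (qq x * clamp (u x)) ≤ Real.exp (qq x / 5) := by
  apply Real.exp_le_exp.mpr
  have h1 := (abs_le.mp (clamp_abs (u x))).2
  have h2 := qq_pos x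
  have : qq x * clamp (u x) ≤ qq x * (1 / 5) := by gcongr
  linarith

lemma dens_dens {u : ℂ → ℝ} (hu : Continuous u) : Dens c₁ c₂ 1 (dens c₁ c₂ u) := by
  constructor
  · have h1 := measurable_hh c₁ c₂
    have h2 : Measurable (fun x => Real.exp (qq x * clamp (u x))) :=
      (Real.continuous_exp.comp (continuous_qq.mul (continuous_clamp.comp hu))).measurable
    exact (h1.mul h2).aestronglyMeasurable
  · intro x
    have h1 := hh_nonneg c₁ c₂ x
    have h2 := one_le_qq x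
    rw [abs_of_nonneg (by unfold dens; positivity), one_mul]
    unfold dens M1
    calc hh c₁ c₂ x * Real.exp (qq x * clamp (u x)) ≤ hh c₁ c₂ x * Real.exp (qq x / 5) := by
          have := exp_clamp_le u x
          gcongr
      _ ≤ _ := le_mul_of_one_le_right (by positivity) h2

lemma exp_sub_le (a b c : ℝ) (ha : a ≤ c) (hb : b ≤ c) : |Real.exp a - Real.exp b| ≤ Real.exp c * |a - b| := by
  wlog hab : b ≤ a generalizing a b
  · have := this b a hb ha (le_of_not_ge hab)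
    rwa [abs_sub_comm, abs_sub_comm b a] at this
  rw [abs_of_nonneg (sub_nonneg.mpr (Real.exp_le_exp.mpr hab)), abs_of_nonneg (sub_nonneg.mpr hab)]
  have h1 : Real.exp a - Real.exp b = Real.exp a * (1 - Real.exp (b - a)) := by
    rw [mul_sub, mul_one, ← Real.exp_add]; congr 2; ring
  have h2 : 1 - Real.exp (b - a) ≤ a - b := by
    have := Real.add_one_le_exp (b - a); linarith
  rw [h1]
  calc Real.exp a * (1 - Real.exp (b - a)) ≤ Real.exp a * (a - b) := by gcongr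
    _ ≤ Real.exp c * (a - b) := by
      have : 0 ≤ a - b := by linarith
      gcongr

lemma dens_sub {u v : ℂ → ℝ} (hu : Continuous u) (hv : Continuous v) {D : ℝ}
    (hD : ∀ x, |u x - v x| ≤ D) : Dens c₁ c₂ D (fun x => dens c₁ c₂ u x - dens c₁ c₂ v x) := by
  constructor
  · exact (dens_dens hu).meas.sub (dens_dens hv).meas
  · intro x
    have h1 := hh_nonneg c₁ c₂ x
    have h2 := qq_pos x
    unfold dens
    rw [← mul_sub, abs_mul, abs_of_nonneg h1]
    have a1 := (abs_le.mp (clamp_abs (u x))).2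
    have a2 := (abs_le.mp (clamp_abs (v x))).2
    have h3 := exp_sub_le (qq x * clamp (u x)) (qq x * clamp (v x)) (qq x / 5)
      (by calc qq x * clamp (u x) ≤ qq x * (1 / 5) := by gcongr
            _ = _ := by ring)
      (by calc qq x * clamp (v x) ≤ qq x * (1 / 5) := by gcongr
            _ = _ := by ring)
    rw [← mul_sub, abs_mul, abs_of_pos h2] at h3
    have h4 := (clamp_sub (u x) (v x)).trans (hD x)
    calc hh c₁ c₂ x * |Real.exp (qq x * clamp (u x)) - Real.exp (qq x * clamp (v x))|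
        ≤ hh c₁ c₂ x * (Real.exp (qq x / 5) * (qq x * |clamp (u x) - clamp (v x)|)) := by gcongr
      _ ≤ hh c₁ c₂ x * (Real.exp (qq x / 5) * (qq x * D)) := by gcongr
      _ = D * M1 c₁ c₂ x := by unfold M1; ring

/-- The solution of the integral equation. -/
theorem exists_solution (hne : c₁ ≠ c₂) : ∃ (γ : ℝ) (w : ℂ → ℝ), 0 < γ ∧ Continuous w ∧
    (∀ z, |w z| ≤ qq z / 5) ∧
    Dens c₁ c₂ 1 (fun x => hh c₁ c₂ x * Real.exp (w x)) ∧
    ∀ z, w z = γ * pot (fun x => hh c₁ c₂ x * Real.exp (w x)) z := by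
  obtain ⟨B, hB, hbd⟩ := pot_bound hne
  set γ : ℝ := 1 / (5 * B) with hγ
  have hγ0 : 0 < γ := by positivity
  have hbd1 : ∀ u : ℂ →ᵇ ℝ, ∀ z, ‖γ * pot (dens c₁ c₂ u) z / qq z‖ ≤ 1 / 5 := by
    intro u z
    have h1 := hbd 1 zero_le_one _ (dens_dens u.continuous) z
    have hz := qq_pos z
    rw [norm_div, norm_mul, Real.norm_of_nonneg hγ0.le, Real.norm_of_nonneg hz.le, div_le_iff₀ hz,
      Real.norm_eq_abs]
    calc γ * |pot (dens c₁ c₂ u) z| ≤ γ * (1 * B * qq z) := by gcongr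
      _ = 1 / 5 * qq z := by rw [hγ]; field_simp
  have hcont : ∀ u : ℂ →ᵇ ℝ, Continuous (fun z => γ * pot (dens c₁ c₂ u) z / qq z) := by
    intro u
    exact (continuous_const.mul (continuous_pot zero_le_one hne (dens_dens u.continuous))).div
      continuous_qq fun z => (qq_pos z).ne'
  let T : (ℂ →ᵇ ℝ) → (ℂ →ᵇ ℝ) := fun u =>
    BoundedContinuousFunction.ofNormedAddCommGroup (fun z => γ * pot (dens c₁ c₂ u) z / qq z)
      (hcont u) (1 / 5) (hbd1 u)
  have hT : ContractingWith (1 / 5 : ℝ≥0) T := by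
    refine ⟨by
      rw [← NNReal.coe_lt_coe]; norm_num, ?_⟩
    apply LipschitzWith.of_dist_le_mul
    intro u v
    rw [BoundedContinuousFunction.dist_le (by positivity)]
    intro z
    have hz := qq_pos z
    have hd : ∀ x, |u x - v x| ≤ dist u v := by
      intro x
      rw [← Real.dist_eq]; exact BoundedContinuousFunction.dist_coe_le_dist x
    have h1 := hbd (dist u v) dist_nonneg _ (dens_sub u.continuous v.continuous hd) z
    have h2 : pot (fun x => dens c₁ c₂ u x - dens c₁ c₂ v x) z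
        = pot (dens c₁ c₂ u) z - pot (dens c₁ c₂ v) z := by
      rw [pot, pot, pot, ← integral_sub (pot_integrable zero_le_one hne (dens_dens u.continuous) z)
        (pot_integrable zero_le_one hne (dens_dens v.continuous) z)]
      congr 1
      funext x; ring
    rw [h2] at h1
    have h3 : dist (T u z) (T v z) = γ * |pot (dens c₁ c₂ u) z - pot (dens c₁ c₂ v) z| / qq z := by
      rw [Real.dist_eq]
      change |γ * pot (dens c₁ c₂ u) z / qq z - γ * pot (dens c₁ c₂ v) z / qq z| = _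
      rw [← sub_div, ← mul_sub, abs_div, abs_mul, abs_of_pos hγ0, abs_of_pos hz]
    rw [h3, div_le_iff₀ hz]
    calc γ * |pot (dens c₁ c₂ u) z - pot (dens c₁ c₂ v) z| ≤ γ * (dist u v * B * qq z) := by gcongr
      _ = _ := by
        rw [hγ]; push_cast; field_simp
  set u := hT.fixedPoint T with hu
  have hfix : T u = u := hT.fixedPoint_isFixedPt
  have hu1 : ∀ z, |u z| ≤ 1 / 5 := by
    intro z
    have : u z = γ * pot (dens c₁ c₂ u) z / qq z := by
      conv_lhs => rw [← hfix]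
      rfl
    rw [this]; exact hbd1 u z
  have hdens : dens c₁ c₂ u = fun x => hh c₁ c₂ x * Real.exp (qq x * u x) := by
    funext x
    rw [dens, clamp_eq (hu1 x)]
  refine ⟨γ, fun z => qq z * u z, hγ0, continuous_qq.mul u.continuous, fun z => ?_, ?_, fun z => ?_⟩
  · rw [abs_mul, abs_of_pos (qq_pos z)]
    have := hu1 z
    have := qq_pos z
    calc qq z * |u z| ≤ qq z * (1 / 5) := by gcongr
      _ = _ := by ring
  · rw [← hdens]; exact dens_dens u.continuous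
  · have h1 : u z = γ * pot (dens c₁ c₂ u) z / qq z := by
      conv_lhs => rw [← hfix]
      rfl
    have hz := (qq_pos z).ne'
    rw [← hdens]
    simp only
    rw [h1]
    field_simp

end Pool.Agent.Lib.Helper82.Ell
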