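import Pool.Agent.Lib.Helper82.Ell.Curr

/-!
# The currents are pairwise inequivalent
-/

set_option autoImplicit false

open MeasureTheory Complex Set Topology Filter
open scoped ContDiff ComplexConjugate

namespace Pool.Agent.Lib.Helper82.Ell

variable {R : ℂ → ℝ}

lemma Gau_mul {z w : ℂ} (hz : z ∈ Gau) (hw : w ∈ Gau) : z * w ∈ Gau := by
  obtain ⟨m, n, rfl⟩ := hz
  obtain ⟨m', n', rfl⟩ := hw
  refine ⟨m * m' - n * n', m * n' + n * m', ?_⟩
  push_cast
  linear_combination (n * n' : ℂ) * I_mul_I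

lemma Gau_conj {z : ℂ} (hz : z ∈ Gau) : conj z ∈ Gau := by
  obtain ⟨m, n, rfl⟩ := hz
  refine ⟨m, -n, ?_⟩
  simp

lemma Gau_normSq {z : ℂ} (hz : z ∈ Gau) : ∃ n : ℕ, Complex.normSq z = n := by
  obtain ⟨m, n, rfl⟩ := hz
  refine ⟨(m * m + n * n).toNat, ?_⟩
  have h0 : (0 : ℤ) ≤ m * m + n * n := by nlinarith [mul_self_nonneg m, mul_self_nonneg n]
  have h1 : (((m * m + n * n).toNat : ℤ) : ℝ) = ((m * m + n * n : ℤ) : ℝ) := by
    rw [Int.toNat_of_nonneg h0]
  rw [Complex.normSq_apply]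
  simp only [Complex.add_re, Complex.intCast_re, Complex.mul_re, Complex.I_re, mul_zero,
    Complex.intCast_im, Complex.I_im, mul_one, sub_self, add_zero, Complex.add_im, Complex.mul_im,
    zero_add]
  push_cast at h1
  rw [h1]

lemma Gau_unit {z w : ℂ} (hz : z ∈ Gau) (hw : w ∈ Gau) (h : z * w = 1) : Complex.normSq z = 1 := by
  obtain ⟨n, hn⟩ := Gau_normSq hz
  obtain ⟨m, hm⟩ := Gau_normSq hw
  have h1 : Complex.normSq z * Complex.normSq w = 1 := by
    rw [← map_mul, h, map_one]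
  rw [hn, hm] at h1
  have h2 : n * m = 1 := by exact_mod_cast h1
  rw [hn, Nat.eq_one_of_mul_eq_one_right h2]
  simp

/-- The affine lifts. -/
lemma aut_structure {f : XX ≃ XX} {h : EE ≃ EE} (hf : IsAutPair f h) :
    ∃ A : C2 →L[ℂ] C2, (∀ j i, A (Pi.single j 1) i ∈ Gau) ∧ A (Pi.single 0 1) 1 = 0 ∧
      Complex.normSq (A (Pi.single 0 1) 0) = 1 ∧ Complex.normSq (A (Pi.single 1 1) 1) = 1 ∧
      ∀ (p : C2) (G : C2 → C2), LiftAt f G p → fderiv ℂ G p = A := by
  obtain ⟨F, A, hFA, hF, hA, hG⟩ := lift_affine hf.holo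
  obtain ⟨F', A', hFA', hF', hA', -⟩ := lift_affine hf.holo_symm
  have hs : ∀ j, (Pi.single j (1 : ℂ) : C2) ∈ Gau2 := by
    intro j i
    by_cases hij : i = j
    · subst hij; rw [Pi.single_eq_same]; exact ⟨1, 0, by simp⟩
    · rw [Pi.single_eq_of_ne hij]; exact Gau.zero_mem
  have e1 : ∀ j i, A (Pi.single j 1) i ∈ Gau := fun j i => hA _ (hs j) i
  have e1' : ∀ j i, A' (Pi.single j 1) i ∈ Gau := fun j i => hA' _ (hs j) i
  have key : ∀ (B : C2 →L[ℂ] C2) (G : C2 → C2) (g : XX → XX) (k : EE → EE),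
      (∀ x, G x = G 0 + B x) → (∀ x, pr (G x) = g (pr x)) → (∀ x, Phi (g x) = k (Phi x)) →
      B (Pi.single 0 1) 1 = 0 := by
    intro B G g k hGB hGg hgk
    by_contra hne
    set β := B (Pi.single 0 1) 1 with hβ
    have h1 : ∀ t : ℂ, t * β ∈ Gau := by
      intro t
      have h2 : prE (G (Pi.single 0 t) 1) = prE (G 0 1) := by
        rw [← Phi_pr, ← Phi_pr, hGg, hGg, hgk, hgk, Phi_pr, Phi_pr]
        simp
      have h3 := prE_eq_iff.mp h2.symm
      rw [hGB (Pi.single 0 t)] at h3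
      have h4 : (Pi.single 0 t : C2) = t • Pi.single 0 1 := by
        rw [← Pi.single_smul, smul_eq_mul, mul_one]
      rw [h4, map_smul] at h3
      simpa [hβ] using h3
    have h5 := h1 ((1 / 2) / β)
    rw [div_mul_cancel₀ _ hne] at h5
    have h6 := Gau_norm h5 (by norm_num)
    norm_num at h6
  have hsymm : ∀ x, Phi (f.symm x) = h.symm (Phi x) := by
    intro x
    rw [Equiv.eq_symm_apply, ← hf.comm, Equiv.apply_symm_apply]
  have e2 := key A F f h hFA hF hf.comm
  have e2' := key A' F' f.symm h.symm hFA' hF' hsymm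
  have e3 : ∀ x, A' (A x) = x := by
    have h1 : ∀ x, F' (F x) - x ∈ Gau2 := by
      intro x
      rw [← pr_eq_iff, hF', hF, Equiv.symm_apply_apply]
    have hcF : Continuous F := by
      have : F = fun x => F 0 + A x := funext hFA
      rw [this]; exact continuous_const.add A.continuous
    have hcF' : Continuous F' := by
      have : F' = fun x => F' 0 + A' x := funext hFA'
      rw [this]; exact continuous_const.add A'.continuous
    have h2 := const_of_mem ((hcF'.comp hcF).sub continuous_id) h1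
    intro x
    have h3 : F' (F x) - x = F' (F 0) - 0 := h2 x 0
    rw [hFA' (F x), hFA x, hFA' (F 0), map_add] at h3
    have h4 : A' (A x) - x = 0 := by
      have h5 : F' 0 + (A' (F 0) + A' (A x)) - x - (F' 0 + A' (F 0) - 0) = 0 := sub_eq_zero.mpr h3
      rw [← h5]; abel
    exact sub_eq_zero.mp h4
  have expand : ∀ (B : C2 →L[ℂ] C2) (v : C2), B v = v 0 • B (Pi.single 0 1) + v 1 • B (Pi.single 1 1) := by
    intro B v
    have h1 : v = v 0 • Pi.single 0 1 + v 1 • Pi.single 1 1 := by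
      ext i; fin_cases i <;> simp
    conv_lhs => rw [h1]
    rw [map_add, map_smul, map_smul]
  refine ⟨A, e1, e2, ?_, ?_, hG⟩
  · apply Gau_unit (e1 0 0) (e1' 0 0)
    have h1 := congrFun (e3 (Pi.single 0 1)) 0
    rw [expand A' (A (Pi.single 0 1)), e2] at h1
    simpa using h1
  · apply Gau_unit (e1 1 1) (e1' 1 1)
    have h1 := congrFun (e3 (Pi.single 1 1)) 1
    rw [expand A' (A (Pi.single 1 1))] at h1
    simp only [Pi.add_apply, Pi.smul_apply, smul_eq_mul, e2', mul_zero, zero_add,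
      Pi.single_eq_same] at h1
    exact h1

/-- Constant forms. -/
def constF (m : Fin 2 → Fin 2 → ℂ) : Form11 := ⟨fun j k _ => m j k, fun _ _ => contDiff_const⟩

lemma constF_apply (m : Fin 2 → Fin 2 → ℂ) (j k : Fin 2) (x : XX) : (constF m).1 j k x = m j k := rfl

lemma TT_const (c : ℝ) {m : Fin 2 → Fin 2 → ℂ} (h0 : m 0 0 = 0) :
    TT R c (constF m) = 2 * m 1 1 - (2 * c) * m 1 0 - (2 * c) * m 0 1 := by
  rw [TT_apply]
  simp only [integ, constF_apply, h0, mul_zero, add_zero]
  rw [integral_const]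
  simp

lemma arith {p q m n : ℤ} {c₁ c₂ : ℝ} (hpq : p * p + q * q = 1) (h1 : c₂ = p * c₁ + m)
    (h2 : (0 : ℝ) = q * c₁ + n) (hc₁ : c₁ ∈ Icc (0 : ℝ) (1 / 2)) (hc₂ : c₂ ∈ Icc (0 : ℝ) (1 / 2)) :
    c₁ = c₂ := by
  obtain ⟨a1, a2⟩ := hc₁
  obtain ⟨b1, b2⟩ := hc₂
  have hp1 : p ≤ 1 := by nlinarith [mul_self_nonneg p, mul_self_nonneg q, mul_self_nonneg (p - 1)]
  have hp2 : -1 ≤ p := by nlinarith [mul_self_nonneg p, mul_self_nonneg q, mul_self_nonneg (p + 1)]
  have hint : ∀ k : ℤ, ∀ t : ℝ, t = k → 0 ≤ t → t ≤ 1 / 2 → t = 0 := by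
    intro k t hk h3 h4
    have h5 : (-1 : ℤ) < k := by
      have : (-1 : ℝ) < k := by linarith
      exact_mod_cast this
    have h6 : k < (1 : ℤ) := by
      have : (k : ℝ) < 1 := by linarith
      exact_mod_cast this
    have h7 : k = 0 := by omega
    rw [hk, h7]; simp
  interval_cases p
  · have hq : q = 0 := by nlinarith [mul_self_nonneg q]
    push_cast at h1
    have h3 : (m : ℝ) = c₁ + c₂ := by linarith
    have h5 : (-1 : ℤ) < m := by
      have : (-1 : ℝ) < m := by linarith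
      exact_mod_cast this
    have h6 : m < (2 : ℤ) := by
      have : (m : ℝ) < 2 := by linarith
      exact_mod_cast this
    have h7 : m = 0 ∨ m = 1 := by omega
    rcases h7 with rfl | rfl
    · push_cast at h3; linarith
    · push_cast at h3; linarith
  · have hq : q * q = 1 := by linarith
    have hq1 : q = 1 ∨ q = -1 := by
      have h8 : (q - 1) * (q + 1) = 0 := by linear_combination hq
      rcases mul_eq_zero.mp h8 with h9 | h9
      · left; omega
      · right; omega
    push_cast at h1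
    have h3 : c₂ = 0 := hint m c₂ (by linarith) b1 b2
    rcases hq1 with rfl | rfl
    · push_cast at h2
      have h4 : c₁ = 0 := hint (-n) c₁ (by push_cast; linarith) a1 a2
      rw [h3, h4]
    · push_cast at h2
      have h4 : c₁ = 0 := hint n c₁ (by linarith) a1 a2
      rw [h3, h4]
  · have hq : q = 0 := by nlinarith [mul_self_nonneg q]
    push_cast at h1
    have h3 : (m : ℝ) = c₂ - c₁ := by linarith
    have h5 : (-1 : ℤ) < m := by
      have : (-1 : ℝ) < m := by linarith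
      exact_mod_cast this
    have h6 : m < (1 : ℤ) := by
      have : (m : ℝ) < 1 := by linarith
      exact_mod_cast this
    have h7 : m = 0 := by omega
    rw [h7] at h3
    push_cast at h3; linarith

/-- The currents `ω_c`, `0 ≤ c ≤ 1/2`, are pairwise inequivalent under `H(X, Φ)`. -/
theorem inequivalent {c₁ c₂ : ℝ} (hc₁ : c₁ ∈ Icc (0 : ℝ) (1 / 2))
    (hc₂ : c₂ ∈ Icc (0 : ℝ) (1 / 2)) (hne : c₁ ≠ c₂) {f : XX ≃ XX} {h : EE ≃ EE}
    (hf : IsAutPair f h) : ¬ PushEq f (TT R c₁) (TT R c₂) := by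
  intro hpush
  obtain ⟨A, e1, e2, e3, e4, hG⟩ := aut_structure hf
  have h1 := hpush (constF fun j k => if j = 0 ∧ k = 1 then 1 else 0)
    (constF fun j k => A (Pi.single j 1) 0 * conj (A (Pi.single k 1) 1)) (by
      intro p G hGp j k
      simp only [jac, hG p G hGp, constF_apply, Fin.sum_univ_two]
      simp)
  rw [TT_const c₁ (by simp only [e2, map_zero, mul_zero]), TT_const c₂ (by simp)] at h1
  simp only [e2, map_zero, mul_zero, sub_zero] at h1
  norm_num at h1
  set a := A (Pi.single 0 1) 0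
  set b := A (Pi.single 1 1) 0
  set d := A (Pi.single 1 1) 1
  have h2 : (c₂ : ℂ) = (a * conj d) * c₁ + (-(b * conj d)) := by linear_combination (1 / 2) * h1
  obtain ⟨p, q, hpq⟩ := Gau_mul (e1 0 0) (Gau_conj (e1 1 1))
  obtain ⟨m, n, hmn⟩ := Gau.neg_mem (Gau_mul (e1 1 0) (Gau_conj (e1 1 1)))
  have h3 : Complex.normSq (a * conj d) = 1 := by
    rw [map_mul, Complex.normSq_conj, e3, e4, mul_one]
  have hpq' : p * p + q * q = 1 := by
    rw [hpq, Complex.normSq_apply] at h3
    simp at h3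
    exact_mod_cast h3
  rw [hpq, hmn] at h2
  have h5 := congrArg Complex.re h2
  have h6 := congrArg Complex.im h2
  simp at h5 h6
  exact hne (arith hpq' h5 h6 hc₁ hc₂)

end Pool.Agent.Lib.Helper82.Ell
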