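import Pool.Agent.Lib.Helper82.Ell.Lift

/-!
# Integration over the unit cells
-/

set_option autoImplicit false

open MeasureTheory Complex Set Topology Filter
open scoped ContDiff ComplexConjugate

namespace Pool.Agent.Lib.Helper82.Ell

lemma Q1_eq : Q1 = Complex.measurableEquivRealProd ⁻¹' (Ioc (0 : ℝ) 1 ×ˢ Ioc (0 : ℝ) 1) := rfl

lemma measurableSet_Q1 : MeasurableSet Q1 := by
  rw [Q1_eq]
  exact Complex.measurableEquivRealProd.measurable (measurableSet_Ioc.prod measurableSet_Ioc)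

lemma volume_Q1 : volume Q1 = 1 := by
  rw [Q1_eq, Complex.volume_preserving_equiv_real_prod.measure_preimage
    (measurableSet_Ioc.prod measurableSet_Ioc).nullMeasurableSet, Measure.volume_eq_prod,
    Measure.prod_prod, Real.volume_Ioc]
  simp

instance : IsProbabilityMeasure (volume.restrict Q1) := ⟨by
  rw [Measure.restrict_apply MeasurableSet.univ, univ_inter, volume_Q1]⟩

lemma Q1_subset : Q1 ⊆ (Icc (0 : ℝ) 1 ×ℂ Icc (0 : ℝ) 1) := by
  intro z hz
  exact ⟨Ioc_subset_Icc_self hz.1, Ioc_subset_Icc_self hz.2⟩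

lemma integrableOn_Q1 {E : Type*} [NormedAddCommGroup E] {w : ℂ → E} (hw : Continuous w) :
    IntegrableOn w Q1 :=
  (hw.continuousOn.integrableOn_compact (isCompact_Icc.reProdIm isCompact_Icc)).mono_set Q1_subset

lemma setIntegral_Q1 (w : ℂ → ℂ) :
    ∫ z in Q1, w z = ∫ p in (Ioc (0 : ℝ) 1 ×ˢ Ioc (0 : ℝ) 1), w ((p.1 : ℂ) + p.2 * I) := by
  have h := Complex.volume_preserving_equiv_real_prod.setIntegral_preimage_emb
    Complex.measurableEquivRealProd.measurableEmbedding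
    (fun p : ℝ × ℝ => w ((p.1 : ℂ) + p.2 * I)) (Ioc (0 : ℝ) 1 ×ˢ Ioc (0 : ℝ) 1)
  rw [← h]
  apply setIntegral_congr_fun measurableSet_Q1
  intro z _
  simp only [Complex.measurableEquivRealProd_apply, Complex.re_add_im]

lemma integrableOn_square {w : ℂ → ℂ} (hw : Continuous w) :
    IntegrableOn (fun p : ℝ × ℝ => w ((p.1 : ℂ) + p.2 * I)) (Ioc (0 : ℝ) 1 ×ˢ Ioc (0 : ℝ) 1)
      (volume.prod volume) := by
  have h1 : Continuous (fun p : ℝ × ℝ => w ((p.1 : ℂ) + p.2 * I)) := by fun_prop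
  exact (h1.continuousOn.integrableOn_compact (isCompact_Icc.prod isCompact_Icc)).mono_set
    (prod_mono Ioc_subset_Icc_self Ioc_subset_Icc_self)

lemma line_int_one {v : ℂ → ℂ} (hv : ContDiff ℝ 1 v) (hp : ∀ l ∈ Gau, ∀ z, v (z + l) = v z) (y : ℝ) :
    ∫ x in Ioc (0 : ℝ) 1, fderiv ℝ v ((x : ℂ) + y * I) 1 = 0 := by
  have hd : ∀ x : ℝ, HasDerivAt (fun x : ℝ => v ((x : ℂ) + y * I))
      (fderiv ℝ v ((x : ℂ) + y * I) 1) x := by
    intro x
    have h1 : HasDerivAt (fun x : ℝ => (x : ℂ) + y * I) 1 x :=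
      (Complex.ofRealCLM.hasDerivAt (x := x)).add_const _
    exact ((hv.differentiable (by norm_num) _).hasFDerivAt).comp_hasDerivAt x h1
  have hc : Continuous (fun x : ℝ => fderiv ℝ v ((x : ℂ) + y * I) 1) := by
    have h1 : Continuous (fun z : ℂ => fderiv ℝ v z 1) :=
      (hv.continuous_fderiv (by norm_num)).clm_apply continuous_const
    exact h1.comp (by fun_prop)
  have h := intervalIntegral.integral_eq_sub_of_hasDerivAt (a := 0) (b := 1)
    (f := fun x : ℝ => v ((x : ℂ) + y * I)) (fun x _ => hd x) (hc.intervalIntegrable _ _)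
  rw [intervalIntegral.integral_of_le zero_le_one] at h
  rw [h]
  have h2 := hp 1 ⟨1, 0, by simp⟩ ((0 : ℝ) + y * I)
  rw [sub_eq_zero, ← h2]
  congr 1
  push_cast; ring

lemma line_int_I {v : ℂ → ℂ} (hv : ContDiff ℝ 1 v) (hp : ∀ l ∈ Gau, ∀ z, v (z + l) = v z) (x : ℝ) :
    ∫ y in Ioc (0 : ℝ) 1, fderiv ℝ v ((x : ℂ) + y * I) I = 0 := by
  have hd : ∀ y : ℝ, HasDerivAt (fun y : ℝ => v ((x : ℂ) + y * I))
      (fderiv ℝ v ((x : ℂ) + y * I) I) y := by
    intro y
    have h1 : HasDerivAt (fun y : ℝ => (x : ℂ) + y * I) (1 * I) y :=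
      ((Complex.ofRealCLM.hasDerivAt (x := y)).mul_const I).const_add _
    rw [one_mul] at h1
    exact ((hv.differentiable (by norm_num) _).hasFDerivAt).comp_hasDerivAt y h1
  have hc : Continuous (fun y : ℝ => fderiv ℝ v ((x : ℂ) + y * I) I) := by
    have h1 : Continuous (fun z : ℂ => fderiv ℝ v z I) :=
      (hv.continuous_fderiv (by norm_num)).clm_apply continuous_const
    exact h1.comp (by fun_prop)
  have h := intervalIntegral.integral_eq_sub_of_hasDerivAt (a := 0) (b := 1)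
    (f := fun y : ℝ => v ((x : ℂ) + y * I)) (fun y _ => hd y) (hc.intervalIntegrable _ _)
  rw [intervalIntegral.integral_of_le zero_le_one] at h
  rw [h]
  have h2 := hp I ⟨0, 1, by simp⟩ ((x : ℂ) + (0 : ℝ) * I)
  rw [sub_eq_zero, ← h2]
  congr 1
  push_cast; ring

lemma int_fderiv_one {v : ℂ → ℂ} (hv : ContDiff ℝ 1 v) (hp : ∀ l ∈ Gau, ∀ z, v (z + l) = v z) :
    ∫ z in Q1, fderiv ℝ v z 1 = 0 := by
  have hc : Continuous (fun z : ℂ => fderiv ℝ v z 1) :=
    (hv.continuous_fderiv (by norm_num)).clm_apply continuous_const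
  rw [setIntegral_Q1, Measure.volume_eq_prod, ← setIntegral_prod_swap]
  have h7 := setIntegral_prod _ (integrableOn_square hc).swap
  simp only [Function.comp, Prod.swap, line_int_one hv hp] at h7
  simp only [Prod.swap]
  rw [h7]; simp

lemma int_fderiv_I {v : ℂ → ℂ} (hv : ContDiff ℝ 1 v) (hp : ∀ l ∈ Gau, ∀ z, v (z + l) = v z) :
    ∫ z in Q1, fderiv ℝ v z I = 0 := by
  have hc : Continuous (fun z : ℂ => fderiv ℝ v z I) :=
    (hv.continuous_fderiv (by norm_num)).clm_apply continuous_const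
  rw [setIntegral_Q1, Measure.volume_eq_prod, setIntegral_prod _ (integrableOn_square hc)]
  simp only [line_int_I hv hp]
  simp

/-! ### the cell in `ℂ²` -/

lemma Q2_eq : Q2 = Set.pi univ fun _ : Fin 2 => Q1 := by
  ext x; simp [Q2]

lemma Q2_eq' : Q2 = (MeasurableEquiv.finTwoArrow (α := ℂ)) ⁻¹' (Q1 ×ˢ Q1) := by
  ext x
  simp [Q2, MeasurableEquiv.finTwoArrow, Fin.forall_fin_two]

lemma measurableSet_Q2 : MeasurableSet Q2 := by
  rw [Q2_eq]; exact MeasurableSet.univ_pi fun _ => measurableSet_Q1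

lemma mp_Q2 : MeasurePreserving (MeasurableEquiv.finTwoArrow (α := ℂ)) (volume.restrict Q2)
    ((volume.restrict Q1).prod (volume.restrict Q1)) := by
  have h := (volume_preserving_finTwoArrow ℂ).restrict_preimage_emb
    (MeasurableEquiv.finTwoArrow (α := ℂ)).measurableEmbedding (Q1 ×ˢ Q1)
  rw [← Q2_eq', Measure.volume_eq_prod, ← Measure.prod_restrict] at h
  exact h

lemma finTwo_eta (x : C2) : ![x 0, x 1] = x := by
  ext j; fin_cases j <;> rfl

lemma integral_Q2 {E : Type*} [NormedAddCommGroup E] [NormedSpace ℝ E] (u : C2 → E) :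
    ∫ x in Q2, u x = ∫ p, u ![p.1, p.2] ∂((volume.restrict Q1).prod (volume.restrict Q1)) := by
  rw [← mp_Q2.integral_comp (MeasurableEquiv.finTwoArrow (α := ℂ)).measurableEmbedding]
  congr 1
  funext x
  have : (MeasurableEquiv.finTwoArrow (α := ℂ)) x = (x 0, x 1) := rfl
  rw [this]
  simp only [finTwo_eta]

lemma integrableOn_Q2_iff {E : Type*} [NormedAddCommGroup E] (u : C2 → E) :
    IntegrableOn u Q2 ↔
      Integrable (fun p : ℂ × ℂ => u ![p.1, p.2]) ((volume.restrict Q1).prod (volume.restrict Q1)) := by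
  rw [← mp_Q2.integrable_comp_emb (MeasurableEquiv.finTwoArrow (α := ℂ)).measurableEmbedding]
  have : (fun p : ℂ × ℂ => u ![p.1, p.2]) ∘ (MeasurableEquiv.finTwoArrow (α := ℂ)) = u := by
    funext x
    have : (MeasurableEquiv.finTwoArrow (α := ℂ)) x = (x 0, x 1) := rfl
    simp only [Function.comp, this, finTwo_eta]
  rw [this]
  rfl

instance : IsProbabilityMeasure (volume.restrict Q2) := ⟨by
  rw [Measure.restrict_apply MeasurableSet.univ, univ_inter, Q2_eq, volume_pi_pi]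
  simp [volume_Q1]⟩

/-- Coordinates functions of the base, integrable on the cell. -/
lemma integrableOn_base {E : Type*} [NormedAddCommGroup E] {k : ℂ → E} (hk : IntegrableOn k Q1) :
    IntegrableOn (fun x : C2 => k (x 1)) Q2 := by
  rw [integrableOn_Q2_iff]
  exact hk.integrable.comp_snd _

lemma integral_base {k : ℂ → ℂ} (_hk : IntegrableOn k Q1) :
    ∫ x in Q2, k (x 1) = ∫ s in Q1, k s := by
  rw [integral_Q2]
  simp only [Matrix.cons_val_one, Matrix.cons_val_fin_one]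
  rw [integral_fun_snd]
  simp

lemma Q2_subset : Q2 ⊆ K2 := fun _ hx j => Q1_subset (hx j)

/-- Continuous functions are integrable against base densities. -/
lemma integrableOn_mul_base {k : ℂ → ℂ} (hk : IntegrableOn k Q1) {u : C2 → ℂ} (hu : Continuous u) :
    IntegrableOn (fun x : C2 => k (x 1) * u x) Q2 := by
  obtain ⟨C, hC⟩ := isCompact_K2.exists_bound_of_continuousOn hu.continuousOn
  refine (integrableOn_base hk).mul_bdd (c := C) hu.aestronglyMeasurable ?_
  rw [ae_restrict_iff' measurableSet_Q2]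
  exact Eventually.of_forall fun x hx => hC x (Q2_subset hx)

lemma integrableOn_cont {u : C2 → ℂ} (hu : Continuous u) : IntegrableOn u Q2 :=
  (hu.continuousOn.integrableOn_compact isCompact_K2).mono_set Q2_subset

/-! ### slices -/

lemma hasFDerivAt_slice0 (z s : ℂ) :
    HasFDerivAt (fun z : ℂ => (![z, s] : C2)) (ContinuousLinearMap.single ℝ (fun _ : Fin 2 => ℂ) 0) z := by
  have h1 : (fun z : ℂ => (![z, s] : C2))
      = fun z => (ContinuousLinearMap.single ℝ (fun _ : Fin 2 => ℂ) 0) z + ![0, s] := by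
    funext z
    ext j; fin_cases j <;> simp
  rw [h1]
  exact ((ContinuousLinearMap.single ℝ (fun _ : Fin 2 => ℂ) 0).hasFDerivAt).add_const _

lemma hasFDerivAt_slice1 (z s : ℂ) :
    HasFDerivAt (fun s : ℂ => (![z, s] : C2)) (ContinuousLinearMap.single ℝ (fun _ : Fin 2 => ℂ) 1) s := by
  have h1 : (fun s : ℂ => (![z, s] : C2))
      = fun s => (ContinuousLinearMap.single ℝ (fun _ : Fin 2 => ℂ) 1) s + ![z, 0] := by
    funext z
    ext j; fin_cases j <;> simp
  rw [h1]
  exact ((ContinuousLinearMap.single ℝ (fun _ : Fin 2 => ℂ) 1).hasFDerivAt).add_const _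

lemma fderiv_slice0 {u : C2 → ℂ} (hu : ContDiff ℝ 1 u) (z s a : ℂ) :
    fderiv ℝ (fun z : ℂ => u ![z, s]) z a = fderiv ℝ u ![z, s] (Pi.single 0 a) := by
  have h := ((hu.differentiable (by norm_num)) ![z, s]).hasFDerivAt.comp z (hasFDerivAt_slice0 z s)
  have h2 : fderiv ℝ (fun z : ℂ => u ![z, s]) z = _ := h.fderiv
  rw [h2]; rfl

lemma fderiv_slice1 {u : C2 → ℂ} (hu : ContDiff ℝ 1 u) (z s a : ℂ) :
    fderiv ℝ (fun s : ℂ => u ![z, s]) s a = fderiv ℝ u ![z, s] (Pi.single 1 a) := by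
  have h := ((hu.differentiable (by norm_num)) ![z, s]).hasFDerivAt.comp s (hasFDerivAt_slice1 z s)
  have h2 : fderiv ℝ (fun s : ℂ => u ![z, s]) s = _ := h.fderiv
  rw [h2]; rfl

lemma contDiff_slice0 {u : C2 → ℂ} (hu : ContDiff ℝ 1 u) (s : ℂ) :
    ContDiff ℝ 1 (fun z : ℂ => u ![z, s]) := by
  refine hu.comp ?_
  rw [contDiff_pi]
  intro j; fin_cases j
  · exact contDiff_id
  · exact contDiff_const

lemma contDiff_slice1 {u : C2 → ℂ} (hu : ContDiff ℝ 1 u) (z : ℂ) :
    ContDiff ℝ 1 (fun s : ℂ => u ![z, s]) := by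
  refine hu.comp ?_
  rw [contDiff_pi]
  intro j; fin_cases j
  · exact contDiff_const
  · exact contDiff_id

lemma periodic_slice0 {u : C2 → ℂ} (hp : ∀ l ∈ Gau2, ∀ x, u (x + l) = u x) (s : ℂ) :
    ∀ l ∈ Gau, ∀ z, u ![z + l, s] = u ![z, s] := by
  intro l hl z
  have h := hp ![l, 0] (by intro j; fin_cases j <;> simp [hl, Gau.zero_mem]) ![z, s]
  rw [← h]
  congr 1
  ext j; fin_cases j <;> simp

lemma periodic_slice1 {u : C2 → ℂ} (hp : ∀ l ∈ Gau2, ∀ x, u (x + l) = u x) (z : ℂ) :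
    ∀ l ∈ Gau, ∀ s, u ![z, s + l] = u ![z, s] := by
  intro l hl s
  have h := hp ![0, l] (by intro j; fin_cases j <;> simp [hl, Gau.zero_mem]) ![z, s]
  rw [← h]
  congr 1
  ext j; fin_cases j <;> simp

lemma cont_fderiv_single {u : C2 → ℂ} (hu : ContDiff ℝ 1 u) (v : C2) :
    Continuous (fun x => fderiv ℝ u x v) :=
  (hu.continuous_fderiv (by norm_num)).clm_apply continuous_const

/-- Derivatives along the fibre integrate to zero against functions on the base. -/
lemma int_base_fderiv0 {k : ℂ → ℂ} (hk : IntegrableOn k Q1) {u : C2 → ℂ} (hu : ContDiff ℝ 1 u)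
    (hp : ∀ l ∈ Gau2, ∀ x, u (x + l) = u x) {a : ℂ} (ha : a = 1 ∨ a = I) :
    ∫ x in Q2, k (x 1) * fderiv ℝ u x (Pi.single 0 a) = 0 := by
  have hint := integrableOn_mul_base hk (cont_fderiv_single hu (Pi.single 0 a))
  rw [integrableOn_Q2_iff] at hint
  rw [integral_Q2, integral_prod_symm _ hint]
  have h1 : ∀ s : ℂ, ∫ z in Q1, k (![z, s] 1) * fderiv ℝ u ![z, s] (Pi.single 0 a) = 0 := by
    intro s
    have h2 : ∀ z : ℂ, k (![z, s] 1) * fderiv ℝ u ![z, s] (Pi.single 0 a)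
        = k s * fderiv ℝ (fun z : ℂ => u ![z, s]) z a := by
      intro z; rw [fderiv_slice0 hu]; rfl
    simp only [h2]
    rw [integral_const_mul]
    rcases ha with rfl | rfl
    · rw [int_fderiv_one (contDiff_slice0 hu s) (periodic_slice0 hp s), mul_zero]
    · rw [int_fderiv_I (contDiff_slice0 hu s) (periodic_slice0 hp s), mul_zero]
  simp only [h1]
  simp

lemma int_fderiv1 {u : C2 → ℂ} (hu : ContDiff ℝ 1 u)
    (hp : ∀ l ∈ Gau2, ∀ x, u (x + l) = u x) {a : ℂ} (ha : a = 1 ∨ a = I) :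
    ∫ x in Q2, fderiv ℝ u x (Pi.single 1 a) = 0 := by
  have hint := integrableOn_cont (cont_fderiv_single hu (Pi.single 1 a))
  rw [integrableOn_Q2_iff] at hint
  rw [integral_Q2, integral_prod _ hint]
  have h1 : ∀ z : ℂ, ∫ s in Q1, fderiv ℝ u ![z, s] (Pi.single 1 a) = 0 := by
    intro z
    simp only [← fderiv_slice1 hu]
    rcases ha with rfl | rfl
    · rw [int_fderiv_one (contDiff_slice1 hu z) (periodic_slice1 hp z)]
    · rw [int_fderiv_I (contDiff_slice1 hu z) (periodic_slice1 hp z)]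
  simp only [h1]
  simp

end Pool.Agent.Lib.Helper82.Ell
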