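import Mathlib

/-!
# Integrability estimates for the logarithmic kernel in the plane
-/

set_option autoImplicit false

open MeasureTheory Complex Set Topology Filter

namespace Pool.Agent.Lib.Helper82.Ell

/-- The truncated Riesz kernel. -/
noncomputable def ker (s r : ℝ) (y : ℂ) : ℝ := (Metric.ball (0:ℂ) r).indicator (fun y => ‖y‖ ^ (-s)) y

lemma ker_nonneg (s r : ℝ) (y : ℂ) : 0 ≤ ker s r y :=
  indicator_nonneg (fun _ _ => by positivity) y

lemma integrable_ker {s : ℝ} (hs : s < 2) (r : ℝ) : Integrable (ker s r) := by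
  unfold ker
  rw [integrable_indicator_iff Metric.isOpen_ball.measurableSet]
  refine integrableOn_ball_of_norm_le_rpow (E := ℂ) (C := 1) (α := s) ?_ ?_ ?_ ?_
  · rw [Complex.finrank_real_complex]; norm_num
  · rw [Complex.finrank_real_complex]; exact_mod_cast hs
  · refine Eventually.of_forall fun x => ?_
    rw [one_mul, Real.norm_of_nonneg (by positivity)]
  · exact (measurable_norm.pow_const _).aestronglyMeasurable

lemma ker_eq {s r : ℝ} {y : ℂ} (h : ‖y‖ < r) : ker s r y = ‖y‖ ^ (-s) := by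
  rw [ker, indicator_of_mem]; simpa using h

/-- Two point singularity. -/
noncomputable def two (c₁ c₂ : ℂ) (s t : ℝ) (x : ℂ) : ℝ :=
  ‖x - c₁‖ ^ (-s) * ‖x - c₂‖ ^ (-s) * (1 + ‖x‖) ^ t

lemma two_nonneg (c₁ c₂ : ℂ) (s t : ℝ) (x : ℂ) : 0 ≤ two c₁ c₂ s t x := by
  unfold two; positivity

lemma measurable_two (c₁ c₂ : ℂ) (s t : ℝ) : Measurable (two c₁ c₂ s t) := by
  unfold two
  fun_prop

theorem integrable_two {c₁ c₂ : ℂ} (hne : c₁ ≠ c₂) {s t : ℝ} (_hs0 : 0 < s) (hs : s < 2)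
    (ht : 0 ≤ t) (hst : 2 < 2 * s - t) : Integrable (two c₁ c₂ s t) := by
  set d := ‖c₁ - c₂‖ with hd
  have hd0 : 0 < d := norm_pos_iff.mpr (sub_ne_zero.mpr hne)
  set R := 2 * (‖c₁‖ + ‖c₂‖) + 1 with hR
  have hc1 := norm_nonneg c₁
  have hc2 := norm_nonneg c₂
  have hR1 : 1 ≤ R := by linarith
  set A := (d / 2) ^ (-s) * (1 + R) ^ t with hA
  have hA0 : 0 ≤ A := by positivity
  have hbound : ∀ x, two c₁ c₂ s t x ≤ A * (ker s (2 * R) (x - c₁) + ker s (2 * R) (x - c₂))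
      + (4:ℝ) ^ (2 * s) * (1 + ‖x‖) ^ (-(2 * s - t)) := by
    intro x
    have hx := norm_nonneg x
    by_cases h : ‖x‖ < R
    · have h1 : ‖x - c₁‖ < 2 * R := (norm_sub_le _ _).trans_lt (by linarith)
      have h2 : ‖x - c₂‖ < 2 * R := (norm_sub_le _ _).trans_lt (by linarith)
      rw [ker_eq h1, ker_eq h2]
      have hpos : 0 ≤ (4:ℝ) ^ (2 * s) * (1 + ‖x‖) ^ (-(2 * s - t)) := by positivity
      have ht' : (1 + ‖x‖) ^ t ≤ (1 + R) ^ t := by
        apply Real.rpow_le_rpow (by positivity) (by linarith) ht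
      have hmax : d / 2 ≤ ‖x - c₁‖ ∨ d / 2 ≤ ‖x - c₂‖ := by
        by_contra hcon
        push Not at hcon
        have : d ≤ ‖x - c₁‖ + ‖x - c₂‖ := by
          rw [hd]
          calc ‖c₁ - c₂‖ = ‖(x - c₂) - (x - c₁)‖ := by congr 1; ring
            _ ≤ ‖x - c₂‖ + ‖x - c₁‖ := norm_sub_le _ _
            _ = _ := add_comm _ _
        linarith [hcon.1, hcon.2]
      have key : ‖x - c₁‖ ^ (-s) * ‖x - c₂‖ ^ (-s)
          ≤ (d / 2) ^ (-s) * (‖x - c₁‖ ^ (-s) + ‖x - c₂‖ ^ (-s)) := by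
        rcases hmax with h3 | h3
        · have : ‖x - c₁‖ ^ (-s) ≤ (d / 2) ^ (-s) :=
            Real.rpow_le_rpow_of_nonpos (by positivity) h3 (by linarith)
          calc ‖x - c₁‖ ^ (-s) * ‖x - c₂‖ ^ (-s) ≤ (d / 2) ^ (-s) * ‖x - c₂‖ ^ (-s) := by gcongr
            _ ≤ _ := by
              have : 0 ≤ ‖x - c₁‖ ^ (-s) := by positivity
              gcongr; linarith
        · have : ‖x - c₂‖ ^ (-s) ≤ (d / 2) ^ (-s) :=
            Real.rpow_le_rpow_of_nonpos (by positivity) h3 (by linarith)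
          calc ‖x - c₁‖ ^ (-s) * ‖x - c₂‖ ^ (-s) ≤ ‖x - c₁‖ ^ (-s) * (d / 2) ^ (-s) := by gcongr
            _ = (d / 2) ^ (-s) * ‖x - c₁‖ ^ (-s) := mul_comm _ _
            _ ≤ _ := by
              have : 0 ≤ ‖x - c₂‖ ^ (-s) := by positivity
              gcongr; linarith
      have : two c₁ c₂ s t x ≤ (d / 2) ^ (-s) * (‖x - c₁‖ ^ (-s) + ‖x - c₂‖ ^ (-s)) * (1 + R) ^ t := by
        unfold two
        gcongr
      calc two c₁ c₂ s t x ≤ _ := this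
        _ = A * (‖x - c₁‖ ^ (-s) + ‖x - c₂‖ ^ (-s)) := by rw [hA]; ring
        _ ≤ _ := by linarith
    · rw [not_lt] at h
      have hk : 0 ≤ A * (ker s (2 * R) (x - c₁) + ker s (2 * R) (x - c₂)) :=
        mul_nonneg hA0 (add_nonneg (ker_nonneg _ _ _) (ker_nonneg _ _ _))
      have h1 : (1 + ‖x‖) / 4 ≤ ‖x - c₁‖ := by
        have := norm_sub_norm_le x c₁
        linarith
      have h2 : (1 + ‖x‖) / 4 ≤ ‖x - c₂‖ := by
        have := norm_sub_norm_le x c₂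
        linarith
      have e1 : ‖x - c₁‖ ^ (-s) ≤ ((1 + ‖x‖) / 4) ^ (-s) :=
        Real.rpow_le_rpow_of_nonpos (by positivity) h1 (by linarith)
      have e2 : ‖x - c₂‖ ^ (-s) ≤ ((1 + ‖x‖) / 4) ^ (-s) :=
        Real.rpow_le_rpow_of_nonpos (by positivity) h2 (by linarith)
      have hp : 0 < 1 + ‖x‖ := by positivity
      have e3 : ((1 + ‖x‖) / 4) ^ (-s) * ((1 + ‖x‖) / 4) ^ (-s) * (1 + ‖x‖) ^ t
          = (4:ℝ) ^ (2 * s) * (1 + ‖x‖) ^ (-(2 * s - t)) := by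
        rw [← Real.rpow_add (by positivity), Real.div_rpow hp.le (by norm_num), div_mul_eq_mul_div,
          ← Real.rpow_add hp, div_eq_mul_inv, ← Real.rpow_neg (by norm_num), mul_comm]
        congr 2 <;> ring
      calc two c₁ c₂ s t x ≤ ((1 + ‖x‖) / 4) ^ (-s) * ((1 + ‖x‖) / 4) ^ (-s) * (1 + ‖x‖) ^ t := by
            unfold two; gcongr
        _ = _ := e3
        _ ≤ _ := by linarith
  have hint : Integrable (fun x => A * (ker s (2 * R) (x - c₁) + ker s (2 * R) (x - c₂))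
      + (4:ℝ) ^ (2 * s) * (1 + ‖x‖) ^ (-(2 * s - t))) := by
    apply Integrable.add
    · exact (((integrable_ker hs _).comp_sub_right c₁).add
        ((integrable_ker hs _).comp_sub_right c₂)).const_mul A
    · apply Integrable.const_mul
      apply integrable_one_add_norm
      rw [Complex.finrank_real_complex]
      exact_mod_cast hst
  refine hint.mono' (measurable_two _ _ _ _).aestronglyMeasurable (Eventually.of_forall fun x => ?_)
  rw [Real.norm_of_nonneg (two_nonneg _ _ _ _ _)]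
  exact hbound x

/-- The flat cone density. -/
noncomputable def hh (c₁ c₂ : ℂ) (x : ℂ) : ℝ := ‖x - c₁‖ ^ (-(8 / 5) : ℝ) * ‖x - c₂‖ ^ (-(8 / 5) : ℝ)

lemma hh_nonneg (c₁ c₂ x : ℂ) : 0 ≤ hh c₁ c₂ x := by unfold hh; positivity

lemma measurable_hh (c₁ c₂ : ℂ) : Measurable (hh c₁ c₂) := by
  unfold hh; fun_prop

/-- The weight. -/
noncomputable def qq (x : ℂ) : ℝ := 1 + (1 / 2) * Real.log (1 + ‖x‖ ^ 2)

lemma one_le_qq (x : ℂ) : 1 ≤ qq x := by
  unfold qq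
  have : 0 ≤ Real.log (1 + ‖x‖ ^ 2) := Real.log_nonneg (by nlinarith [sq_nonneg ‖x‖])
  linarith

lemma qq_pos (x : ℂ) : 0 < qq x := lt_of_lt_of_le one_pos (one_le_qq x)

lemma continuous_qq : Continuous qq := by
  unfold qq
  refine continuous_const.add (continuous_const.mul (Continuous.log (by fun_prop) fun x => ?_))
  positivity

lemma qq_le (x : ℂ) : qq x ≤ 21 * (1 + ‖x‖) ^ (1 / 20 : ℝ) := by
  have hp : 0 < 1 + ‖x‖ := by positivity
  have h1 : Real.log (1 + ‖x‖ ^ 2) ≤ Real.log ((1 + ‖x‖) ^ 2) :=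
    Real.log_le_log (by positivity) (by nlinarith [norm_nonneg x])
  rw [Real.log_pow] at h1
  have h2 : Real.log (1 + ‖x‖) ≤ (1 + ‖x‖) ^ (1 / 20 : ℝ) / (1 / 20 : ℝ) :=
    Real.log_le_rpow_div hp.le (by norm_num)
  have h3 : 1 ≤ (1 + ‖x‖) ^ (1 / 20 : ℝ) :=
    Real.one_le_rpow (by linarith [norm_nonneg x]) (by norm_num)
  unfold qq
  push_cast at h1
  linarith

lemma exp_qq_le (x : ℂ) : Real.exp (qq x / 5) ≤ Real.exp (1 / 5) * (1 + ‖x‖) ^ (1 / 5 : ℝ) := by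
  have hp : 0 < 1 + ‖x‖ := by positivity
  have h1 : Real.log (1 + ‖x‖ ^ 2) ≤ Real.log ((1 + ‖x‖) ^ 2) :=
    Real.log_le_log (by positivity) (by nlinarith [norm_nonneg x])
  rw [Real.log_pow] at h1
  rw [Real.rpow_def_of_pos hp, ← Real.exp_add]
  apply Real.exp_le_exp.mpr
  unfold qq
  push_cast at h1
  linarith

/-- The dominating densities. -/
noncomputable def M1 (c₁ c₂ x : ℂ) : ℝ := hh c₁ c₂ x * Real.exp (qq x / 5) * qq x

noncomputable def M2 (c₁ c₂ x : ℂ) : ℝ := hh c₁ c₂ x * Real.exp (qq x / 5) * qq x ^ 2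

lemma M1_nonneg (c₁ c₂ x : ℂ) : 0 ≤ M1 c₁ c₂ x := by
  have := hh_nonneg c₁ c₂ x
  have := qq_pos x
  unfold M1; positivity

lemma M2_nonneg (c₁ c₂ x : ℂ) : 0 ≤ M2 c₁ c₂ x := by
  have := hh_nonneg c₁ c₂ x
  have := qq_pos x
  unfold M2; positivity

lemma M2_eq (c₁ c₂ x : ℂ) : M2 c₁ c₂ x = M1 c₁ c₂ x * qq x := by
  unfold M1 M2; ring

lemma M1_le_M2 (c₁ c₂ x : ℂ) : M1 c₁ c₂ x ≤ M2 c₁ c₂ x := by
  rw [M2_eq]
  exact le_mul_of_one_le_right (M1_nonneg _ _ _) (one_le_qq x)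

lemma measurable_M1 (c₁ c₂ : ℂ) : Measurable (M1 c₁ c₂) := by
  have h1 := measurable_hh c₁ c₂
  have h2 := continuous_qq.measurable
  unfold M1; fun_prop

lemma measurable_M2 (c₁ c₂ : ℂ) : Measurable (M2 c₁ c₂) := by
  have h1 := measurable_hh c₁ c₂
  have h2 := continuous_qq.measurable
  unfold M2; fun_prop

/-- The constant. -/
noncomputable def K0 : ℝ := Real.exp (1 / 5) * 441

lemma K0_pos : 0 < K0 := by unfold K0; positivity

lemma M2_le (c₁ c₂ x : ℂ) : M2 c₁ c₂ x ≤ K0 * two c₁ c₂ (8 / 5) (3 / 10) x := by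
  have hp : 0 < 1 + ‖x‖ := by positivity
  have hq : qq x ^ 2 ≤ 441 * (1 + ‖x‖) ^ (1 / 10 : ℝ) := by
    calc qq x ^ 2 ≤ (21 * (1 + ‖x‖) ^ (1 / 20 : ℝ)) ^ 2 := by
          gcongr
          · exact (qq_pos x).le
          · exact qq_le x
      _ = 441 * (1 + ‖x‖) ^ (1 / 10 : ℝ) := by
          rw [mul_pow, ← Real.rpow_natCast ((1 + ‖x‖) ^ (1 / 20 : ℝ)), ← Real.rpow_mul hp.le]
          norm_num
  have he := exp_qq_le x
  have hh0 := hh_nonneg c₁ c₂ x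
  calc M2 c₁ c₂ x ≤ hh c₁ c₂ x * (Real.exp (1 / 5) * (1 + ‖x‖) ^ (1 / 5 : ℝ))
        * (441 * (1 + ‖x‖) ^ (1 / 10 : ℝ)) := by
        unfold M2; gcongr
    _ = K0 * (hh c₁ c₂ x * ((1 + ‖x‖) ^ (1 / 5 : ℝ) * (1 + ‖x‖) ^ (1 / 10 : ℝ))) := by
        unfold K0; ring
    _ = K0 * two c₁ c₂ (8 / 5) (3 / 10) x := by
        rw [← Real.rpow_add hp]
        unfold two hh
        norm_num

lemma integrable_M2 {c₁ c₂ : ℂ} (hne : c₁ ≠ c₂) : Integrable (M2 c₁ c₂) := by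
  have h : Integrable (fun x => K0 * two c₁ c₂ (8 / 5) (3 / 10) x) :=
    (integrable_two hne (by norm_num) (by norm_num) (by norm_num) (by norm_num)).const_mul _
  refine h.mono' (measurable_M2 _ _).aestronglyMeasurable (Eventually.of_forall fun x => ?_)
  rw [Real.norm_of_nonneg (M2_nonneg _ _ _)]
  exact M2_le _ _ _

lemma integrable_M1 {c₁ c₂ : ℂ} (hne : c₁ ≠ c₂) : Integrable (M1 c₁ c₂) := by
  refine (integrable_M2 hne).mono' (measurable_M1 _ _).aestronglyMeasurable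
    (Eventually.of_forall fun x => ?_)
  rw [Real.norm_of_nonneg (M1_nonneg _ _ _)]
  exact M1_le_M2 _ _ _

lemma M2_pow_le (c₁ c₂ x : ℂ) :
    M2 c₁ c₂ x ^ (9 / 8 : ℝ) ≤ K0 ^ (9 / 8 : ℝ) * two c₁ c₂ (9 / 5) (27 / 80) x := by
  have hp : 0 < 1 + ‖x‖ := by positivity
  calc M2 c₁ c₂ x ^ (9 / 8 : ℝ) ≤ (K0 * two c₁ c₂ (8 / 5) (3 / 10) x) ^ (9 / 8 : ℝ) :=
        Real.rpow_le_rpow (M2_nonneg _ _ _) (M2_le _ _ _) (by norm_num)
    _ = K0 ^ (9 / 8 : ℝ) * two c₁ c₂ (8 / 5) (3 / 10) x ^ (9 / 8 : ℝ) :=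
        Real.mul_rpow K0_pos.le (two_nonneg _ _ _ _ _)
    _ = _ := by
        congr 1
        unfold two
        rw [Real.mul_rpow (by positivity) (by positivity), Real.mul_rpow (by positivity) (by positivity),
          ← Real.rpow_mul (norm_nonneg _), ← Real.rpow_mul (norm_nonneg _), ← Real.rpow_mul hp.le]
        norm_num

/-- Uniform bound for the singular integral. -/
theorem exists_bound {c₁ c₂ : ℂ} (hne : c₁ ≠ c₂) : ∃ C : ℝ, 0 ≤ C ∧ ∀ z : ℂ,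
    Integrable (fun x => ‖z - x‖ ^ (-(1 / 5) : ℝ) * M2 c₁ c₂ x) ∧
      ∫ x, ‖z - x‖ ^ (-(1 / 5) : ℝ) * M2 c₁ c₂ x ≤ C := by
  set G : ℂ → ℂ → ℝ := fun z x => M2 c₁ c₂ x + (ker (9 / 5) 1 (x - z) +
    K0 ^ (9 / 8 : ℝ) * two c₁ c₂ (9 / 5) (27 / 80) x) with hG
  have i1 := integrable_M2 hne
  have i2 : Integrable (ker (9 / 5) 1) := integrable_ker (by norm_num) 1
  have i3 : Integrable (fun x => K0 ^ (9 / 8 : ℝ) * two c₁ c₂ (9 / 5) (27 / 80) x) :=
    (integrable_two hne (by norm_num) (by norm_num) (by norm_num) (by norm_num)).const_mul _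
  have hGi : ∀ z, Integrable (G z) := fun z => i1.add ((i2.comp_sub_right z).add i3)
  have hle : ∀ z x, ‖z - x‖ ^ (-(1 / 5) : ℝ) * M2 c₁ c₂ x ≤ G z x := by
    intro z x
    have hM := M2_nonneg c₁ c₂ x
    have h3 : M2 c₁ c₂ x ^ (9 / 8 : ℝ) ≤ K0 ^ (9 / 8 : ℝ) * two c₁ c₂ (9 / 5) (27 / 80) x :=
      M2_pow_le _ _ _
    have h30 : 0 ≤ M2 c₁ c₂ x ^ (9 / 8 : ℝ) := by positivity
    have hk := ker_nonneg (9 / 5) 1 (x - z)
    by_cases h : ‖z - x‖ < 1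
    · have hk' : ker (9 / 5) 1 (x - z) = ‖z - x‖ ^ (-(9 / 5) : ℝ) := by
        rw [ker_eq (by rwa [norm_sub_rev]), norm_sub_rev]
      have hy := Real.young_inequality_of_nonneg (a := ‖z - x‖ ^ (-(1 / 5) : ℝ))
        (b := M2 c₁ c₂ x) (p := 9) (q := 9 / 8) (by positivity) hM
        (Real.holderConjugate_iff.mpr ⟨by norm_num, by norm_num⟩)
      have e : (‖z - x‖ ^ (-(1 / 5) : ℝ)) ^ (9:ℝ) = ‖z - x‖ ^ (-(9 / 5) : ℝ) := by
        rw [← Real.rpow_mul (norm_nonneg _)]; norm_num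
      rw [e] at hy
      have hpos : 0 ≤ ‖z - x‖ ^ (-(9 / 5) : ℝ) := by positivity
      simp only [hG]
      rw [hk']
      have : ‖z - x‖ ^ (-(9 / 5) : ℝ) / 9 ≤ ‖z - x‖ ^ (-(9 / 5) : ℝ) := by linarith
      have : M2 c₁ c₂ x ^ (9 / 8 : ℝ) / (9 / 8) ≤ M2 c₁ c₂ x ^ (9 / 8 : ℝ) := by
        rw [div_le_iff₀ (by norm_num)]; linarith
      linarith
    · rw [not_lt] at h
      have h1 : ‖z - x‖ ^ (-(1 / 5) : ℝ) ≤ 1 := Real.rpow_le_one_of_one_le_of_nonpos h (by norm_num)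
      have h2 : ‖z - x‖ ^ (-(1 / 5) : ℝ) * M2 c₁ c₂ x ≤ M2 c₁ c₂ x := by
        calc _ ≤ 1 * M2 c₁ c₂ x := by gcongr
          _ = _ := one_mul _
      simp only [hG]
      linarith
  have hmeas : ∀ z : ℂ, Measurable (fun x => ‖z - x‖ ^ (-(1 / 5) : ℝ) * M2 c₁ c₂ x) := by
    intro z
    have := measurable_M2 c₁ c₂
    fun_prop
  have hint : ∀ z, Integrable (fun x => ‖z - x‖ ^ (-(1 / 5) : ℝ) * M2 c₁ c₂ x) := by
    intro z
    refine (hGi z).mono' (hmeas z).aestronglyMeasurable (Eventually.of_forall fun x => ?_)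
    rw [Real.norm_of_nonneg (mul_nonneg (by positivity) (M2_nonneg _ _ _))]
    exact hle z x
  have hint3 : ∀ z, ∫ x, G z x = (∫ x, M2 c₁ c₂ x) + ((∫ x, ker (9 / 5) 1 x)
      + ∫ x, K0 ^ (9 / 8 : ℝ) * two c₁ c₂ (9 / 5) (27 / 80) x) := by
    intro z
    have i4 : Integrable (fun x => ker (9 / 5) 1 (x - z)) := i2.comp_sub_right z
    have i5 : Integrable (fun x => ker (9 / 5) 1 (x - z)
      + K0 ^ (9 / 8 : ℝ) * two c₁ c₂ (9 / 5) (27 / 80) x) := i4.add i3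
    rw [hG]
    simp only
    rw [integral_add i1 i5, integral_add i4 i3, integral_sub_right_eq_self (ker (9 / 5) 1) z]
  have hint2 : ∀ z, ∫ x, G z x = ∫ x, G 0 x := by
    intro z
    rw [hint3 z, hint3 0]
  refine ⟨∫ x, G 0 x, ?_, fun z => ⟨hint z, ?_⟩⟩
  · apply integral_nonneg
    intro x
    exact (mul_nonneg (by positivity) (M2_nonneg _ _ _)).trans (hle 0 x)
  · rw [← hint2 z]
    exact integral_mono (hint z) (hGi z) (hle z)

end Pool.Agent.Lib.Helper82.Ell
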