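import Pool.Agent.Lib.Helper82.Ell.Defs

/-!
# Automorphisms of `X` lift to affine maps
-/

set_option autoImplicit false

open MeasureTheory Complex Set Topology Filter
open scoped ContDiff ComplexConjugate

namespace Pool.Agent.Lib.Helper82.Ell

lemma pr_eq_iff {x y : C2} : pr x = pr y ↔ y - x ∈ Gau2 := by
  rw [pr, pr, QuotientAddGroup.eq, sub_eq_neg_add]

lemma prE_eq_iff {x y : ℂ} : prE x = prE y ↔ y - x ∈ Gau := by
  rw [prE, prE, QuotientAddGroup.eq, sub_eq_neg_add]

lemma Gau_norm {z : ℂ} (hz : z ∈ Gau) (h : ‖z‖ < 1) : z = 0 := by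
  obtain ⟨m, n, rfl⟩ := hz
  have h1 : ‖(m : ℂ) + n * I‖ ^ 2 < 1 := by nlinarith [norm_nonneg ((m : ℂ) + n * I)]
  rw [← Complex.normSq_eq_norm_sq, Complex.normSq_apply] at h1
  simp at h1
  have h2 : (m * m + n * n : ℤ) < 1 := by exact_mod_cast h1
  have h3 : m = 0 := by nlinarith [mul_self_nonneg m, mul_self_nonneg n]
  have h4 : n = 0 := by nlinarith [mul_self_nonneg m, mul_self_nonneg n]
  simp [h3, h4]

lemma Gau2_norm {x : C2} (hx : x ∈ Gau2) (h : ‖x‖ < 1) : x = 0 := by
  funext j
  exact Gau_norm (hx j) ((norm_le_pi_norm x j).trans_lt h)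

lemma isDiscrete_Gau2 : IsDiscrete (Gau2 : Set C2) := by
  refine ⟨?_⟩
  rw [discreteTopology_iff_isOpen_singleton]
  rintro ⟨x, hx⟩
  rw [Metric.isOpen_singleton_iff]
  refine ⟨1, one_pos, ?_⟩
  rintro ⟨y, hy⟩ hd
  rw [Subtype.dist_eq, dist_eq_norm] at hd
  have := Gau2_norm (Gau2.sub_mem hy hx) hd
  exact Subtype.ext (sub_eq_zero.mp this)

lemma isCoveringMap_pr : IsCoveringMap pr :=
  (AddSubgroup.isAddQuotientCoveringMap_of_comm Gau2 isDiscrete_Gau2).isCoveringMap

lemma continuous_pr : Continuous pr := isCoveringMap_pr.continuous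

/-- If `u` is continuous at `p` with values in the lattice near `p`, then it is locally constant. -/
lemma eventually_const {u : C2 → C2} {p : C2} (hc : ContinuousAt u p)
    (hm : ∀ᶠ x in 𝓝 p, u x ∈ Gau2) : ∀ᶠ x in 𝓝 p, u x = u p := by
  have h1 : ∀ᶠ x in 𝓝 p, ‖u x - u p‖ < 1 := by
    have := hc.eventually (Metric.ball_mem_nhds (u p) one_pos)
    filter_upwards [this] with x hx
    rwa [← dist_eq_norm]
  filter_upwards [h1, hm] with x hx hx'
  exact sub_eq_zero.mp (Gau2_norm (Gau2.sub_mem hx' hm.self_of_nhds) hx)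

lemma const_of_mem {u : C2 → C2} (hc : Continuous u) (hm : ∀ x, u x ∈ Gau2) (x y : C2) :
    u x = u y := by
  have h : IsLocallyConstant u := by
    rw [IsLocallyConstant.iff_eventually_eq]
    intro x
    exact eventually_const hc.continuousAt (Eventually.of_forall hm)
  exact h.apply_eq_of_preconnectedSpace x y

lemma lift_unique {f : XX → XX} {F G : C2 → C2} {p : C2} (hF : LiftAt f F p) (hG : ContinuousAt G p)
    (hG' : ∀ x, pr (G x) = f (pr x)) : ∀ᶠ x in 𝓝 p, G x = F x + (G p - F p) := by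
  have h1 : ContinuousAt (fun x => G x - F x) p :=
    hG.sub hF.self_of_nhds.1.continuousAt
  have h2 : ∀ᶠ x in 𝓝 p, G x - F x ∈ Gau2 := by
    filter_upwards [hF] with x hx
    rw [← pr_eq_iff, hx.2, hG']
  filter_upwards [eventually_const h1 h2] with x hx
  rw [← hx]; abel

/-- Global holomorphic lifts. -/
lemma exists_lift {f : XX → XX} (hf : HoloX f) :
    ∃ F : C2 → C2, Differentiable ℂ F ∧ ∀ x, pr (F x) = f (pr x) := by
  have hc : Continuous (fun x => f (pr x)) := by
    rw [continuous_iff_continuousAt]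
    intro p
    obtain ⟨F, hF⟩ := hf p
    have h1 : ContinuousAt (fun x => pr (F x)) p :=
      continuous_pr.continuousAt.comp hF.self_of_nhds.1.continuousAt
    refine h1.congr ?_
    filter_upwards [hF] with x hx using hx.2
  obtain ⟨e₀, he₀⟩ : ∃ e₀ : C2, pr e₀ = f (pr 0) := QuotientAddGroup.mk_surjective _
  obtain ⟨F, ⟨-, hF⟩, -⟩ := isCoveringMap_pr.existsUnique_continuousMap_lifts
    ⟨fun x => f (pr x), hc⟩ (0 : C2) e₀ he₀
  have hF' : ∀ x, pr (F x) = f (pr x) := fun x => congrFun hF x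
  refine ⟨F, fun p => ?_, hF'⟩
  obtain ⟨G, hG⟩ := hf p
  have h1 := lift_unique hG F.continuous.continuousAt hF'
  have h2 : DifferentiableAt ℂ (fun x => G x + (F p - G p)) p :=
    hG.self_of_nhds.1.add_const _
  exact h2.congr_of_eventuallyEq h1

/-- The closed unit cell. -/
def K2 : Set C2 := {x | ∀ j, x j ∈ (Icc (0 : ℝ) 1 ×ℂ Icc (0 : ℝ) 1)}

lemma isCompact_K2 : IsCompact K2 := by
  have h : K2 = Set.pi univ fun _ => (Icc (0 : ℝ) 1 ×ℂ Icc (0 : ℝ) 1) := by
    ext x; simp [K2]
  rw [h]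
  exact isCompact_univ_pi fun _ => isCompact_Icc.reProdIm isCompact_Icc

/-- reduction to the unit cell in `ℂ` -/
lemma exists_Gau (z : ℂ) : ∃ l ∈ Gau, z + l ∈ (Icc (0 : ℝ) 1 ×ℂ Icc (0 : ℝ) 1) := by
  refine ⟨(-⌊z.re⌋ : ℤ) + (-⌊z.im⌋ : ℤ) * I, ⟨_, _, rfl⟩, ?_⟩
  rw [Complex.mem_reProdIm]
  simp only [Int.cast_neg, Complex.add_re, Complex.neg_re, Complex.intCast_re, Complex.mul_re,
    Complex.I_re, mul_zero, Complex.neg_im, Complex.intCast_im, neg_zero, Complex.I_im, mul_one,
    sub_self, add_zero, Complex.add_im, Complex.mul_im, zero_add]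
  have h1 := Int.floor_le z.re
  have h2 := Int.lt_floor_add_one z.re
  have h3 := Int.floor_le z.im
  have h4 := Int.lt_floor_add_one z.im
  constructor
  · constructor <;> linarith
  · constructor <;> linarith

lemma exists_Gau2 (x : C2) : ∃ l ∈ Gau2, x + l ∈ K2 := by
  choose l hl hl' using fun j => exists_Gau (x j)
  exact ⟨l, hl, hl'⟩

/-- A holomorphic lattice periodic map is constant. -/
lemma const_of_periodic {G : C2 → C2} (hG : Differentiable ℂ G)
    (hp : ∀ l ∈ Gau2, ∀ x, G (x + l) = G x) (x y : C2) : G x = G y := by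
  apply hG.apply_eq_apply_of_bounded
  have h1 : range G ⊆ G '' K2 := by
    rintro _ ⟨x, rfl⟩
    obtain ⟨l, hl, hx⟩ := exists_Gau2 x
    exact ⟨x + l, hx, hp l hl x⟩
  exact (isCompact_K2.image hG.continuous).isBounded.subset h1

/-- Structure of the lifts of holomorphic maps `X → X`. -/
theorem lift_affine {f : XX → XX} (hf : HoloX f) :
    ∃ (F : C2 → C2) (A : C2 →L[ℂ] C2), (∀ x, F x = F 0 + A x) ∧ (∀ x, pr (F x) = f (pr x)) ∧
      (∀ l ∈ Gau2, A l ∈ Gau2) ∧ ∀ (p : C2) (G : C2 → C2), LiftAt f G p → fderiv ℂ G p = A := by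
  obtain ⟨F, hF, hF'⟩ := exists_lift hf
  have h1 : ∀ l ∈ Gau2, ∀ x, F (x + l) - F x = F l - F 0 := by
    intro l hl x
    have h2 : Continuous (fun x => F (x + l) - F x) :=
      (hF.continuous.comp (continuous_id.add continuous_const)).sub hF.continuous
    have h3 : ∀ x, F (x + l) - F x ∈ Gau2 := by
      intro x
      rw [← pr_eq_iff, hF', hF']
      congr 1
      rw [pr_eq_iff]; simpa using hl
    have h4 := const_of_mem h2 h3 x 0
    simpa using h4
  have h2 : ∀ x y, F (x + y) - F x = F y - F 0 := by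
    intro x y
    have h3 : Differentiable ℂ (fun x => F (x + y) - F x) :=
      (hF.comp (differentiable_id.add_const y)).sub hF
    have h4 := const_of_periodic h3 (fun l hl x => by
      have e1 := h1 l hl (x + y)
      have e2 := h1 l hl x
      have e3 : x + l + y = x + y + l := by abel
      simp only [e3]
      have e4 : F (x + y + l) = F (x + y) + (F l - F 0) := by rw [← e1]; abel
      have e5 : F (x + l) = F x + (F l - F 0) := by rw [← e2]; abel
      rw [e4, e5]; abel) x 0
    simpa using h4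
  set A := fderiv ℂ F 0 with hA
  have h3 : ∀ x, fderiv ℂ F x = A := by
    intro x
    have e1 : F = fun u => F (u - x) + (F x - F 0) := by
      funext u
      have := h2 (u - x) x
      rw [sub_add_cancel] at this
      rw [← this]; abel
    have e2 : HasFDerivAt (fun u : C2 => F (u - x)) A x := by
      have e3 : HasFDerivAt F A (x - x) := by rw [sub_self]; exact (hF 0).hasFDerivAt
      have e4 : HasFDerivAt (fun u : C2 => u - x) (ContinuousLinearMap.id ℂ C2) x :=
        (hasFDerivAt_id (𝕜 := ℂ) x).sub_const x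
      exact HasFDerivAt.comp (g := F) (f := fun u : C2 => u - x) x e3 e4
    have e5 := e2.add_const (F x - F 0)
    rw [← e1] at e5
    exact e5.fderiv
  have h4 : ∀ x, F x = F 0 + A x := by
    intro x
    have e1 : Differentiable ℂ (fun x => F x - A x) := hF.sub A.differentiable
    have e2 : ∀ x, fderiv ℂ (fun x => F x - A x) x = 0 := by
      intro x
      rw [fderiv_fun_sub (hF x) A.differentiableAt, h3, A.fderiv, sub_self]
    have e3 := is_const_of_fderiv_eq_zero e1 e2 x 0
    simp only [map_zero, sub_zero] at e3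
    rw [← e3]; abel
  refine ⟨F, A, h4, hF', fun l hl => ?_, fun p G hG => ?_⟩
  · have e1 : A l = F l - F 0 := by rw [h4 l]; abel
    rw [e1, ← pr_eq_iff, hF', hF']
    congr 1
    rw [pr_eq_iff]; simpa using hl
  · have e1 := lift_unique hG hF.continuous.continuousAt hF'
    have e2 : ∀ᶠ x in 𝓝 p, G x = F x + (G p - F p) := by
      filter_upwards [e1] with x hx
      rw [hx]; abel
    have e3 : fderiv ℂ G p = fderiv ℂ (fun x => F x + (G p - F p)) p := Filter.EventuallyEq.fderiv_eq e2
    rw [e3, fderiv_add_const, h3]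

end Pool.Agent.Lib.Helper82.Ell
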