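import Pool.Agent.Lib.Helper82.Ell.Curr
import Pool.Agent.Lib.Helper82.Ell.Chain

/-!
# The sheared product metrics are semi-flat cscK metrics
-/

set_option autoImplicit false

open MeasureTheory Complex Set Topology Filter
open scoped ContDiff ComplexConjugate
open Pool.Agent.Lib.Helper82.Mob

namespace Pool.Agent.Lib.Helper82.Ell

variable {R : ℂ → ℝ} {c : ℝ} {S : Set ℂ}

/-- The derivative of a function of the base coordinate. -/
lemma fderiv_base {v : ℂ → ℂ} {x : C2} (hv : DifferentiableAt ℝ v (x 1)) (w : C2) :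
    fderiv ℝ (fun y : C2 => v (y 1)) x w = fderiv ℝ v (x 1) (w 1) := by
  have h1 : HasFDerivAt (fun y : C2 => y 1) (ContinuousLinearMap.proj (R := ℝ) (φ := fun _ : Fin 2 => ℂ) 1) x :=
    (ContinuousLinearMap.proj (R := ℝ) (φ := fun _ : Fin 2 => ℂ) 1).hasFDerivAt
  have h2 := hv.hasFDerivAt.comp x h1
  have h3 : fderiv ℝ (fun y : C2 => v (y 1)) x = _ := h2.fderiv
  rw [h3]; rfl

lemma dd0_base {v : ℂ → ℂ} {x : C2} (hv : DifferentiableAt ℝ v (x 1)) :
    dd 0 (fun y : C2 => v (y 1)) x = 0 := by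
  simp only [dd, dirD, fderiv_base hv]; simp

lemma ddb0_base {v : ℂ → ℂ} {x : C2} (hv : DifferentiableAt ℝ v (x 1)) :
    ddb 0 (fun y : C2 => v (y 1)) x = 0 := by
  simp only [ddb, dirD, fderiv_base hv]; simp

lemma dd1_base {v : ℂ → ℂ} {x : C2} (hv : DifferentiableAt ℝ v (x 1)) :
    dd 1 (fun y : C2 => v (y 1)) x = dz v (x 1) := by
  simp only [dd, dirD, fderiv_base hv, dz]; simp

lemma ddb1_base {v : ℂ → ℂ} {x : C2} (hv : DifferentiableAt ℝ v (x 1)) :
    ddb 1 (fun y : C2 => v (y 1)) x = dzb v (x 1) := by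
  simp only [ddb, dirD, fderiv_base hv, dzb]; simp

lemma dd_congr {f g : C2 → ℂ} {x : C2} (h : f =ᶠ[𝓝 x] g) (j : Fin 2) : dd j f x = dd j g x := by
  simp only [dd, dirD, h.fderiv_eq]

lemma ddb_congr {f g : C2 → ℂ} {x : C2} (h : f =ᶠ[𝓝 x] g) (j : Fin 2) : ddb j f x = ddb j g x := by
  simp only [ddb, dirD, h.fderiv_eq]

lemma dd_const (a : ℂ) (j : Fin 2) (x : C2) : dd j (fun _ => a) x = 0 := by simp [dd, dirD]

lemma ddb_const (a : ℂ) (j : Fin 2) (x : C2) : ddb j (fun _ => a) x = 0 := by simp [ddb, dirD]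

/-- Assumptions on the density on the base. -/
structure Base (R : ℂ → ℝ) (S : Set ℂ) : Prop where
  per : ∀ l ∈ Gau, ∀ s, R (s + l) = R s
  perS : ∀ l ∈ Gau, ∀ s, s + l ∈ S ↔ s ∈ S
  iso : ∀ s, ∀ᶠ x in 𝓝[≠] s, x ∉ S
  opn : IsOpen Sᶜ
  smooth : ContDiffOn ℝ ∞ R Sᶜ
  pos : ∀ s ∉ S, 0 < R s
  nonneg : ∀ s, 0 ≤ R s
  pde : ∀ s ∉ S, dzb (dz (fun w => ((Real.log (R w) : ℝ) : ℂ))) s = (3 / 2) * R s
  int : IntegrableOn R Q1

/-- The bad points of the base. -/
def PP (S : Set ℂ) : Set EE := prE '' S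

lemma mem_PP (h : Base R S) {s : ℂ} : prE s ∈ PP S ↔ s ∈ S := by
  constructor
  · rintro ⟨t, ht, hts⟩
    have h1 := prE_eq_iff.mp hts
    have h2 := (h.perS _ h1 t).mpr ht
    rwa [add_sub_cancel] at h2
  · exact fun hs => ⟨s, hs, rfl⟩

lemma Off_eq (h : Base R S) : Off (PP S) = {x : C2 | x 1 ∉ S} := by
  ext x
  change Phi (pr x) ∉ PP S ↔ x 1 ∉ S
  rw [Phi_pr, mem_PP h]

lemma mem_Off (h : Base R S) {x : C2} : x ∈ Off (PP S) ↔ x 1 ∉ S := by
  rw [Off_eq h]; rfl

lemma isOpen_Off (h : Base R S) : IsOpen (Off (PP S)) := by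
  rw [Off_eq h]
  have e : {x : C2 | x 1 ∉ S} = (fun x : C2 => x 1) ⁻¹' Sᶜ := rfl
  rw [e]
  exact h.opn.preimage (continuous_apply (1 : Fin 2))

lemma finite_PP (h : Base R S) (hfin : ∀ K : Set ℂ, IsCompact K → (S ∩ K).Finite) : (PP S).Finite := by
  have h1 : PP S ⊆ prE '' (S ∩ (Icc (0 : ℝ) 1 ×ℂ Icc (0 : ℝ) 1)) := by
    rintro _ ⟨s, hs, rfl⟩
    obtain ⟨l, hl, hl'⟩ := exists_Gau s
    refine ⟨s + l, ⟨(h.perS l hl s).mpr hs, hl'⟩, ?_⟩
    rw [prE_eq_iff]
    have : s - (s + l) = -l := by ring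
    rw [this]; exact Gau.neg_mem hl
  exact ((hfin _ (isCompact_Icc.reProdIm isCompact_Icc)).image _).subset h1

lemma det_gc (h : Base R S) (x : C2) : (mat (gc R c) (pr x)).det = ((R (x 1) / 2 : ℝ) : ℂ) := by
  rw [Matrix.det_fin_two]
  simp only [mat, Matrix.of_apply]
  rw [gc00, gc01, gc10, gc11' h.per]
  push_cast; ring

lemma contDiffAt_logR (h : Base R S) {s : ℂ} (hs : s ∉ S) :
    ContDiffAt ℝ ∞ (fun w => ((Real.log (R w / 2) : ℝ) : ℂ)) s := by
  have h1 : ContDiffAt ℝ ∞ R s := h.smooth.contDiffAt (h.opn.mem_nhds hs)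
  have h2 : ContDiffAt ℝ ∞ (fun w => Real.log (R w / 2)) s :=
    (h1.div_const 2).log (by have := h.pos s hs; positivity)
  exact Complex.ofRealCLM.contDiff.contDiffAt.comp s h2

lemma pde_half (h : Base R S) {s : ℂ} (hs : s ∉ S) :
    dzb (dz (fun w => ((Real.log (R w / 2) : ℝ) : ℂ))) s = (3 / 2) * R s := by
  rw [← h.pde s hs]
  have h1 : ∀ x ∉ S, dz (fun w => ((Real.log (R w / 2) : ℝ) : ℂ)) x
      = dz (fun w => ((Real.log (R w) : ℝ) : ℂ)) x := by
    intro x hx
    have h2 : (fun w => ((Real.log (R w / 2) : ℝ) : ℂ)) =ᶠ[𝓝 x]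
        fun w => ((Real.log (R w) : ℝ) : ℂ) - ((Real.log 2 : ℝ) : ℂ) := by
      filter_upwards [h.opn.mem_nhds hx] with y hy
      rw [Real.log_div (h.pos y hy).ne' (by norm_num)]
      push_cast; ring
    simp only [dz]
    rw [h2.fderiv_eq, fderiv_sub_const]
  have h3 : dz (fun w => ((Real.log (R w / 2) : ℝ) : ℂ)) =ᶠ[𝓝 s]
      dz (fun w => ((Real.log (R w) : ℝ) : ℂ)) := by
    filter_upwards [h.opn.mem_nhds hs] with x hx using h1 x hx
  rw [dzb, dzb, h3.fderiv_eq]

lemma differentiableAt_dz_logR (h : Base R S) {s : ℂ} (hs : s ∉ S) :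
    DifferentiableAt ℝ (dz (fun w => ((Real.log (R w / 2) : ℝ) : ℂ))) s := by
  have h1 : ContDiffAt ℝ 1 (fderiv ℝ (fun w => ((Real.log (R w / 2) : ℝ) : ℂ))) s :=
    (contDiffAt_infty.mp (contDiffAt_logR h hs) 2).fderiv_right (by norm_num)
  have h2 : ContDiffAt ℝ 1 (dz (fun w => ((Real.log (R w / 2) : ℝ) : ℂ))) s := by
    unfold dz
    exact contDiffAt_const.mul ((h1.clm_apply contDiffAt_const).sub
      (contDiffAt_const.mul (h1.clm_apply contDiffAt_const)))
  exact h2.differentiableAt (by norm_num)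

lemma dd_logdet (h : Base R S) {x : C2} (hx : x 1 ∉ S) (j : Fin 2) :
    dd j (fun y => ((Real.log (mat (gc R c) (pr y)).det.re : ℝ) : ℂ)) =ᶠ[𝓝 x]
      fun y => if j = 1 then dz (fun w => ((Real.log (R w / 2) : ℝ) : ℂ)) (y 1) else 0 := by
  have h0 : (fun y : C2 => ((Real.log (mat (gc R c) (pr y)).det.re : ℝ) : ℂ))
      = fun y => (fun w => ((Real.log (R w / 2) : ℝ) : ℂ)) (y 1) := by
    funext y
    rw [det_gc h, Complex.ofReal_re]
  rw [h0]
  have hn : ∀ᶠ y in 𝓝 x, y 1 ∉ S :=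
    (continuous_apply (1 : Fin 2)).continuousAt.eventually (h.opn.mem_nhds hx)
  filter_upwards [hn] with y hy
  have hd := (contDiffAt_logR h hy).differentiableAt (by simp)
  fin_cases j
  · rw [if_neg (by decide)]
    exact dd0_base hd
  · rw [if_pos (by decide)]
    exact dd1_base hd

lemma ric_eq (h : Base R S) {x : C2} (hx : x 1 ∉ S) (j k : Fin 2) :
    ric (gc R c) j k x = if j = 1 ∧ k = 1 then -((3 / 2) * (R (x 1) : ℂ)) else 0 := by
  rw [ric, ddb_congr (dd_logdet h hx j)]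
  have hd := differentiableAt_dz_logR h hx
  fin_cases j
  · simp only [Fin.zero_eta, Fin.isValue, zero_ne_one, if_false, false_and]
    rw [ddb_const, neg_zero]
  · fin_cases k
    · simp only [Fin.mk_one, Fin.isValue, if_true, Fin.zero_eta, zero_ne_one, and_false, if_false]
      rw [ddb0_base hd, neg_zero]
    · simp only [Fin.mk_one, Fin.isValue, if_true, and_self]
      rw [ddb1_base hd, pde_half h hx]

lemma scal_gc (h : Base R S) {x : C2} (hx : x 1 ∉ S) : scal (gc R c) x = ((-3 : ℝ) : ℂ) := by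
  have hR : (R (x 1) : ℂ) ≠ 0 := by exact_mod_cast (h.pos _ hx).ne'
  rw [scal]
  simp only [Fin.sum_univ_two, ric_eq h hx]
  simp only [Fin.isValue, zero_ne_one, false_and, if_false, mul_zero, and_false,
    and_self, if_true, zero_add, add_zero]
  rw [Matrix.inv_def, det_gc h, Matrix.smul_apply, Matrix.adjugate_fin_two]
  simp only [Matrix.of_apply, Matrix.cons_val', Matrix.cons_val_one, Matrix.cons_val_fin_one,
    mat, smul_eq_mul, Ring.inverse_eq_inv']
  rw [gc00]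
  push_cast
  field_simp

theorem metric_gc (h : Base R S) : IsSemiflatCscKMetric (PP S) (-3) 1 (gc R c) where
  smooth := by
    intro j k
    have hc : ∀ a : ℂ, ContDiffOn ℝ ∞ (fun _ : C2 => a) (Off (PP S)) := fun a => contDiffOn_const
    fin_cases j <;> fin_cases k
    · exact hc _
    · exact hc _
    · exact hc _
    · have e : (fun x : C2 => gc R c 1 1 (pr x)) = fun x => (c : ℂ) ^ 2 / 2 + (R (x 1) : ℂ) := by
        funext x; exact gc11' h.per x
      change ContDiffOn ℝ ∞ (fun x : C2 => gc R c 1 1 (pr x)) (Off (PP S))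
      rw [e]
      refine (hc _).add ?_
      have h1 : ContDiffOn ℝ ∞ (fun s : ℂ => (R s : ℂ)) Sᶜ :=
        Complex.ofRealCLM.contDiff.comp_contDiffOn h.smooth
      refine h1.comp (contDiff_apply ℝ ℂ (1 : Fin 2)).contDiffOn ?_
      intro x hx
      exact (mem_Off h).mp hx
  posdef := by
    intro x hx v hv
    have hx' := (mem_Off h).mp hx
    have hR := h.pos _ hx'
    refine ⟨‖v 0 + c * v 1‖ ^ 2 / 2 + R (x 1) * ‖v 1‖ ^ 2, ?_, ?_⟩
    · by_cases h1 : v 1 = 0
      · have h0 : v 0 ≠ 0 := by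
          intro h0
          apply hv
          funext j; fin_cases j
          · exact h0
          · exact h1
        have := norm_pos_iff.mpr h0
        rw [h1]
        simp only [mul_zero, add_zero, norm_zero]
        positivity
      · have := norm_pos_iff.mpr h1
        positivity
    · rw [herm_eq]
      simp only [gc00, gc01, gc10, gc11' h.per]
      have e1 : ((‖v 0 + c * v 1‖ ^ 2 : ℝ) : ℂ) = (v 0 + c * v 1) * conj (v 0 + c * v 1) := by
        rw [Complex.mul_conj, Complex.normSq_eq_norm_sq]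
      have e2 : ((‖v 1‖ ^ 2 : ℝ) : ℂ) = v 1 * conj (v 1) := by
        rw [Complex.mul_conj, Complex.normSq_eq_norm_sq]
      rw [map_add, map_mul, Complex.conj_ofReal] at e1
      push_cast at e1 e2 ⊢
      rw [e1, e2]
      ring
  kahler := by
    intro x hx j k l
    have hx' := (mem_Off h).mp hx
    have e : (fun y : C2 => gc R c 1 1 (pr y)) = fun y => (fun s : ℂ => (c : ℂ) ^ 2 / 2 + (R s : ℂ)) (y 1) := by
      funext y; exact gc11' h.per y
    have hd : DifferentiableAt ℝ (fun s : ℂ => (c : ℂ) ^ 2 / 2 + (R s : ℂ)) (x 1) := by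
      have h1 : ContDiffAt ℝ ∞ R (x 1) := h.smooth.contDiffAt (h.opn.mem_nhds hx')
      have h2 : ContDiffAt ℝ ∞ (fun s : ℂ => (R s : ℂ)) (x 1) :=
        Complex.ofRealCLM.contDiff.contDiffAt.comp _ h1
      exact (h2.differentiableAt (by simp)).const_add _
    have z00 : ∀ i, dd i (fun y : C2 => gc R c 0 0 (pr y)) x = 0 := fun i => dd_const _ i x
    have z01 : ∀ i, dd i (fun y : C2 => gc R c 0 1 (pr y)) x = 0 := fun i => dd_const _ i x
    have z10 : ∀ i, dd i (fun y : C2 => gc R c 1 0 (pr y)) x = 0 := fun i => dd_const _ i x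
    have z11 : dd 0 (fun y : C2 => gc R c 1 1 (pr y)) x = 0 := by rw [e]; exact dd0_base hd
    fin_cases j <;> fin_cases k <;> fin_cases l
    · rfl
    · exact (z00 1).trans (z10 0).symm
    · rfl
    · exact (z01 1).trans z11.symm
    · exact (z10 0).trans (z00 1).symm
    · rfl
    · exact z11.trans (z01 1).symm
    · rfl
  cscK := fun x hx => scal_gc h ((mem_Off h).mp hx)
  semiflat := by
    intro x _
    have e : dd 0 (fun y : C2 => ((Real.log (gc R c 0 0 (pr y)).re : ℝ) : ℂ)) = fun _ => 0 := by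
      funext y
      exact dd_const ((Real.log (1 / 2 : ℂ).re : ℝ) : ℂ) 0 y
    rw [e, ddb_const]
  fibre := by
    intro x _
    simp only [gc00]
    have : ∀ z : ℂ, (2 * (1 / 2) : ℂ) = 1 := fun _ => by norm_num
    rw [setIntegral_const, Measure.real, volume_Q1]
    simp

end Pool.Agent.Lib.Helper82.Ell
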