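import Pool.Agent.Lib.Helper82.Ell.Torus2

/-!
# Local integrability of the pulled back metric
-/

set_option autoImplicit false

open MeasureTheory Complex Set Topology Filter
open scoped ContDiff Real ComplexConjugate
open Pool.Agent.Lib.Helper82.Mob

namespace Pool.Agent.Lib.Helper82.Ell

variable {c₁ c₂ : ℂ} {ρ : ℂ → ℝ}

lemma rpow_neg_le {a b : ℝ} (ha : 0 < a) (h : a ≤ b) : b ^ (-(8 / 5) : ℝ) ≤ a ^ (-(8 / 5) : ℝ) :=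
  Real.rpow_le_rpow_of_nonpos ha h (by norm_num)

lemma factor_bdd {c s₀ : ℂ} (hs : s₀ ∉ LG.lattice) (hc : LG.weierstrassP s₀ ≠ c) :
    ∃ K : ℝ, 0 ≤ K ∧ ∀ᶠ s in 𝓝[≠] s₀, ‖LG.weierstrassP s - c‖ ^ (-(8 / 5) : ℝ) ≤ K := by
  have h1 : ContinuousAt (fun s => ‖LG.weierstrassP s - c‖) s₀ :=
    ((hasDerivAt_P hs).continuousAt.sub continuousAt_const).norm
  have h2 : 0 < ‖LG.weierstrassP s₀ - c‖ := norm_pos_iff.mpr (sub_ne_zero.mpr hc)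
  have h3 : ∀ᶠ s in 𝓝 s₀, ‖LG.weierstrassP s₀ - c‖ / 2 < ‖LG.weierstrassP s - c‖ :=
    h1.eventually (lt_mem_nhds (by linarith))
  refine ⟨(‖LG.weierstrassP s₀ - c‖ / 2) ^ (-(8 / 5) : ℝ), by positivity, ?_⟩
  filter_upwards [nhdsWithin_le_nhds h3] with s hs
  exact rpow_neg_le (by positivity) hs.le

lemma factor_sing {c s₀ : ℂ} (hs : s₀ ∉ LG.lattice) (hc : LG.weierstrassP s₀ = c)
    (hd : LG.derivWeierstrassP s₀ ≠ 0) :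
    ∃ K : ℝ, 0 ≤ K ∧ ∀ᶠ s in 𝓝[≠] s₀,
      ‖LG.weierstrassP s - c‖ ^ (-(8 / 5) : ℝ) ≤ K * ‖s - s₀‖ ^ (-(8 / 5) : ℝ) := by
  set m := ‖LG.derivWeierstrassP s₀‖ / 2 with hm
  have hm0 : 0 < m := by
    have := norm_pos_iff.mpr hd
    positivity
  have h1 := (hasDerivAt_iff_tendsto_slope.mp (hasDerivAt_P hs)).norm
  have h2 : ∀ᶠ s in 𝓝[≠] s₀, m < ‖slope LG.weierstrassP s₀ s‖ :=
    h1.eventually (lt_mem_nhds (by rw [hm]; have := norm_pos_iff.mpr hd; linarith))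
  refine ⟨m ^ (-(8 / 5) : ℝ), by positivity, ?_⟩
  filter_upwards [h2, self_mem_nhdsWithin] with s hs1 hs2
  have h3 : 0 < ‖s - s₀‖ := norm_pos_iff.mpr (sub_ne_zero.mpr hs2)
  rw [← Real.mul_rpow hm0.le h3.le]
  apply rpow_neg_le (by positivity)
  rw [slope_def_field, norm_div, lt_div_iff₀ h3, hc] at hs1
  exact hs1.le

lemma one_le_sing (s₀ : ℂ) : ∀ᶠ s in 𝓝[≠] s₀, 1 ≤ ‖s - s₀‖ ^ (-(8 / 5) : ℝ) := by
  have h1 : ∀ᶠ s in 𝓝 s₀, ‖s - s₀‖ < 1 := by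
    have := Metric.ball_mem_nhds s₀ one_pos
    filter_upwards [this] with s hs
    rwa [mem_ball_iff_norm] at hs
  filter_upwards [nhdsWithin_le_nhds h1, self_mem_nhdsWithin] with s hs1 hs2
  have h3 : 0 < ‖s - s₀‖ := norm_pos_iff.mpr (sub_ne_zero.mpr hs2)
  exact Real.one_le_rpow_of_pos_of_le_one_of_nonpos h3 hs1.le (by norm_num)

lemma hh_bound_reg (hne : c₁ ≠ c₂)
    (h₁ : ∀ s ∉ LG.lattice, LG.weierstrassP s = c₁ → LG.derivWeierstrassP s ≠ 0)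
    (h₂ : ∀ s ∉ LG.lattice, LG.weierstrassP s = c₂ → LG.derivWeierstrassP s ≠ 0)
    {s₀ : ℂ} (hs : s₀ ∉ LG.lattice) :
    ∃ K : ℝ, 0 ≤ K ∧ ∀ᶠ s in 𝓝[≠] s₀, hh c₁ c₂ (LG.weierstrassP s) ≤ K * ‖s - s₀‖ ^ (-(8 / 5) : ℝ) := by
  by_cases hc1 : LG.weierstrassP s₀ = c₁
  · have hc2 : LG.weierstrassP s₀ ≠ c₂ := fun h => hne (hc1.symm.trans h)
    obtain ⟨K₁, hK₁, hb₁⟩ := factor_sing hs hc1 (h₁ s₀ hs hc1)
    obtain ⟨K₂, hK₂, hb₂⟩ := factor_bdd hs hc2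
    refine ⟨K₁ * K₂, by positivity, ?_⟩
    filter_upwards [hb₁, hb₂] with s h3 h4
    have : hh c₁ c₂ (LG.weierstrassP s) ≤ (K₁ * ‖s - s₀‖ ^ (-(8 / 5) : ℝ)) * K₂ := by
      unfold hh; gcongr
    linarith [this]
  · by_cases hc2 : LG.weierstrassP s₀ = c₂
    · obtain ⟨K₁, hK₁, hb₁⟩ := factor_bdd hs hc1
      obtain ⟨K₂, hK₂, hb₂⟩ := factor_sing hs hc2 (h₂ s₀ hs hc2)
      refine ⟨K₁ * K₂, by positivity, ?_⟩
      filter_upwards [hb₁, hb₂] with s h3 h4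
      have : hh c₁ c₂ (LG.weierstrassP s) ≤ K₁ * (K₂ * ‖s - s₀‖ ^ (-(8 / 5) : ℝ)) := by
        unfold hh; gcongr
      linarith [this]
    · obtain ⟨K₁, hK₁, hb₁⟩ := factor_bdd hs hc1
      obtain ⟨K₂, hK₂, hb₂⟩ := factor_bdd hs hc2
      refine ⟨K₁ * K₂, by positivity, ?_⟩
      filter_upwards [hb₁, hb₂, one_le_sing s₀] with s h3 h4 h5
      have : hh c₁ c₂ (LG.weierstrassP s) ≤ K₁ * K₂ := by
        unfold hh; gcongr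
      have h6 : K₁ * K₂ ≤ K₁ * K₂ * ‖s - s₀‖ ^ (-(8 / 5) : ℝ) :=
        le_mul_of_one_le_right (by positivity) h5
      linarith

lemma lattice_bound (l : ℂ) (hl : l ∈ LG.lattice) : ∃ K : ℝ, 0 ≤ K ∧ ∀ᶠ s in 𝓝[≠] l,
    hh c₁ c₂ (LG.weierstrassP s) * (1 + ‖LG.weierstrassP s‖) ^ (1 / 5 : ℝ)
      * ‖LG.derivWeierstrassP s‖ ^ 2 ≤ K := by
  have h1 := (tendsto_sq_mul_P ⟨l, hl⟩).norm
  have h2 := (tendsto_cube_mul_dP ⟨l, hl⟩).norm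
  rw [norm_one] at h1
  rw [norm_neg, Complex.norm_ofNat] at h2
  have e1 : ∀ᶠ s in 𝓝[≠] l, 1 / 2 < ‖(s - l) ^ 2 * LG.weierstrassP s‖ :=
    h1.eventually (lt_mem_nhds (by norm_num))
  have e2 : ∀ᶠ s in 𝓝[≠] l, ‖(s - l) ^ 2 * LG.weierstrassP s‖ < 2 :=
    h1.eventually (gt_mem_nhds (by norm_num))
  have e3 : ∀ᶠ s in 𝓝[≠] l, ‖(s - l) ^ 3 * LG.derivWeierstrassP s‖ < 3 :=
    h2.eventually (gt_mem_nhds (by norm_num))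
  have e4 : ∀ c : ℂ, ∀ᶠ s in 𝓝[≠] l, ‖s - l‖ ^ 2 * ‖c‖ < 1 / 4 := by
    intro c
    have : Continuous fun s : ℂ => ‖s - l‖ ^ 2 * ‖c‖ := by fun_prop
    have h3 := this.tendsto l
    simp only [sub_self, norm_zero, ne_eq, OfNat.ofNat_ne_zero, not_false_eq_true, zero_pow,
      zero_mul] at h3
    exact nhdsWithin_le_nhds (h3.eventually (gt_mem_nhds (by norm_num)))
  have e5 : ∀ᶠ s in 𝓝[≠] l, ‖s - l‖ ^ 2 < 1 := by
    have : Continuous fun s : ℂ => ‖s - l‖ ^ 2 := by fun_prop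
    have h3 := this.tendsto l
    simp only [sub_self, norm_zero, ne_eq, OfNat.ofNat_ne_zero, not_false_eq_true, zero_pow] at h3
    exact nhdsWithin_le_nhds (h3.eventually (gt_mem_nhds (by norm_num)))
  refine ⟨(4 : ℝ) ^ (8 / 5 : ℝ) * (4 : ℝ) ^ (8 / 5 : ℝ) * 3 ^ (1 / 5 : ℝ) * 9, by positivity, ?_⟩
  filter_upwards [e1, e2, e3, e4 c₁, e4 c₂, e5, self_mem_nhdsWithin] with s f1 f2 f3 f4 f4' f5 f6
  have hr : 0 < ‖s - l‖ := norm_pos_iff.mpr (sub_ne_zero.mpr f6)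
  set q := ‖s - l‖ ^ 2 with hq
  have hq0 : 0 < q := by positivity
  rw [norm_mul, norm_pow, ← hq] at f1 f2
  have g1 : ∀ c : ℂ, q * ‖c‖ < 1 / 4 →
      ‖LG.weierstrassP s - c‖ ^ (-(8 / 5) : ℝ) ≤ 4 ^ (8 / 5 : ℝ) * q ^ (8 / 5 : ℝ) := by
    intro c hc
    have a1 : (4 * q)⁻¹ ≤ ‖LG.weierstrassP s - c‖ := by
      have a2 : ‖LG.weierstrassP s‖ - ‖c‖ ≤ ‖LG.weierstrassP s - c‖ := norm_sub_norm_le _ _
      rw [inv_eq_one_div, div_le_iff₀ (by positivity)]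
      nlinarith
    have a3 := rpow_neg_le (by positivity) a1
    rwa [Real.inv_rpow (by positivity), ← Real.rpow_neg (by positivity), neg_neg,
      Real.mul_rpow (by norm_num) hq0.le] at a3
  have g2 : (1 + ‖LG.weierstrassP s‖) ^ (1 / 5 : ℝ) ≤ 3 ^ (1 / 5 : ℝ) * q ^ (-(1 / 5) : ℝ) := by
    have a1 : 1 + ‖LG.weierstrassP s‖ ≤ 3 * q⁻¹ := by
      rw [← div_eq_mul_inv, le_div_iff₀ hq0]
      nlinarith
    calc (1 + ‖LG.weierstrassP s‖) ^ (1 / 5 : ℝ) ≤ (3 * q⁻¹) ^ (1 / 5 : ℝ) := by gcongr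
      _ = _ := by
        rw [Real.mul_rpow (by norm_num) (by positivity), Real.inv_rpow hq0.le, ← Real.rpow_neg hq0.le]
  have g3 : ‖LG.derivWeierstrassP s‖ ^ 2 ≤ 9 * q ^ (-3 : ℝ) := by
    rw [norm_mul, norm_pow] at f3
    have a1 : ‖LG.derivWeierstrassP s‖ ≤ 3 / ‖s - l‖ ^ 3 := by
      rw [le_div_iff₀ (by positivity)]; linarith
    calc ‖LG.derivWeierstrassP s‖ ^ 2 ≤ (3 / ‖s - l‖ ^ 3) ^ 2 := by gcongr
      _ = 9 * q ^ (-3 : ℝ) := by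
        rw [Real.rpow_neg hq0.le, hq]
        norm_cast
        rw [div_pow, ← pow_mul, ← pow_mul, div_eq_mul_inv]
        norm_num
  have g4 : q ^ (8 / 5 : ℝ) * q ^ (8 / 5 : ℝ) * q ^ (-(1 / 5) : ℝ) * q ^ (-3 : ℝ) = 1 := by
    rw [← Real.rpow_add hq0, ← Real.rpow_add hq0, ← Real.rpow_add hq0]
    norm_num
  have g5 := g1 c₁ f4
  have g6 := g1 c₂ f4'
  calc hh c₁ c₂ (LG.weierstrassP s) * (1 + ‖LG.weierstrassP s‖) ^ (1 / 5 : ℝ)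
      * ‖LG.derivWeierstrassP s‖ ^ 2
      ≤ (4 ^ (8 / 5 : ℝ) * q ^ (8 / 5 : ℝ)) * (4 ^ (8 / 5 : ℝ) * q ^ (8 / 5 : ℝ))
        * (3 ^ (1 / 5 : ℝ) * q ^ (-(1 / 5) : ℝ)) * (9 * q ^ (-3 : ℝ)) := by
        unfold hh; gcongr
    _ = (4 ^ (8 / 5 : ℝ) * 4 ^ (8 / 5 : ℝ) * 3 ^ (1 / 5 : ℝ) * 9) *
        (q ^ (8 / 5 : ℝ) * q ^ (8 / 5 : ℝ) * q ^ (-(1 / 5) : ℝ) * q ^ (-3 : ℝ)) := by ring
    _ = _ := by rw [g4, mul_one]

lemma abs_RR_le (s : ℂ) {C : ℝ}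
    (hb : ∀ z, |ρ z| ≤ C * (hh c₁ c₂ z * (1 + ‖z‖) ^ (1 / 5 : ℝ))) :
    |RR c₁ c₂ ρ s| ≤ C * (hh c₁ c₂ (LG.weierstrassP s) * (1 + ‖LG.weierstrassP s‖) ^ (1 / 5 : ℝ)
      * ‖LG.derivWeierstrassP s‖ ^ 2) := by
  have h0 : 0 ≤ C * (hh c₁ c₂ (LG.weierstrassP s) * (1 + ‖LG.weierstrassP s‖) ^ (1 / 5 : ℝ)) :=
    (abs_nonneg _).trans (hb (LG.weierstrassP s))
  by_cases hs : s ∈ Sp c₁ c₂
  · rw [RR, indicator_of_notMem (notMem_compl_iff.mpr hs), abs_zero]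
    calc (0 : ℝ) ≤ C * (hh c₁ c₂ (LG.weierstrassP s) * (1 + ‖LG.weierstrassP s‖) ^ (1 / 5 : ℝ))
        * ‖LG.derivWeierstrassP s‖ ^ 2 := by positivity
      _ = _ := by ring
  · rw [RR_of_notMem hs, abs_mul, abs_of_nonneg (by positivity : 0 ≤ ‖LG.derivWeierstrassP s‖ ^ 2)]
    calc |ρ (LG.weierstrassP s)| * ‖LG.derivWeierstrassP s‖ ^ 2
        ≤ C * (hh c₁ c₂ (LG.weierstrassP s) * (1 + ‖LG.weierstrassP s‖) ^ (1 / 5 : ℝ))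
          * ‖LG.derivWeierstrassP s‖ ^ 2 := by
          gcongr
          exact hb _
      _ = _ := by ring

/-- The local bound. -/
lemma RR_bound (hne : c₁ ≠ c₂)
    (h₁ : ∀ s ∉ LG.lattice, LG.weierstrassP s = c₁ → LG.derivWeierstrassP s ≠ 0)
    (h₂ : ∀ s ∉ LG.lattice, LG.weierstrassP s = c₂ → LG.derivWeierstrassP s ≠ 0)
    {C : ℝ} (hC : 0 < C) (hb : ∀ z, |ρ z| ≤ C * (hh c₁ c₂ z * (1 + ‖z‖) ^ (1 / 5 : ℝ))) (s₀ : ℂ) :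
    ∃ K : ℝ, ∀ᶠ s in 𝓝[≠] s₀, |RR c₁ c₂ ρ s| ≤ K * ‖s - s₀‖ ^ (-(8 / 5) : ℝ) := by
  by_cases hs : s₀ ∈ LG.lattice
  · obtain ⟨K, hK, hb'⟩ := lattice_bound (c₁ := c₁) (c₂ := c₂) s₀ hs
    refine ⟨C * K, ?_⟩
    filter_upwards [hb', one_le_sing s₀] with s h3 h5
    calc |RR c₁ c₂ ρ s| ≤ C * K := (abs_RR_le s hb).trans (by gcongr)
      _ ≤ C * K * ‖s - s₀‖ ^ (-(8 / 5) : ℝ) := le_mul_of_one_le_right (by positivity) h5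
  · obtain ⟨K, hK, hb'⟩ := hh_bound_reg hne h₁ h₂ hs
    have hc : ContinuousAt (fun s => (1 + ‖LG.weierstrassP s‖) ^ (1 / 5 : ℝ)
        * ‖LG.derivWeierstrassP s‖ ^ 2) s₀ :=
      ((continuousAt_const.add (hasDerivAt_P hs).continuousAt.norm).rpow_const
        (Or.inr (by norm_num))).mul ((differentiableAt_dP hs).continuousAt.norm.pow 2)
    have h7 := nhdsWithin_le_nhds (s := {s₀}ᶜ) (hc.eventually (gt_mem_nhds (lt_add_one _)))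
    set B := (1 + ‖LG.weierstrassP s₀‖) ^ (1 / 5 : ℝ) * ‖LG.derivWeierstrassP s₀‖ ^ 2 + 1 with hB
    have hB0 : 0 ≤ B := by positivity
    refine ⟨C * K * B, ?_⟩
    filter_upwards [hb', h7] with s h3 h4
    refine (abs_RR_le s hb).trans ?_
    have h5 : 0 ≤ hh c₁ c₂ (LG.weierstrassP s) := hh_nonneg _ _ _
    calc C * (hh c₁ c₂ (LG.weierstrassP s) * (1 + ‖LG.weierstrassP s‖) ^ (1 / 5 : ℝ)
          * ‖LG.derivWeierstrassP s‖ ^ 2)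
        = C * (hh c₁ c₂ (LG.weierstrassP s) * ((1 + ‖LG.weierstrassP s‖) ^ (1 / 5 : ℝ)
          * ‖LG.derivWeierstrassP s‖ ^ 2)) := by ring
      _ ≤ C * ((K * ‖s - s₀‖ ^ (-(8 / 5) : ℝ)) * B) := by
          gcongr
      _ = _ := by ring

lemma volume_Sp : volume (Sp c₁ c₂) = 0 := (countable_of_isolated (Sp_isolated c₁ c₂)).measure_zero _

lemma aestronglyMeasurable_RR (hρ : ContDiffOn ℝ ∞ ρ (UU c₁ c₂)) :
    AEStronglyMeasurable (RR c₁ c₂ ρ) volume := by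
  have h1 : AEStronglyMeasurable (RR c₁ c₂ ρ) (volume.restrict (Sp c₁ c₂)ᶜ) :=
    (contDiffOn_RR hρ).continuousOn.aestronglyMeasurable isOpen_compl_Sp.measurableSet
  have h2 : volume.restrict (Sp c₁ c₂)ᶜ = volume :=
    Measure.restrict_eq_self_of_ae_mem (compl_mem_ae_iff.mpr volume_Sp)
  rwa [h2] at h1

theorem locallyIntegrable_RR (hne : c₁ ≠ c₂)
    (h₁ : ∀ s ∉ LG.lattice, LG.weierstrassP s = c₁ → LG.derivWeierstrassP s ≠ 0)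
    (h₂ : ∀ s ∉ LG.lattice, LG.weierstrassP s = c₂ → LG.derivWeierstrassP s ≠ 0)
    (hρ : ContDiffOn ℝ ∞ ρ (UU c₁ c₂))
    {C : ℝ} (hC : 0 < C) (hb : ∀ z, |ρ z| ≤ C * (hh c₁ c₂ z * (1 + ‖z‖) ^ (1 / 5 : ℝ))) :
    LocallyIntegrable (RR c₁ c₂ ρ) := by
  intro s₀
  obtain ⟨K, hK⟩ := RR_bound hne h₁ h₂ hC hb s₀
  rw [eventually_nhdsWithin_iff, Metric.eventually_nhds_iff_ball] at hK
  obtain ⟨δ, hδ, hK⟩ := hK
  refine ⟨Metric.ball s₀ δ, Metric.ball_mem_nhds s₀ hδ, ?_⟩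
  have h1 : Integrable (fun s => K * ker (8 / 5) δ (s - s₀)) :=
    ((integrable_ker (by norm_num) δ).comp_sub_right s₀).const_mul K
  refine h1.integrableOn.mono' (aestronglyMeasurable_RR hρ).restrict ?_
  rw [ae_restrict_iff' Metric.isOpen_ball.measurableSet]
  have h2 : ∀ᵐ s : ℂ, s ≠ s₀ := by simp [ae_iff, measure_singleton]
  filter_upwards [h2] with s hs hsb
  rw [Real.norm_eq_abs, ker_eq (by rwa [mem_ball_iff_norm] at hsb)]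
  exact hK s hsb hs

end Pool.Agent.Lib.Helper82.Ell
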