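import Pool.Agent.Lib.Helper82.Ell.Ineq
import Pool.Agent.Lib.Helper82.Ell.Met
import Pool.Agent.Lib.Helper82.Ell.Torus3

/-!
# Main theorem
-/

set_option autoImplicit false

open MeasureTheory Complex Set Topology Filter
open scoped ContDiff ComplexConjugate
open Pool.Agent.Lib.Helper82.Mob

namespace Pool.Agent.Lib.Helper82.Ell

theorem exists_base : ∃ (R : ℂ → ℝ) (S : Set ℂ), Base R S := by
  obtain ⟨c₁, c₂, hne, h₁, h₂⟩ := exists_regular_values
  obtain ⟨ρ, hs, hpos, hpde, C, hC, hb⟩ := exists_metric hne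
  refine ⟨RR c₁ c₂ ρ, Sp c₁ c₂, ?_⟩
  exact
    { per := fun l hl s => RR_add (mem_LG.mpr hl)
      perS := fun l hl s => Sp_add (mem_LG.mpr hl)
      iso := Sp_isolated c₁ c₂
      opn := isOpen_compl_Sp
      smooth := contDiffOn_RR hs
      pos := fun s hs' => RR_pos hpos hs'
      nonneg := RR_nonneg hpos
      pde := fun s hs' => pde_RR hs hpos hpde hs'
      int := ((locallyIntegrable_RR hne h₁ h₂ hs hC hb).integrableOn_isCompact
        (isCompact_Icc.reProdIm isCompact_Icc)).mono_set Q1_subset }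

theorem main :
    ∃ (P : Set EE) (T : ℝ → Form11 → ℂ) (g : ℝ → Coef),
      (∀ c, IsSemiflatCscKCurrent P (-3) 1 (T c)) ∧
      (∀ c, IsSemiflatCscKMetric P (-3) 1 (g c) ∧ ∀ ψ : Form11, T c ψ = wedge (g c) ψ.coef) ∧
      (∀ c, ∀ x, (mat (g c) (pr x)).det = (mat (g 0) (pr x)).det) ∧
      ∀ c₁ ∈ Icc (0 : ℝ) (1 / 2), ∀ c₂ ∈ Icc (0 : ℝ) (1 / 2), c₁ ≠ c₂ →
        ∀ (f : XX ≃ XX) (h : EE ≃ EE), IsAutPair f h → ¬ PushEq f (T c₁) (T c₂) := by
  obtain ⟨R, S, hB⟩ := exists_base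
  refine ⟨PP S, TT R, gc R, fun c => ?_, fun c => ?_, fun c x => ?_, ?_⟩
  · refine ⟨finite_PP hB fun K hK => finite_of_isolated hB.iso hK,
      TT_closedPositive hB.int hB.nonneg, gc R c, metric_gc hB, fun ψ _ => ?_⟩
    exact TT_eq_wedge hB.per ψ
  · exact ⟨metric_gc hB, fun ψ => TT_eq_wedge hB.per ψ⟩
  · rw [det_gc hB, det_gc hB]
  · intro c₁ hc₁ c₂ hc₂ hne f h hf
    exact inequivalent hc₁ hc₂ hne hf

end Pool.Agent.Lib.Helper82.Ell
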