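import Pool.Agent.Lib.Helper82.Ell.Reg2

/-!
# Hyperbolic cone metrics on the sphere
-/

set_option autoImplicit false

open MeasureTheory Complex Set Topology Filter
open scoped ContDiff Real Interval
open Pool.Agent.Lib.Helper82.Mob

namespace Pool.Agent.Lib.Helper82.Ell

variable {c₁ c₂ : ℂ}

/-- The complement of the two cone points. -/
def UU (c₁ c₂ : ℂ) : Set ℂ := {z | z ≠ c₁ ∧ z ≠ c₂}

lemma isOpen_UU : IsOpen (UU c₁ c₂) := isOpen_ne.inter isOpen_ne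

lemma contDiffAt_norm_rpow {c z : ℂ} (h : z ≠ c) (p : ℝ) {n : WithTop ℕ∞} :
    ContDiffAt ℝ n (fun z : ℂ => ‖z - c‖ ^ p) z := by
  have h1 : z - c ≠ 0 := sub_ne_zero.mpr h
  have h2 : ContDiffAt ℝ n (fun z : ℂ => z - c) z := contDiffAt_id.sub contDiffAt_const
  exact (h2.norm ℝ h1).rpow_const_of_ne (norm_pos_iff.mpr h1).ne'

lemma contDiffOn_hh {n : WithTop ℕ∞} : ContDiffOn ℝ n (hh c₁ c₂) (UU c₁ c₂) := fun _ hz =>
  ((contDiffAt_norm_rpow hz.1 _).mul (contDiffAt_norm_rpow hz.2 _)).contDiffWithinAt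

lemma hh_pos {z : ℂ} (hz : z ∈ UU c₁ c₂) : 0 < hh c₁ c₂ z := by
  have h1 : 0 < ‖z - c₁‖ := norm_pos_iff.mpr (sub_ne_zero.mpr hz.1)
  have h2 : 0 < ‖z - c₂‖ := norm_pos_iff.mpr (sub_ne_zero.mpr hz.2)
  unfold hh; positivity

lemma fderiv_reM_contDiffOn {φ : ℂ → ℝ} {c : ℂ → ℂ} {U : Set ℂ} (hU : IsOpen U) {n : ℕ∞}
    (hd : ∀ z ∈ U, HasFDerivAt φ (reM (c z)) z) (hc : ContDiffOn ℝ n c U) :
    ContDiffOn ℝ (n + 1) φ U := by
  rw [contDiffOn_succ_iff_fderiv_of_isOpen hU]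
  refine ⟨fun z hz => (hd z hz).differentiableAt.differentiableWithinAt, fun h => ?_, ?_⟩
  · exact absurd h (by exact_mod_cast WithTop.coe_ne_top)
  · have h1 : ContDiffOn ℝ n (fun z => reMC (c z)) U := reMC.contDiff.comp_contDiffOn hc
    exact h1.congr fun z hz => (hd z hz).fderiv

theorem smooth_solution {γ : ℝ} {w : ℂ → ℝ} (hne : c₁ ≠ c₂) (hw : Continuous w)
    (hD : Dens c₁ c₂ 1 (fun x => hh c₁ c₂ x * Real.exp (w x)))
    (he : ∀ z, w z = γ * pot (fun x => hh c₁ c₂ x * Real.exp (w x)) z) (n : ℕ) :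
    ContDiffOn ℝ n w (UU c₁ c₂) := by
  induction n with
  | zero => simpa using hw.continuousOn
  | succ n ih =>
    set f : ℂ → ℝ := fun x => hh c₁ c₂ x * Real.exp (w x) with hf
    have hfn : ContDiffOn ℝ n f (UU c₁ c₂) := contDiffOn_hh.mul (Real.contDiff_exp.comp_contDiffOn ih)
    intro z₀ hz₀
    obtain ⟨R, hR, hRU⟩ := Metric.isOpen_iff.mp isOpen_UU z₀ hz₀
    obtain ⟨c, δ, hδ, -, hc, hd, -⟩ := pot_local (n := (n : ℕ∞)) hR (hD.integrable hne)
      (pot_integrable zero_le_one hne hD) (by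
        have := hfn.mono hRU
        exact_mod_cast this)
    have h1 : ContDiffOn ℝ ((n : ℕ∞) + 1) (pot f) (Metric.ball z₀ δ) :=
      fderiv_reM_contDiffOn Metric.isOpen_ball hd hc
    have h2 : ContDiffAt ℝ ((n + 1 : ℕ) : WithTop ℕ∞) (pot f) z₀ := by
      have := h1.contDiffAt (Metric.isOpen_ball.mem_nhds (Metric.mem_ball_self hδ))
      exact_mod_cast this
    have h3 : w = fun z => γ * pot f z := funext he
    rw [h3]
    exact (contDiffAt_const.mul h2).contDiffWithinAt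

lemma dz_of_reM {φ : ℂ → ℝ} {c z : ℂ} (h : HasFDerivAt φ (reM c) z) :
    dz (fun w => (φ w : ℂ)) z = c / 2 := by
  have h1 : HasFDerivAt (fun w => (φ w : ℂ)) (Complex.ofRealCLM.comp (reM c)) z :=
    Complex.ofRealCLM.hasFDerivAt.comp z h
  rw [dz, h1.fderiv]
  simp only [ContinuousLinearMap.comp_apply, reM_eq, Complex.ofRealCLM_apply, mul_one]
  apply Complex.ext
  · simp; ring
  · simp; ring

lemma hasFDerivAt_log_sub {z c : ℂ} (h : z ≠ c) :
    HasFDerivAt (fun w : ℂ => Real.log ‖w - c‖) (reM (z - c)⁻¹) z := by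
  have h1 : HasFDerivAt (fun w : ℂ => w - c) (ContinuousLinearMap.id ℝ ℂ) z :=
    (hasFDerivAt_id (𝕜 := ℝ) z).sub_const c
  have h2 : HasFDerivAt (fun w : ℂ => Real.log ‖w‖) (reM (z - c)⁻¹) (z - c) :=
    hasFDerivAt_log_norm (sub_ne_zero.mpr h)
  exact h2.comp z h1

/-- The hyperbolic cone metrics of curvature `-3/2`. -/
theorem exists_metric (hne : c₁ ≠ c₂) : ∃ ρ : ℂ → ℝ,
    ContDiffOn ℝ ∞ ρ (UU c₁ c₂) ∧ (∀ z ∈ UU c₁ c₂, 0 < ρ z) ∧
    (∀ z ∈ UU c₁ c₂, dzb (dz (fun w => ((Real.log (ρ w) : ℝ) : ℂ))) z = (3 / 2) * ρ z) ∧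
    ∃ C : ℝ, 0 < C ∧ ∀ z, |ρ z| ≤ C * (hh c₁ c₂ z * (1 + ‖z‖) ^ (1 / 5 : ℝ)) := by
  obtain ⟨γ, w, hγ, hw, hwq, hD, he⟩ := exists_solution hne
  have hws : ContDiffOn ℝ ∞ w (UU c₁ c₂) := contDiffOn_infty.mpr fun n =>
    smooth_solution hne hw hD he n
  set f : ℂ → ℝ := fun x => hh c₁ c₂ x * Real.exp (w x) with hf
  have hfs : ContDiffOn ℝ ∞ f (UU c₁ c₂) := contDiffOn_hh.mul (Real.contDiff_exp.comp_contDiffOn hws)
  set β : ℝ := γ * π / 3 with hβ
  have hβ0 : 0 < β := by positivity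
  refine ⟨fun z => β * f z, contDiffOn_const.mul hfs, fun z hz => ?_, fun z₀ hz₀ => ?_, ?_⟩
  · have := hh_pos hz
    simp only [hf]; positivity
  · obtain ⟨R, hR, hRU⟩ := Metric.isOpen_iff.mp isOpen_UU z₀ hz₀
    obtain ⟨c, δ, hδ, hδR, hc, hd, hpde⟩ := pot_local (n := 1) hR (hD.integrable hne)
      (pot_integrable zero_le_one hne hD) ((hfs.mono hRU).of_le (by exact_mod_cast le_top))
    have hball : Metric.ball z₀ δ ⊆ UU c₁ c₂ := (Metric.ball_subset_ball hδR).trans hRU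
    set ct : ℂ → ℂ := fun z => (-(8 / 5) : ℂ) * (z - c₁)⁻¹ + (-(8 / 5) : ℂ) * (z - c₂)⁻¹ + γ * c z with hct
    have hlog : ∀ z ∈ Metric.ball z₀ δ, HasFDerivAt (fun w => Real.log (β * f w)) (reM (ct z)) z := by
      intro z hz
      have hzU := hball hz
      have e1 : (fun w' => Real.log (β * f w')) =ᶠ[𝓝 z] fun w' => (Real.log β +
          (-(8 / 5) * Real.log ‖w' - c₁‖ + -(8 / 5) * Real.log ‖w' - c₂‖)) + γ * pot f w' := by
        filter_upwards [isOpen_UU.mem_nhds hzU] with y hy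
        have h1 : 0 < ‖y - c₁‖ := norm_pos_iff.mpr (sub_ne_zero.mpr hy.1)
        have h2 : 0 < ‖y - c₂‖ := norm_pos_iff.mpr (sub_ne_zero.mpr hy.2)
        simp only [hf]
        rw [Real.log_mul hβ0.ne' (mul_pos (hh_pos hy) (Real.exp_pos _)).ne',
          Real.log_mul (hh_pos hy).ne' (Real.exp_pos _).ne', Real.log_exp, hh,
          Real.log_mul (by positivity) (by positivity), Real.log_rpow h1, Real.log_rpow h2]
        conv_lhs => rw [he y]
        ring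
      have a1 : HasFDerivAt (fun w' : ℂ => Real.log ‖w' - c₁‖) (reM (z - c₁)⁻¹) z :=
        hasFDerivAt_log_sub hzU.1
      have a2 : HasFDerivAt (fun w' : ℂ => Real.log ‖w' - c₂‖) (reM (z - c₂)⁻¹) z :=
        hasFDerivAt_log_sub hzU.2
      have a3 := ((((a1.const_mul (-(8 / 5) : ℝ)).add (a2.const_mul (-(8 / 5) : ℝ))).const_add
        (Real.log β)).add ((hd z hz).const_mul γ))
      refine (a3.congr_of_eventuallyEq e1).congr_fderiv ?_
      ext v
      simp only [_root_.add_apply, _root_.smul_apply, reM_eq, smul_eq_mul, hct, add_mul,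
        Complex.add_re]
      have e8 : (-(8 / 5) : ℂ) = ((-(8 / 5) : ℝ) : ℂ) := by push_cast; ring
      rw [e8, mul_assoc, mul_assoc, mul_assoc, Complex.re_ofReal_mul, Complex.re_ofReal_mul,
        Complex.re_ofReal_mul]
    have hz₀b : z₀ ∈ Metric.ball z₀ δ := Metric.mem_ball_self hδ
    have hdz : dz (fun w' => ((Real.log (β * f w') : ℝ) : ℂ)) =ᶠ[𝓝 z₀] fun z => (1 / 2) * ct z := by
      filter_upwards [Metric.isOpen_ball.mem_nhds hz₀b] with z hz
      rw [dz_of_reM (hlog z hz)]; ring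
    have hdzb : dzb (dz (fun w' => ((Real.log (β * f w') : ℝ) : ℂ))) z₀
        = dzb (fun z => (1 / 2) * ct z) z₀ := by
      rw [dzb, dzb, hdz.fderiv_eq]
    rw [hdzb]
    have b1 : DifferentiableAt ℂ (fun z : ℂ => (-(8 / 5) : ℂ) * (z - c₁)⁻¹) z₀ :=
      ((differentiableAt_id.sub_const c₁).fun_inv (sub_ne_zero.mpr hz₀.1)).const_mul _
    have b2 : DifferentiableAt ℂ (fun z : ℂ => (-(8 / 5) : ℂ) * (z - c₂)⁻¹) z₀ :=
      ((differentiableAt_id.sub_const c₂).fun_inv (sub_ne_zero.mpr hz₀.2)).const_mul _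
    have b3 : DifferentiableAt ℝ c z₀ :=
      (hc.contDiffAt (Metric.isOpen_ball.mem_nhds hz₀b)).differentiableAt (by simp)
    have d1 := (differentiableAt_iff_dzb (b1.restrictScalars ℝ)).mp b1
    have d2 := (differentiableAt_iff_dzb (b2.restrictScalars ℝ)).mp b2
    have b12 : DifferentiableAt ℝ (fun z : ℂ => (-(8 / 5) : ℂ) * (z - c₁)⁻¹ + (-(8 / 5) : ℂ) * (z - c₂)⁻¹) z₀ :=
      (b1.restrictScalars ℝ).fun_add (b2.restrictScalars ℝ)
    have b3' : DifferentiableAt ℝ (fun z => (γ : ℂ) * c z) z₀ := b3.const_mul _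
    have bct : DifferentiableAt ℝ ct z₀ := b12.fun_add b3'
    have hconst : ∀ k : ℂ, dzb (fun _ : ℂ => k) z₀ = 0 := by intro k; simp [dzb]
    rw [dzb_mul (differentiableAt_const _) bct, hconst, hct,
      dzb_add b12 b3', dzb_add (b1.restrictScalars ℝ) (b2.restrictScalars ℝ), d1, d2,
      dzb_mul (differentiableAt_const _) b3, hconst, hpde le_rfl z₀ hz₀b]
    rw [hβ]
    push_cast
    ring
  · refine ⟨β * Real.exp (1 / 5), by positivity, fun z => ?_⟩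
    have h1 := hh_nonneg c₁ c₂ z
    have h2 : Real.exp (w z) ≤ Real.exp (1 / 5) * (1 + ‖z‖) ^ (1 / 5 : ℝ) :=
      (Real.exp_le_exp.mpr ((abs_le.mp (hwq z)).2)).trans (exp_qq_le z)
    rw [abs_of_nonneg (by simp only [hf]; positivity)]
    simp only [hf]
    calc β * (hh c₁ c₂ z * Real.exp (w z))
        ≤ β * (hh c₁ c₂ z * (Real.exp (1 / 5) * (1 + ‖z‖) ^ (1 / 5 : ℝ))) := by gcongr
      _ = _ := by ring

end Pool.Agent.Lib.Helper82.Ell
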