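import Pool.Agent.Lib.Helper82.Ell.Fix
import Pool.Agent.Lib.Helper82.Mob.Wirt

/-!
# Regularity of the logarithmic potential
-/

set_option autoImplicit false

open MeasureTheory Complex Set Topology Filter
open scoped ContDiff Real Interval
open Pool.Agent.Lib.Helper82.Mob

namespace Pool.Agent.Lib.Helper82.Ell

/-- The real linear form `v ↦ Re (v c)`. -/
noncomputable def reM (c : ℂ) : ℂ →L[ℝ] ℝ :=
  Complex.reCLM.comp ((ContinuousLinearMap.mul ℝ ℂ) c)

lemma reM_apply (c v : ℂ) : reM c v = (v * c).re := by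
  simp [reM, mul_comm]

lemma reM_eq (c v : ℂ) : reM c v = (c * v).re := by
  simp [reM]

lemma norm_reM_le (c : ℂ) : ‖reM c‖ ≤ ‖c‖ := by
  apply ContinuousLinearMap.opNorm_le_bound _ (norm_nonneg _)
  intro v
  rw [reM_eq, Real.norm_eq_abs]
  exact (Complex.abs_re_le_norm _).trans (norm_mul_le _ _)

/-- `c ↦ reM c` as a continuous linear map. -/
noncomputable def reMC : ℂ →L[ℝ] (ℂ →L[ℝ] ℝ) :=
  (ContinuousLinearMap.compL ℝ ℂ ℂ ℝ Complex.reCLM).comp (ContinuousLinearMap.mul ℝ ℂ)

lemma reMC_apply (c : ℂ) : reMC c = reM c := rfl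

lemma hasFDerivAt_log_norm {w : ℂ} (hw : w ≠ 0) :
    HasFDerivAt (fun w : ℂ => Real.log ‖w‖) (reM w⁻¹) w := by
  have hn : 0 < ‖w‖ := norm_pos_iff.mpr hw
  have h1 : HasFDerivAt (fun w : ℂ => ‖w‖ ^ 2) (2 • (innerSL ℝ w)) w := by
    have := (hasFDerivAt_id (𝕜 := ℝ) w).norm_sq
    simpa using this
  have h2 : HasFDerivAt (fun w : ℂ => Real.log (‖w‖ ^ 2)) ((‖w‖ ^ 2)⁻¹ • (2 • (innerSL ℝ w))) w :=
    h1.log (by positivity)
  have h3 : HasFDerivAt (fun w : ℂ => (1 / 2) * Real.log (‖w‖ ^ 2))
      ((1 / 2 : ℝ) • ((‖w‖ ^ 2)⁻¹ • (2 • (innerSL ℝ w)))) w := h2.const_mul (1 / 2 : ℝ)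
  have e1 : (fun w : ℂ => Real.log ‖w‖) = fun w : ℂ => (1 / 2) * Real.log (‖w‖ ^ 2) := by
    funext w; rw [Real.log_pow]; push_cast; ring
  rw [e1]
  refine h3.congr_fderiv ?_
  ext v
  rw [reM_apply, Complex.inv_def]
  simp only [_root_.smul_apply, innerSL_apply_apply, Complex.inner, smul_eq_mul, nsmul_eq_mul,
    Complex.normSq_eq_norm_sq, Complex.mul_re, Complex.conj_re, Complex.conj_im,
    Complex.ofReal_re, Complex.ofReal_im, Complex.mul_im]
  push_cast
  ring

lemma line_null (z : ℂ) {v : ℂ} (hv : v ≠ 0) : ∀ᵐ x : ℂ, ∀ s : ℝ, z + s * v - x ≠ 0 := by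
  have hne : (AffineSubspace.mk' z (Submodule.span ℝ {v})) ≠ ⊤ := by
    intro h
    have h1 : (AffineSubspace.mk' z (Submodule.span ℝ {v})).direction = ⊤ := by
      rw [h]; exact AffineSubspace.direction_top ℝ ℂ ℂ
    rw [AffineSubspace.direction_mk'] at h1
    have h2 : Module.finrank ℝ (Submodule.span ℝ {v}) = 1 := finrank_span_singleton hv
    rw [h1, finrank_top, Complex.finrank_real_complex] at h2
    norm_num at h2
  have h0 := Measure.addHaar_affineSubspace volume _ hne
  have : ∀ᵐ x : ℂ, x ∉ (AffineSubspace.mk' z (Submodule.span ℝ {v}) : Set ℂ) :=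
    compl_mem_ae_iff.mpr h0
  filter_upwards [this] with x hx s hs
  apply hx
  have hxe : x = z + s * v := by linear_combination -hs
  rw [SetLike.mem_coe, AffineSubspace.mem_mk', hxe]
  rw [Submodule.mem_span_singleton]
  exact ⟨s, by simp⟩

lemma ftc_pt (z v x : ℂ) (h : ∀ s : ℝ, z + s * v - x ≠ 0) :
    Real.log ‖z + v - x‖ - Real.log ‖z - x‖ = ∫ s in (0:ℝ)..1, (v * (z + s * v - x)⁻¹).re := by
  have hd : ∀ s ∈ uIcc (0:ℝ) 1, HasDerivAt (fun s : ℝ => Real.log ‖z + s * v - x‖)
      ((v * (z + s * v - x)⁻¹).re) s := by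
    intro s _
    have h1 : HasDerivAt (fun s : ℝ => z + s * v - x) v s := by
      have h2 : HasDerivAt (fun s : ℝ => (s : ℂ)) 1 s := Complex.ofRealCLM.hasDerivAt
      have h3 := ((h2.mul_const v).const_add z).sub_const x
      simpa using h3
    have h2 := (hasFDerivAt_log_norm (h s)).comp_hasDerivAt s h1
    rw [reM_apply] at h2
    exact h2
  have hcont : Continuous (fun s : ℝ => (v * (z + s * v - x)⁻¹).re) := by
    apply Complex.continuous_re.comp
    apply continuous_const.mul
    apply Continuous.inv₀ (by fun_prop) h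
  have := intervalIntegral.integral_eq_sub_of_hasDerivAt hd (hcont.intervalIntegrable _ _)
  rw [this]
  simp

/-- The Cauchy transform of a real density. -/
noncomputable def cT' (f : ℂ → ℝ) (z : ℂ) : ℂ := ∫ x, (z - x)⁻¹ * (f x : ℂ)

lemma cT'_eq (f : ℂ → ℝ) : cT' f = cauchyT (fun x => (f x : ℂ)) := by
  funext z
  rw [cauchyT_eq']; rfl

lemma cs_ofReal {g : ℂ → ℝ} (hs : HasCompactSupport g) : HasCompactSupport (fun x => (g x : ℂ)) :=
  hs.comp_left (g := fun r : ℝ => (r : ℂ)) (by simp)

lemma continuous_cT' {g : ℂ → ℝ} (hg : Continuous g) (hs : HasCompactSupport g) :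
    Continuous (cT' g) := by
  rw [cT'_eq, cauchyT_eq]
  exact (cs_ofReal hs).continuous_convolution_right _ locallyIntegrable_inv
    (Complex.continuous_ofReal.comp hg)

lemma integrable_inv_sub {g : ℂ → ℝ} (hg : Continuous g) (hs : HasCompactSupport g) (w : ℂ) :
    Integrable (fun x => (w - x)⁻¹ * (g x : ℂ)) := by
  have h1 : Integrable (fun t : ℂ => t⁻¹ * (g (w - t) : ℂ)) := by
    apply integrable_inv_mul (g := fun t => (g (w - t) : ℂ))
    · exact Complex.continuous_ofReal.comp (hg.comp (continuous_const.sub continuous_id))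
    · exact (cs_ofReal hs).comp_homeomorph (Homeomorph.subLeft w)
  have h2 := h1.comp_sub_left w
  refine h2.congr (Eventually.of_forall fun x => ?_)
  simp

lemma integrable_log_sub {g : ℂ → ℝ} (hg : Continuous g) (hs : HasCompactSupport g) (w : ℂ) :
    Integrable (fun x => Real.log ‖w - x‖ * g x) := by
  have hloc : LocallyIntegrable (fun t : ℂ => Real.log ‖t‖) volume := by
    have h1 : LocallyIntegrable (fun t : ℂ => 5 * ‖t‖ ^ (-(1 / 5) : ℝ)) volume := by
      refine locallyIntegrable_of_norm_le_rpow (C := 5) (α := 1 / 5) (by simp) (by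
        rw [Complex.finrank_real_complex]; norm_num)
        (Eventually.of_forall fun x => ?_)
        (by fun_prop : Measurable fun t : ℂ => 5 * ‖t‖ ^ (-(1 / 5) : ℝ)).aestronglyMeasurable
      rw [Real.norm_of_nonneg (by positivity)]
    have h2 : LocallyIntegrable (fun t : ℂ => qq 0 * qq t + 5 * ‖t‖ ^ (-(1 / 5) : ℝ)) volume :=
      ((continuous_const.mul continuous_qq).locallyIntegrable).add h1
    refine h2.mono (by fun_prop : Measurable fun t : ℂ => Real.log ‖t‖).aestronglyMeasurable
      (Eventually.of_forall fun x => ?_)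
    have h3 := log_kernel_le 0 x
    rw [zero_sub, norm_neg] at h3
    rw [Real.norm_eq_abs]
    refine h3.trans (le_abs_self _)
  have h : Integrable (fun t : ℂ => g (w - t) • Real.log ‖t‖) :=
    hloc.integrable_smul_left_of_hasCompactSupport (hg.comp (continuous_const.sub continuous_id))
      (hs.comp_homeomorph (Homeomorph.subLeft w))
  have h2 := h.comp_sub_left w
  refine h2.congr (Eventually.of_forall fun x => ?_)
  simp [mul_comm]

theorem pot_ftc {g : ℂ → ℝ} (hg : Continuous g) (hs : HasCompactSupport g) (z v : ℂ) :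
    pot g (z + v) - pot g z = ∫ s in (0:ℝ)..1, (v * cT' g (z + s * v)).re := by
  by_cases hv : v = 0
  · subst hv; simp
  have e1 : pot g (z + v) - pot g z
      = ∫ x, ∫ s in Ioc (0:ℝ) 1, g x * (v * (z + s * v - x)⁻¹).re := by
    rw [pot, pot, ← integral_sub (integrable_log_sub hg hs _) (integrable_log_sub hg hs _)]
    apply integral_congr_ae
    filter_upwards [line_null z hv] with x hx
    rw [← sub_mul, ftc_pt z v x hx, intervalIntegral.integral_of_le zero_le_one, mul_comm,
      ← integral_const_mul]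
  have hmeas : Measurable (Function.uncurry fun (x : ℂ) (s : ℝ) => g x * (v * (z + s * v - x)⁻¹).re) := by
    have h1 := hg.measurable
    unfold Function.uncurry
    fun_prop
  have hR : Continuous (fun w : ℂ => ∫ x, ‖w - x‖⁻¹ * |g x|) := by
    have h1 : LocallyIntegrable (fun t : ℂ => ‖t‖⁻¹) volume := by
      refine locallyIntegrable_of_norm_le_rpow (C := 1) (α := 1) (by simp) (by simp)
        (Eventually.of_forall fun x => ?_)
        (by fun_prop : Measurable fun t : ℂ => ‖t‖⁻¹).aestronglyMeasurable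
      rw [norm_inv, norm_norm, Real.rpow_neg (norm_nonneg _), Real.rpow_one, one_mul]
    have h2 := (hs.norm).continuous_convolution_right (ContinuousLinearMap.mul ℝ ℝ) h1 hg.norm
    have h3 : (fun w : ℂ => ∫ x, ‖w - x‖⁻¹ * |g x|) = convolution (fun t : ℂ => ‖t‖⁻¹)
        (fun x => ‖g x‖) (ContinuousLinearMap.mul ℝ ℝ) volume := by
      funext w
      rw [convolution, ← integral_sub_left_eq_self _ volume w]
      simp
    rw [h3]; exact h2
  have hint : Integrable (Function.uncurry fun (x : ℂ) (s : ℝ) => g x * (v * (z + s * v - x)⁻¹).re)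
      ((volume : Measure ℂ).prod (volume.restrict (Ioc (0:ℝ) 1))) := by
    rw [integrable_prod_iff' hmeas.aestronglyMeasurable]
    have hpt : ∀ (s : ℝ) (x : ℂ), ‖g x * (v * (z + s * v - x)⁻¹).re‖
        ≤ ‖v‖ * (‖z + s * v - x‖⁻¹ * |g x|) := by
      intro s x
      rw [norm_mul, Real.norm_eq_abs, Real.norm_eq_abs]
      have : |(v * (z + s * v - x)⁻¹).re| ≤ ‖v‖ * ‖z + s * v - x‖⁻¹ := by
        refine (Complex.abs_re_le_norm _).trans ?_
        rw [norm_mul, norm_inv]
      calc |g x| * |(v * (z + s * v - x)⁻¹).re| ≤ |g x| * (‖v‖ * ‖z + s * v - x‖⁻¹) := by gcongr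
        _ = _ := by ring
    have hI : ∀ s : ℝ, Integrable (fun x => ‖v‖ * (‖z + s * v - x‖⁻¹ * |g x|)) := by
      intro s
      have := (integrable_inv_sub hg hs (z + s * v)).norm
      refine (this.congr (Eventually.of_forall fun x => ?_)).const_mul ‖v‖
      simp
    have hI2 : ∀ s : ℝ, Integrable (fun x => g x * (v * (z + s * v - x)⁻¹).re) := by
      intro s
      refine (hI s).mono' (hmeas.comp (measurable_id.prodMk measurable_const)).aestronglyMeasurable
        (Eventually.of_forall fun x => hpt s x)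
    refine ⟨Eventually.of_forall fun s => hI2 s, ?_⟩
    have hb : Integrable (fun s : ℝ => ‖v‖ * ∫ x, ‖z + s * v - x‖⁻¹ * |g x|)
        (volume.restrict (Ioc (0:ℝ) 1)) := by
      have : Continuous (fun s : ℝ => ‖v‖ * ∫ x, ‖z + s * v - x‖⁻¹ * |g x|) :=
        continuous_const.mul (hR.comp (by fun_prop : Continuous fun s : ℝ => z + s * v))
      exact this.integrableOn_Ioc
    refine hb.mono' ?_ (Eventually.of_forall fun s => ?_)
    · exact (hmeas.norm.stronglyMeasurable.integral_prod_left').aestronglyMeasurable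
    · rw [Real.norm_of_nonneg (integral_nonneg fun x => norm_nonneg _), ← integral_const_mul]
      exact integral_mono (hI2 s).norm (hI s) (fun x => hpt s x)
  rw [e1, integral_integral_swap hint, intervalIntegral.integral_of_le zero_le_one]
  apply integral_congr_ae
  refine Eventually.of_forall fun s => ?_
  simp only
  have h1 : (v * cT' g (z + s * v)).re = ∫ x, (v * ((z + s * v - x)⁻¹ * (g x : ℂ))).re := by
    rw [cT', ← integral_const_mul]
    exact (integral_re ((integrable_inv_sub hg hs (z + s * v)).const_mul v)).symm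
  rw [h1]
  apply integral_congr_ae
  refine Eventually.of_forall fun x => ?_
  simp only
  rw [← mul_assoc, mul_comm _ (g x : ℂ), Complex.re_ofReal_mul]

theorem hasFDerivAt_pot_cs {g : ℂ → ℝ} (hg : Continuous g) (hs : HasCompactSupport g) (z : ℂ) :
    HasFDerivAt (pot g) (reM (cT' g z)) z := by
  have hc := continuous_cT' hg hs
  rw [hasFDerivAt_iff_isLittleO_nhds_zero, Asymptotics.isLittleO_iff]
  intro ε hε
  obtain ⟨δ, hδ, hδ2⟩ := Metric.continuousAt_iff.mp hc.continuousAt ε hε
  filter_upwards [Metric.ball_mem_nhds (0:ℂ) hδ] with v hv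
  have hv' : ‖v‖ < δ := by simpa using hv
  have h1 : (∫ s in (0:ℝ)..1, (v * cT' g z).re) = reM (cT' g z) v := by
    rw [intervalIntegral.integral_const, reM_apply]; simp
  have hcs : Continuous (fun s : ℝ => (v * cT' g (z + s * v)).re) :=
    Complex.continuous_re.comp (continuous_const.mul (hc.comp
      (by fun_prop : Continuous fun s : ℝ => z + s * v)))
  rw [pot_ftc hg hs, ← h1, ← intervalIntegral.integral_sub (hcs.intervalIntegrable _ _)
    (continuous_const.intervalIntegrable _ _)]
  have h2 : ∀ s ∈ Ι (0:ℝ) 1, ‖(v * cT' g (z + s * v)).re - (v * cT' g z).re‖ ≤ ε * ‖v‖ := by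
    intro s hs'
    rw [uIoc_of_le zero_le_one] at hs'
    rw [← Complex.sub_re, ← mul_sub, Real.norm_eq_abs]
    refine (Complex.abs_re_le_norm _).trans ?_
    rw [norm_mul, mul_comm]
    have h3 : dist (z + s * v) z < δ := by
      rw [dist_eq_norm, add_sub_cancel_left, norm_mul, Complex.norm_real, Real.norm_of_nonneg hs'.1.le]
      calc s * ‖v‖ ≤ 1 * ‖v‖ := by gcongr; exact hs'.2
        _ < δ := by rwa [one_mul]
    have h4 := hδ2 h3
    rw [dist_eq_norm] at h4
    gcongr
  have h3 := intervalIntegral.norm_integral_le_of_norm_le_const h2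
  simpa using h3

end Pool.Agent.Lib.Helper82.Ell
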