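import Pool.Agent.Lib.Helper82.Ell.Reg

/-!
# Smoothness and the equation for the potential
-/

set_option autoImplicit false

open MeasureTheory Complex Set Topology Filter
open scoped ContDiff Real Interval
open Pool.Agent.Lib.Helper82.Mob

namespace Pool.Agent.Lib.Helper82.Ell

lemma norm_sub_ge {z₀ z x : ℂ} {r : ℝ} (hz : z ∈ Metric.ball z₀ (r / 2)) (hx : x ∉ Metric.ball z₀ r) :
    r / 2 ≤ ‖z - x‖ := by
  rw [Metric.mem_ball, dist_eq_norm] at hz hx
  rw [not_lt] at hx
  have : ‖x - z₀‖ ≤ ‖z - z₀‖ + ‖z - x‖ := by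
    have := norm_sub_le (z - z₀) (z - x)
    rwa [show (z - z₀) - (z - x) = x - z₀ by ring] at this
  linarith

/-- The far part: the potential is differentiable. -/
theorem hasFDerivAt_pot_far {f : ℂ → ℝ} {z₀ : ℂ} {r : ℝ} (hr : 0 < r) (hf : Integrable f)
    (hl : ∀ z, Integrable (fun x => Real.log ‖z - x‖ * f x))
    (h0 : ∀ x ∈ Metric.ball z₀ r, f x = 0) {z : ℂ} (hz : z ∈ Metric.ball z₀ (r / 2)) :
    HasFDerivAt (pot f) (reM (cT' f z)) z := by
  have hs : Metric.ball z₀ (r / 2) ∈ 𝓝 z := Metric.isOpen_ball.mem_nhds hz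
  have hr2 : 0 < r / 2 := by positivity
  have hmeas : AEStronglyMeasurable (fun x => (z - x)⁻¹ * (f x : ℂ)) :=
    (by fun_prop : Measurable fun x : ℂ => (z - x)⁻¹).aestronglyMeasurable.mul
      (Complex.continuous_ofReal.comp_aestronglyMeasurable hf.1)
  have hbd : ∀ x, ∀ y ∈ Metric.ball z₀ (r / 2), ‖(y - x)⁻¹ * (f x : ℂ)‖ ≤ (r / 2)⁻¹ * |f x| := by
    intro x y hy
    by_cases hx : x ∈ Metric.ball z₀ r
    · rw [h0 x hx]; simp
    · have h1 := norm_sub_ge hy hx
      rw [norm_mul, norm_inv, Complex.norm_real, Real.norm_eq_abs]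
      gcongr
  have h := hasFDerivAt_integral_of_dominated_of_fderiv_le (𝕜 := ℝ) (μ := volume)
    (F := fun z x => Real.log ‖z - x‖ * f x) (F' := fun z x => reM ((z - x)⁻¹ * (f x : ℂ)))
    (bound := fun x => (r / 2)⁻¹ * |f x|) (x₀ := z) hs
    (Eventually.of_forall fun y => (hl y).1) (hl z)
    (reMC.continuous.comp_aestronglyMeasurable hmeas)
    (Eventually.of_forall fun x y hy => (norm_reM_le _).trans (hbd x y hy))
    (hf.abs.const_mul _)
    (Eventually.of_forall fun x y hy => by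
      by_cases hx : x ∈ Metric.ball z₀ r
      · rw [h0 x hx]
        have : reM ((y - x)⁻¹ * ((0:ℝ) : ℂ)) = 0 := by ext v; simp [reM]
        rw [this]
        simpa using hasFDerivAt_const (0:ℝ) y
      · have h1 := norm_sub_ge hy hx
        have h2 : y - x ≠ 0 := norm_pos_iff.mp (hr2.trans_le h1)
        have h3 := (hasFDerivAt_log_norm h2).comp y ((hasFDerivAt_id (𝕜 := ℝ) y).sub_const x)
        have h4 := h3.mul_const (f x)
        refine h4.congr_fderiv ?_
        ext v
        simp only [_root_.smul_apply, ContinuousLinearMap.comp_apply, ContinuousLinearMap.id_apply,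
          reM_eq, smul_eq_mul]
        rw [mul_comm ((y - x)⁻¹) (f x : ℂ), mul_assoc, Complex.re_ofReal_mul])
  have e : ∫ x, reM ((z - x)⁻¹ * (f x : ℂ)) = reM (cT' f z) := by
    have hi : Integrable (fun x => (z - x)⁻¹ * (f x : ℂ)) :=
      (hf.abs.const_mul (r / 2)⁻¹).mono' hmeas (Eventually.of_forall fun x => hbd x z hz)
    have := reMC.integral_comp_comm hi
    rw [cT', ← reMC_apply, ← this]
    rfl
  rw [e] at h
  exact h

/-- The far part: the Cauchy transform is holomorphic. -/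
theorem differentiableAt_cT'_far {f : ℂ → ℝ} {z₀ : ℂ} {r : ℝ} (hr : 0 < r) (hf : Integrable f)
    (h0 : ∀ x ∈ Metric.ball z₀ r, f x = 0) {z : ℂ} (hz : z ∈ Metric.ball z₀ (r / 2)) :
    DifferentiableAt ℂ (cT' f) z := by
  have hs : Metric.ball z₀ (r / 2) ∈ 𝓝 z := Metric.isOpen_ball.mem_nhds hz
  have hr2 : 0 < r / 2 := by positivity
  have hfc : AEStronglyMeasurable (fun x => (f x : ℂ)) := Complex.continuous_ofReal.comp_aestronglyMeasurable hf.1
  have hmeas : ∀ z : ℂ, AEStronglyMeasurable (fun x => (z - x)⁻¹ * (f x : ℂ)) := fun z =>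
    (by fun_prop : Measurable fun x : ℂ => (z - x)⁻¹).aestronglyMeasurable.mul hfc
  have hbd : ∀ x, ∀ y ∈ Metric.ball z₀ (r / 2), ‖(y - x)⁻¹ * (f x : ℂ)‖ ≤ (r / 2)⁻¹ * |f x| := by
    intro x y hy
    by_cases hx : x ∈ Metric.ball z₀ r
    · rw [h0 x hx]; simp
    · have h1 := norm_sub_ge hy hx
      rw [norm_mul, norm_inv, Complex.norm_real, Real.norm_eq_abs]
      gcongr
  have h := hasDerivAt_integral_of_dominated_loc_of_deriv_le (𝕜 := ℂ) (μ := volume)
    (F := fun z x => (z - x)⁻¹ * (f x : ℂ)) (F' := fun z x => -((z - x) ^ 2)⁻¹ * (f x : ℂ))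
    (bound := fun x => ((r / 2) ^ 2)⁻¹ * |f x|) (x₀ := z) hs
    (Eventually.of_forall fun y => hmeas y)
    ((hf.abs.const_mul (r / 2)⁻¹).mono' (hmeas z) (Eventually.of_forall fun x => hbd x z hz))
    ((by fun_prop : Measurable fun x : ℂ => -((z - x) ^ 2)⁻¹).aestronglyMeasurable.mul hfc)
    (Eventually.of_forall fun x y hy => by
      by_cases hx : x ∈ Metric.ball z₀ r
      · rw [h0 x hx]; simp
      · have h1 := norm_sub_ge hy hx
        rw [norm_mul, norm_neg, norm_inv, norm_pow, Complex.norm_real, Real.norm_eq_abs]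
        gcongr)
    (hf.abs.const_mul _)
    (Eventually.of_forall fun x y hy => by
      by_cases hx : x ∈ Metric.ball z₀ r
      · rw [h0 x hx]; simpa using hasDerivAt_const y (0:ℂ)
      · have h1 := norm_sub_ge hy hx
        have h2 : y - x ≠ 0 := norm_pos_iff.mp (hr2.trans_le h1)
        have h3 : HasDerivAt (fun y : ℂ => (y - x)⁻¹) (-((y - x) ^ 2)⁻¹) y := by
          have := ((hasDerivAt_id y).sub_const x).fun_inv h2
          refine this.congr_deriv ?_
          simp [neg_div]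
        exact h3.mul_const _)
  exact h.2.differentiableAt

lemma pot_add {f g : ℂ → ℝ} {z : ℂ} (hf : Integrable (fun x => Real.log ‖z - x‖ * f x))
    (hg : Integrable (fun x => Real.log ‖z - x‖ * g x)) :
    pot (fun x => f x + g x) z = pot f z + pot g z := by
  rw [pot, pot, pot, ← integral_add hf hg]
  congr 1
  funext x; ring

/-- Local structure of the potential. -/
theorem pot_local {f : ℂ → ℝ} {z₀ : ℂ} {R : ℝ} (hR : 0 < R) (hf : Integrable f)
    (hl : ∀ z, Integrable (fun x => Real.log ‖z - x‖ * f x)) {n : ℕ∞}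
    (hn : ContDiffOn ℝ n f (Metric.ball z₀ R)) :
    ∃ (c : ℂ → ℂ) (δ : ℝ), 0 < δ ∧ δ ≤ R ∧ ContDiffOn ℝ n c (Metric.ball z₀ δ) ∧
      (∀ z ∈ Metric.ball z₀ δ, HasFDerivAt (pot f) (reM (c z)) z) ∧
      (1 ≤ n → ∀ z ∈ Metric.ball z₀ δ, dzb c z = π * f z) := by
  obtain ⟨χ, h1, h2, h3, h4, h5⟩ := exists_cutoff_compact (isCompact_closedBall z₀ (R / 2))
    (Metric.isOpen_ball (x := z₀) (ε := R)) (Metric.closedBall_subset_ball (by linarith))
  have hχ0 : ∀ᶠ x in 𝓝ˢ (Metric.ball z₀ R)ᶜ, χ x = 0 := by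
    have hopen : IsOpen (tsupport χ)ᶜ := (isClosed_tsupport χ).isOpen_compl
    have hsub : (Metric.ball z₀ R)ᶜ ⊆ (tsupport χ)ᶜ := compl_subset_compl.mpr h4
    have := hopen.mem_nhdsSet.mpr hsub
    filter_upwards [this] with x hx
    exact image_eq_zero_of_notMem_tsupport hx
  have hg : ContDiff ℝ n (fun z => χ z • f z) := contDiff_cutoff_smul Metric.isOpen_ball h1 hχ0 hn
  set g : ℂ → ℝ := fun z => χ z * f z with hgdef
  have hg' : ContDiff ℝ n g := hg
  have hgs : HasCompactSupport g := h3.mul_right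
  set f₂ : ℂ → ℝ := fun z => (1 - χ z) * f z with hf₂
  have hsum : f = fun z => g z + f₂ z := by funext z; rw [hgdef, hf₂]; ring
  have hχ1 : ∀ x ∈ Metric.ball z₀ (R / 2), χ x = 1 := by
    intro x hx
    exact h2.self_of_nhdsSet x (Metric.ball_subset_closedBall hx)
  have hχb : ∀ x, |1 - χ x| ≤ 1 := by
    intro x
    have := h5 x
    rw [abs_le]; constructor <;> linarith [this.1, this.2]
  have hχm : Continuous χ := h1.continuous
  have hf₂i : Integrable f₂ := by
    refine hf.norm.mono' ((continuous_const.sub hχm).aestronglyMeasurable.mul hf.1)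
      (Eventually.of_forall fun x => ?_)
    rw [hf₂]
    simp only
    rw [norm_mul, Real.norm_eq_abs (1 - χ x)]
    calc |1 - χ x| * ‖f x‖ ≤ 1 * ‖f x‖ := by gcongr; exact hχb x
      _ = _ := one_mul _
  have hl₂ : ∀ z, Integrable (fun x => Real.log ‖z - x‖ * f₂ x) := by
    intro z
    refine (hl z).norm.mono' ((measurable_log z).aestronglyMeasurable.mul hf₂i.1)
      (Eventually.of_forall fun x => ?_)
    rw [hf₂]
    simp only
    rw [← mul_assoc, mul_comm (Real.log _) (1 - χ x), mul_assoc, norm_mul (1 - χ x),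
      Real.norm_eq_abs (1 - χ x)]
    calc |1 - χ x| * ‖Real.log ‖z - x‖ * f x‖ ≤ 1 * ‖Real.log ‖z - x‖ * f x‖ := by
          gcongr; exact hχb x
      _ = _ := one_mul _
  have h0 : ∀ x ∈ Metric.ball z₀ (R / 2), f₂ x = 0 := by
    intro x hx
    rw [hf₂]; simp only; rw [hχ1 x hx]; ring
  have hpot : pot f = fun z => pot g z + pot f₂ z := by
    funext z
    conv_lhs => rw [hsum]
    exact pot_add (integrable_log_sub hg'.continuous hgs z) (hl₂ z)
  have hhol : DifferentiableOn ℂ (cT' f₂) (Metric.ball z₀ (R / 2 / 2)) := fun z hz =>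
    (differentiableAt_cT'_far (by positivity) hf₂i h0 hz).differentiableWithinAt
  have hgc : ContDiff ℝ n (fun x => (g x : ℂ)) := Complex.ofRealCLM.contDiff.comp hg'
  have hcg : ContDiff ℝ n (cT' g) := by
    rw [cT'_eq, cauchyT_eq]
    exact (cs_ofReal hgs).contDiff_convolution_right _ locallyIntegrable_inv hgc
  refine ⟨fun z => cT' g z + cT' f₂ z, R / 2 / 2, by positivity, by linarith, ?_, ?_, ?_⟩
  · apply hcg.contDiffOn.add
    have h6 : ContDiffOn ℂ n (cT' f₂) (Metric.ball z₀ (R / 2 / 2)) := hhol.contDiffOn Metric.isOpen_ball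
    exact h6.restrict_scalars ℝ
  · intro z hz
    rw [hpot]
    have a1 := hasFDerivAt_pot_cs hg'.continuous hgs z
    have a2 := hasFDerivAt_pot_far (by positivity) hf₂i hl₂ h0 hz
    refine (a1.add a2).congr_fderiv ?_
    ext v
    simp only [_root_.add_apply, reM_eq]
    rw [add_mul, Complex.add_re]
  · intro hn1 z hz
    have hz' : z ∈ Metric.ball z₀ (R / 2) := Metric.ball_subset_ball (by linarith) hz
    have hd1 : DifferentiableAt ℝ (cT' g) z :=
      hcg.differentiable (by
        rintro h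
        have : (n : WithTop ℕ∞) = 0 := h
        have h7 : n = 0 := by exact_mod_cast this
        rw [h7] at hn1
        exact absurd hn1 (by simp)) z
    have hd2 : DifferentiableAt ℂ (cT' f₂) z := differentiableAt_cT'_far (by positivity) hf₂i h0 hz
    rw [dzb_add hd1 (hd2.restrictScalars ℝ), (differentiableAt_iff_dzb (hd2.restrictScalars ℝ)).mp hd2,
      add_zero, cT'_eq, dzb_cauchyT (hgc.of_le (by exact_mod_cast hn1)) (cs_ofReal hgs)]
    simp only [hgdef, hχ1 z hz', one_mul]

end Pool.Agent.Lib.Helper82.Ell
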