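import Pool.Agent.Lib.Helper82.Ell.Defs

/-!
# The Weierstrass function of the Gaussian lattice: special points are isolated
-/

set_option autoImplicit false

open MeasureTheory Complex Set Topology Filter
open scoped ContDiff Real

namespace Pool.Agent.Lib.Helper82.Ell

/-- The period pair `(1, i)`. -/
noncomputable def LG : PeriodPair where
  ω₁ := 1
  ω₂ := I
  indep := by
    rw [LinearIndependent.pair_iff]
    intro s t h
    have h1 := congrArg Complex.re h
    have h2 := congrArg Complex.im h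
    simp at h1 h2
    exact ⟨h1, h2⟩

lemma mem_LG {x : ℂ} : x ∈ LG.lattice ↔ x ∈ Gau := by
  rw [PeriodPair.mem_lattice]
  constructor
  · rintro ⟨m, n, h⟩
    exact ⟨m, n, by rw [← h]; simp [LG]⟩
  · rintro ⟨m, n, h⟩
    exact ⟨m, n, by rw [h]; simp [LG]⟩

lemma zero_mem_LG : (0 : ℂ) ∈ LG.lattice := LG.lattice.zero_mem

lemma countable_LG : (LG.lattice : Set ℂ).Countable := by
  have : (LG.lattice : Set ℂ) ⊆ range (fun p : ℤ × ℤ => ((p.1 : ℂ) + p.2 * I)) := by
    intro x hx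
    obtain ⟨m, n, h⟩ := mem_LG.mp hx
    exact ⟨(m, n), h.symm⟩
  exact (countable_range _).mono this

lemma isPreconnected_compl_LG : IsPreconnected ((LG.lattice : Set ℂ)ᶜ) :=
  (countable_LG.isConnected_compl_of_one_lt_rank (by simp)).2

lemma tendsto_sq_mul_P (l : LG.lattice) :
    Tendsto (fun x : ℂ => (x - l) ^ 2 * LG.weierstrassP x) (𝓝[≠] (l : ℂ)) (𝓝 1) := by
  have hd : DifferentiableAt ℂ (LG.weierstrassPExcept l) l :=
    (LG.differentiableOn_weierstrassPExcept l).differentiableAt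
      (LG.compl_lattice_sdiff_singleton_mem_nhds l)
  have h1 : Tendsto (fun x : ℂ => (x - l) ^ 2 * (LG.weierstrassPExcept l x - 1 / (l : ℂ) ^ 2) + 1)
      (𝓝 (l : ℂ)) (𝓝 1) := by
    have h2 : ContinuousAt (fun x : ℂ => (x - l) ^ 2 * (LG.weierstrassPExcept l x - 1 / (l : ℂ) ^ 2) + 1) l :=
      (((continuousAt_id.sub continuousAt_const).pow 2).mul
        (hd.continuousAt.sub continuousAt_const)).add continuousAt_const
    have h3 := h2.tendsto
    simpa using h3
  refine (h1.mono_left nhdsWithin_le_nhds).congr' ?_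
  filter_upwards [self_mem_nhdsWithin] with x hx
  have hx' : x - l ≠ 0 := sub_ne_zero.mpr hx
  rw [← LG.weierstrassPExcept_add l x]
  field_simp
  ring

lemma tendsto_cube_mul_dP (l : LG.lattice) :
    Tendsto (fun x : ℂ => (x - l) ^ 3 * LG.derivWeierstrassP x) (𝓝[≠] (l : ℂ)) (𝓝 (-2)) := by
  have hd : DifferentiableAt ℂ (LG.derivWeierstrassPExcept l) l :=
    (LG.differentiableOn_derivWeierstrassPExcept l).differentiableAt
      (LG.compl_lattice_sdiff_singleton_mem_nhds l)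
  have h1 : Tendsto (fun x : ℂ => (x - l) ^ 3 * (LG.derivWeierstrassPExcept l x) - 2)
      (𝓝 (l : ℂ)) (𝓝 (-2)) := by
    have h2 : ContinuousAt (fun x : ℂ => (x - l) ^ 3 * (LG.derivWeierstrassPExcept l x) - 2) l :=
      (((continuousAt_id.sub continuousAt_const).pow 3).mul
        hd.continuousAt).sub continuousAt_const
    have h3 := h2.tendsto
    simpa using h3
  refine (h1.mono_left nhdsWithin_le_nhds).congr' ?_
  filter_upwards [self_mem_nhdsWithin] with x hx
  have hx' : x - l ≠ 0 := sub_ne_zero.mpr hx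
  rw [← LG.derivWeierstrassPExcept_sub l x]
  field_simp

/-- Zeros of an analytic function on the complement of the lattice with blow-up at the lattice. -/
lemma good_nhds {f : ℂ → ℂ} (hf : AnalyticOnNhd ℂ f (LG.lattice : Set ℂ)ᶜ)
    (hb : ∀ l ∈ LG.lattice, ∀ᶠ x in 𝓝[≠] l, f x ≠ 0) (s : ℂ) :
    ∀ᶠ x in 𝓝[≠] s, x ∉ LG.lattice ∧ f x ≠ 0 := by
  have h1 : ∀ᶠ x in 𝓝[≠] s, x ∉ LG.lattice := by
    have := nhdsWithin_le_nhds (s := {s}ᶜ) (LG.compl_lattice_sdiff_singleton_mem_nhds s)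
    filter_upwards [this, self_mem_nhdsWithin] with x hx hx' hmem
    exact hx ⟨hmem, hx'⟩
  refine h1.and ?_
  by_cases hs : s ∈ LG.lattice
  · exact hb s hs
  · rcases (hf s hs).eventually_eq_zero_or_eventually_ne_zero with h | h
    · exfalso
      have h2 := hf.eqOn_zero_of_preconnected_of_eventuallyEq_zero isPreconnected_compl_LG hs h
      have h3 : ∀ᶠ x in 𝓝[≠] (0 : ℂ), x ∉ LG.lattice := by
        have := nhdsWithin_le_nhds (s := {(0 : ℂ)}ᶜ) (LG.compl_lattice_sdiff_singleton_mem_nhds 0)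
        filter_upwards [this, self_mem_nhdsWithin] with x hx hx' hmem
        exact hx ⟨hmem, hx'⟩
      obtain ⟨x, hx1, hx2⟩ := (h3.and (hb 0 zero_mem_LG)).exists
      exact hx2 (h2 hx1)
    · exact h

lemma P_sub_ne_near (c : ℂ) (l : ℂ) (hl : l ∈ LG.lattice) :
    ∀ᶠ x in 𝓝[≠] l, LG.weierstrassP x - c ≠ 0 := by
  have h1 := tendsto_sq_mul_P ⟨l, hl⟩
  have h2 : Tendsto (fun x : ℂ => (x - l) ^ 2 * c) (𝓝[≠] l) (𝓝 0) := by
    have : Continuous fun x : ℂ => (x - l) ^ 2 * c := by fun_prop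
    have h3 := this.tendsto l
    simp only [sub_self, ne_eq, OfNat.ofNat_ne_zero, not_false_eq_true, zero_pow, zero_mul] at h3
    exact h3.mono_left nhdsWithin_le_nhds
  have h4 := h1.sub h2
  have h5 : ∀ᶠ x in 𝓝[≠] l, (x - l) ^ 2 * LG.weierstrassP x - (x - l) ^ 2 * c ≠ 0 :=
    h4.eventually_ne (by norm_num)
  filter_upwards [h5] with x hx hcon
  apply hx
  rw [← mul_sub, hcon, mul_zero]

lemma dP_ne_near (l : ℂ) (hl : l ∈ LG.lattice) :
    ∀ᶠ x in 𝓝[≠] l, LG.derivWeierstrassP x ≠ 0 := by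
  have h1 := tendsto_cube_mul_dP ⟨l, hl⟩
  filter_upwards [h1.eventually_ne (by norm_num : (-2 : ℂ) ≠ 0)] with x hx hcon
  apply hx
  rw [hcon, mul_zero]

/-- The special points on the universal cover of the base. -/
def Sp (c₁ c₂ : ℂ) : Set ℂ := {s | s ∈ LG.lattice ∨ LG.derivWeierstrassP s = 0 ∨
  LG.weierstrassP s = c₁ ∨ LG.weierstrassP s = c₂}

lemma Sp_isolated (c₁ c₂ s : ℂ) : ∀ᶠ x in 𝓝[≠] s, x ∉ Sp c₁ c₂ := by
  have ha : ∀ c : ℂ, AnalyticOnNhd ℂ (fun x => LG.weierstrassP x - c) (LG.lattice : Set ℂ)ᶜ :=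
    fun c => LG.analyticOnNhd_weierstrassP.sub analyticOnNhd_const
  filter_upwards [good_nhds LG.analyticOnNhd_derivWeierstrassP dP_ne_near s,
    good_nhds (ha c₁) (P_sub_ne_near c₁) s, good_nhds (ha c₂) (P_sub_ne_near c₂) s]
    with x h1 h2 h3
  rintro (h | h | h | h)
  · exact h1.1 h
  · exact h1.2 h
  · exact h2.2 (sub_eq_zero.mpr h)
  · exact h3.2 (sub_eq_zero.mpr h)

lemma isClosed_of_isolated {S : Set ℂ} (h : ∀ s, ∀ᶠ x in 𝓝[≠] s, x ∉ S) : IsClosed S := by
  rw [← isOpen_compl_iff, isOpen_iff_mem_nhds]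
  intro s hs
  have h1 := h s
  rw [eventually_nhdsWithin_iff] at h1
  filter_upwards [h1] with x hx
  by_cases hxs : x = s
  · rw [hxs]; exact hs
  · exact hx hxs

lemma finite_of_isolated {S K : Set ℂ} (h : ∀ s, ∀ᶠ x in 𝓝[≠] s, x ∉ S) (hK : IsCompact K) :
    (S ∩ K).Finite := by
  by_contra hinf
  obtain ⟨x, hxK, hx⟩ := Set.Infinite.exists_accPt_of_subset_isCompact hinf hK inter_subset_right
  rw [accPt_iff_frequently_nhdsNE] at hx
  apply hx
  filter_upwards [h x] with y hy hy'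
  exact hy hy'.1

lemma countable_of_isolated {S : Set ℂ} (h : ∀ s, ∀ᶠ x in 𝓝[≠] s, x ∉ S) : S.Countable := by
  have h1 : S = ⋃ n : ℕ, S ∩ Metric.closedBall 0 n := by
    rw [← inter_iUnion]
    symm
    rw [inter_eq_left]
    intro x _
    rw [mem_iUnion]
    obtain ⟨n, hn⟩ := exists_nat_ge ‖x‖
    exact ⟨n, by simpa using hn⟩
  rw [h1]
  exact countable_iUnion fun n => (finite_of_isolated h (isCompact_closedBall 0 (n : ℝ))).countable

lemma exists_regular_values : ∃ c₁ c₂ : ℂ, c₁ ≠ c₂ ∧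
    (∀ s ∉ LG.lattice, LG.weierstrassP s = c₁ → LG.derivWeierstrassP s ≠ 0) ∧
    (∀ s ∉ LG.lattice, LG.weierstrassP s = c₂ → LG.derivWeierstrassP s ≠ 0) := by
  set Z : Set ℂ := {s | s ∈ LG.lattice ∨ LG.derivWeierstrassP s = 0} with hZ
  have hZc : Z.Countable := by
    apply countable_of_isolated
    intro s
    filter_upwards [good_nhds LG.analyticOnNhd_derivWeierstrassP dP_ne_near s] with x h1
    rintro (h | h)
    · exact h1.1 h
    · exact h1.2 h
  have h2 : (LG.weierstrassP '' Z).Countable := hZc.image _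
  have h3 : ((LG.weierstrassP '' Z)ᶜ).Nonempty := by
    by_contra hcon
    rw [not_nonempty_iff_eq_empty, compl_empty_iff] at hcon
    exact not_countable_complex (hcon ▸ h2)
  obtain ⟨c₁, hc₁⟩ := h3
  have h4 : ((LG.weierstrassP '' Z ∪ {c₁})ᶜ).Nonempty := by
    by_contra hcon
    rw [not_nonempty_iff_eq_empty, compl_empty_iff] at hcon
    exact not_countable_complex (hcon ▸ h2.union (countable_singleton c₁))
  obtain ⟨c₂, hc₂⟩ := h4
  refine ⟨c₁, c₂, fun h => hc₂ (Or.inr h.symm), ?_, ?_⟩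
  · intro s _ h1 h2
    exact hc₁ ⟨s, Or.inr h2, h1⟩
  · intro s _ h1 h2
    exact hc₂ (Or.inl ⟨s, Or.inr h2, h1⟩)

end Pool.Agent.Lib.Helper82.Ell
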