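import Pool.Agent.Lib.Helper82.Ell.Chain
import Pool.Agent.Lib.Helper82.Ell.Torus1

/-!
# The pullback of a hyperbolic cone metric by the Weierstrass function
-/

set_option autoImplicit false

open MeasureTheory Complex Set Topology Filter
open scoped ContDiff Real ComplexConjugate
open Pool.Agent.Lib.Helper82.Mob

namespace Pool.Agent.Lib.Helper82.Ell

variable {c₁ c₂ : ℂ} {ρ : ℂ → ℝ}

/-- The pulled back density (zero at the special points). -/
noncomputable def RR (c₁ c₂ : ℂ) (ρ : ℂ → ℝ) : ℂ → ℝ :=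
  (Sp c₁ c₂)ᶜ.indicator fun s => ρ (LG.weierstrassP s) * ‖LG.derivWeierstrassP s‖ ^ 2

lemma isClosed_Sp : IsClosed (Sp c₁ c₂) := isClosed_of_isolated (Sp_isolated c₁ c₂)

lemma isOpen_compl_Sp : IsOpen (Sp c₁ c₂)ᶜ := isClosed_Sp.isOpen_compl

lemma RR_of_notMem {s : ℂ} (hs : s ∉ Sp c₁ c₂) :
    RR c₁ c₂ ρ s = ρ (LG.weierstrassP s) * ‖LG.derivWeierstrassP s‖ ^ 2 :=
  indicator_of_mem (show s ∈ (Sp c₁ c₂)ᶜ from hs) _

lemma Sp_add {s l : ℂ} (hl : l ∈ LG.lattice) : s + l ∈ Sp c₁ c₂ ↔ s ∈ Sp c₁ c₂ := by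
  have h1 : LG.weierstrassP (s + l) = LG.weierstrassP s := LG.weierstrassP_add_coe s ⟨l, hl⟩
  have h2 : LG.derivWeierstrassP (s + l) = LG.derivWeierstrassP s :=
    LG.derivWeierstrassP_add_coe s ⟨l, hl⟩
  simp only [Sp, Set.mem_ofPred_eq, h1, h2]
  rw [LG.lattice.add_mem_iff_left hl]

lemma RR_add {s l : ℂ} (hl : l ∈ LG.lattice) : RR c₁ c₂ ρ (s + l) = RR c₁ c₂ ρ s := by
  have h1 : LG.weierstrassP (s + l) = LG.weierstrassP s := LG.weierstrassP_add_coe s ⟨l, hl⟩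
  have h2 : LG.derivWeierstrassP (s + l) = LG.derivWeierstrassP s :=
    LG.derivWeierstrassP_add_coe s ⟨l, hl⟩
  by_cases hs : s ∈ Sp c₁ c₂
  · have hs' := (Sp_add hl).mpr hs
    rw [RR, indicator_of_notMem (notMem_compl_iff.mpr hs'), indicator_of_notMem (notMem_compl_iff.mpr hs)]
  · have hs' := fun h => hs ((Sp_add hl).mp h)
    rw [RR_of_notMem hs, RR_of_notMem hs', h1, h2]

lemma P_mem_UU {s : ℂ} (hs : s ∉ Sp c₁ c₂) : LG.weierstrassP s ∈ UU c₁ c₂ := by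
  refine ⟨fun h => hs (Or.inr (Or.inr (Or.inl h))), fun h => hs (Or.inr (Or.inr (Or.inr h)))⟩

lemma notMem_lattice {s : ℂ} (hs : s ∉ Sp c₁ c₂) : s ∉ LG.lattice := fun h => hs (Or.inl h)

lemma dP_ne {s : ℂ} (hs : s ∉ Sp c₁ c₂) : LG.derivWeierstrassP s ≠ 0 :=
  fun h => hs (Or.inr (Or.inl h))

lemma RR_pos (hρ : ∀ z ∈ UU c₁ c₂, 0 < ρ z) {s : ℂ} (hs : s ∉ Sp c₁ c₂) : 0 < RR c₁ c₂ ρ s := by
  rw [RR_of_notMem hs]
  have h1 := hρ _ (P_mem_UU hs)
  have h2 : 0 < ‖LG.derivWeierstrassP s‖ := norm_pos_iff.mpr (dP_ne hs)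
  positivity

lemma RR_nonneg (hρ : ∀ z ∈ UU c₁ c₂, 0 < ρ z) (s : ℂ) : 0 ≤ RR c₁ c₂ ρ s := by
  by_cases hs : s ∈ Sp c₁ c₂
  · rw [RR, indicator_of_notMem (notMem_compl_iff.mpr hs)]
  · exact (RR_pos hρ hs).le

lemma hasDerivAt_P {s : ℂ} (hs : s ∉ LG.lattice) :
    HasDerivAt LG.weierstrassP (LG.derivWeierstrassP s) s := by
  have h := (LG.differentiableOn_weierstrassP.differentiableAt
    (LG.isClosed_lattice.isOpen_compl.mem_nhds hs)).hasDerivAt
  rwa [LG.deriv_weierstrassP] at h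

lemma differentiableAt_dP {s : ℂ} (hs : s ∉ LG.lattice) :
    DifferentiableAt ℂ LG.derivWeierstrassP s :=
  LG.differentiableOn_derivWeierstrassP.differentiableAt
    (LG.isClosed_lattice.isOpen_compl.mem_nhds hs)

lemma contDiffOn_RR (hρ : ContDiffOn ℝ ∞ ρ (UU c₁ c₂)) :
    ContDiffOn ℝ ∞ (RR c₁ c₂ ρ) (Sp c₁ c₂)ᶜ := by
  intro s hs
  have hsl : s ∉ LG.lattice := notMem_lattice hs
  have a1 : ContDiffAt ℝ ∞ LG.weierstrassP s := (LG.analyticOnNhd_weierstrassP s hsl).contDiffAt.restrict_scalars ℝ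
  have a2 : ContDiffAt ℝ ∞ LG.derivWeierstrassP s :=
    (LG.analyticOnNhd_derivWeierstrassP s hsl).contDiffAt.restrict_scalars ℝ
  have a3 : ContDiffAt ℝ ∞ ρ (LG.weierstrassP s) :=
    hρ.contDiffAt (isOpen_UU.mem_nhds (P_mem_UU hs))
  have a4 : ContDiffAt ℝ ∞ (fun s => ρ (LG.weierstrassP s) * ‖LG.derivWeierstrassP s‖ ^ 2) s :=
    (a3.comp s a1).mul (a2.norm_sq ℝ)
  refine (a4.congr_of_eventuallyEq ?_).contDiffWithinAt
  filter_upwards [isOpen_compl_Sp.mem_nhds hs] with x hx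
  exact RR_of_notMem hx

/-- The curvature equation. -/
lemma pde_RR (hs : ContDiffOn ℝ ∞ ρ (UU c₁ c₂)) (hρ : ∀ z ∈ UU c₁ c₂, 0 < ρ z)
    (hpde : ∀ z ∈ UU c₁ c₂, dzb (dz (fun w => ((Real.log (ρ w) : ℝ) : ℂ))) z = (3 / 2) * ρ z)
    {s : ℂ} (hsS : s ∉ Sp c₁ c₂) :
    dzb (dz (fun w => ((Real.log (RR c₁ c₂ ρ w) : ℝ) : ℂ))) s = (3 / 2) * RR c₁ c₂ ρ s := by
  set v : ℂ → ℂ := fun w => ((Real.log (ρ w) : ℝ) : ℂ) with hv
  have hvs : ContDiffOn ℝ ∞ v (UU c₁ c₂) := by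
    have h1 : ContDiffOn ℝ ∞ (fun w => Real.log (ρ w)) (UU c₁ c₂) := hs.log fun z hz => (hρ z hz).ne'
    exact Complex.ofRealCLM.contDiff.comp_contDiffOn h1
  have hvd : ∀ t ∈ UU c₁ c₂, DifferentiableAt ℝ v t := fun t ht =>
    (hvs.contDiffAt (isOpen_UU.mem_nhds ht)).differentiableAt (by simp)
  have hdzs : ContDiffOn ℝ 1 (dz v) (UU c₁ c₂) := by
    have h1 : ContDiffOn ℝ 1 (fderiv ℝ v) (UU c₁ c₂) :=
      (contDiffOn_infty.mp hvs 2).fderiv_of_isOpen isOpen_UU (by norm_num)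
    unfold dz
    exact contDiffOn_const.mul ((h1.clm_apply contDiffOn_const).sub
      (contDiffOn_const.mul (h1.clm_apply contDiffOn_const)))
  -- the first derivative near s
  have e1 : ∀ x ∉ Sp c₁ c₂, dz (fun w => ((Real.log (RR c₁ c₂ ρ w) : ℝ) : ℂ)) x
      = dz v (LG.weierstrassP x) * LG.derivWeierstrassP x
        + deriv LG.derivWeierstrassP x / LG.derivWeierstrassP x := by
    intro x hx
    have hxl := notMem_lattice hx
    have h1 : (fun w => ((Real.log (RR c₁ c₂ ρ w) : ℝ) : ℂ)) =ᶠ[𝓝 x] fun w =>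
        (fun y => v (LG.weierstrassP y)) w + (fun y => ((Real.log (‖LG.derivWeierstrassP y‖ ^ 2) : ℝ) : ℂ)) w := by
      filter_upwards [isOpen_compl_Sp.mem_nhds hx] with y hy
      have h2 := hρ _ (P_mem_UU hy)
      have h3 : 0 < ‖LG.derivWeierstrassP y‖ := norm_pos_iff.mpr (dP_ne hy)
      rw [RR_of_notMem hy, Real.log_mul h2.ne' (by positivity)]
      simp only [hv]
      push_cast; ring
    have h4 := dz_log_normSq (differentiableAt_dP hxl).hasDerivAt (dP_ne hx)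
    have h5 : DifferentiableAt ℝ (fun y => v (LG.weierstrassP y)) x :=
      (hvd _ (P_mem_UU hx)).comp x ((hasDerivAt_P hxl).differentiableAt.restrictScalars ℝ)
    have h6 : dz (fun w => ((Real.log (RR c₁ c₂ ρ w) : ℝ) : ℂ)) x = dz (fun w =>
        (fun y => v (LG.weierstrassP y)) w + (fun y => ((Real.log (‖LG.derivWeierstrassP y‖ ^ 2) : ℝ) : ℂ)) w) x := by
      simp only [dz]
      rw [h1.fderiv_eq]
    rw [h6, dz_add h5 h4.1, h4.2, dz_comp (hvd _ (P_mem_UU hx)) (hasDerivAt_P hxl)]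
  have hsl := notMem_lattice hsS
  have e2 : dz (fun w => ((Real.log (RR c₁ c₂ ρ w) : ℝ) : ℂ)) =ᶠ[𝓝 s] fun x =>
      dz v (LG.weierstrassP x) * LG.derivWeierstrassP x
        + deriv LG.derivWeierstrassP x / LG.derivWeierstrassP x := by
    filter_upwards [isOpen_compl_Sp.mem_nhds hsS] with x hx using e1 x hx
  have e3 : dzb (dz (fun w => ((Real.log (RR c₁ c₂ ρ w) : ℝ) : ℂ))) s = dzb (fun x =>
      dz v (LG.weierstrassP x) * LG.derivWeierstrassP x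
        + deriv LG.derivWeierstrassP x / LG.derivWeierstrassP x) s := by
    rw [dzb, dzb, e2.fderiv_eq]
  have hanal := LG.analyticOnNhd_derivWeierstrassP s hsl
  have k1 : DifferentiableAt ℂ (fun x => deriv LG.derivWeierstrassP x / LG.derivWeierstrassP x) s :=
    hanal.deriv.differentiableAt.div hanal.differentiableAt (dP_ne hsS)
  have k2 : DifferentiableAt ℝ (dz v) (LG.weierstrassP s) :=
    (hdzs.contDiffAt (isOpen_UU.mem_nhds (P_mem_UU hsS))).differentiableAt (by simp)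
  have k3 : DifferentiableAt ℝ (fun x => dz v (LG.weierstrassP x)) s :=
    k2.comp s ((hasDerivAt_P hsl).differentiableAt.restrictScalars ℝ)
  have k4 : DifferentiableAt ℝ LG.derivWeierstrassP s := (differentiableAt_dP hsl).restrictScalars ℝ
  rw [e3, dzb_add (k3.fun_mul k4) (k1.restrictScalars ℝ), dzb_mul k3 k4,
    (differentiableAt_iff_dzb (k1.restrictScalars ℝ)).mp k1,
    (differentiableAt_iff_dzb k4).mp (differentiableAt_dP hsl),
    dzb_comp k2 (hasDerivAt_P hsl), hpde _ (P_mem_UU hsS), RR_of_notMem hsS]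
  have h7 : conj (LG.derivWeierstrassP s) * LG.derivWeierstrassP s = ((‖LG.derivWeierstrassP s‖ ^ 2 : ℝ) : ℂ) := by
    rw [mul_comm, Complex.mul_conj, Complex.normSq_eq_norm_sq]
  push_cast at h7 ⊢
  linear_combination (3 / 2 * (ρ (LG.weierstrassP s) : ℂ)) * h7

end Pool.Agent.Lib.Helper82.Ell
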